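import Pool.Agent.H900.PN.Ap

/-! # The Pfister form of the residue field is anisotropic: polynomials -/

set_option autoImplicit false
set_option linter.unusedSectionVars false
set_option linter.unusedVariables false

namespace Pool.Agent.H900.GM

open MvPolynomial Pool.Agent.H900.LF Pool.Agent.H900.PN

noncomputable section

section poly

variable {σ ι k : Type} [Field k] [Fintype ι] [DecidableEq ι] [Finite σ]

theorem an_sub {ι' : Type} [Fintype ι'] (v : σ) {g : MvPolynomial σ k} (hne : X v - g ≠ 0)
    (hg : sub v g g = g) (c : ι' → MvPolynomial σ k) (S : Set ι')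
    (h : An (fun i => sub v g (c i)) S) : An c S := by
  classical
  refine an_step (sub v g).toRingHom (X v - g) hne ?_ (fun p hp => sub_ker v g p hp) c c S ∅
    (fun i => by rw [if_neg (Set.notMem_empty i)]) ?_ ?_
  · show sub v g (X v - g) = 0
    rw [map_sub, LF.sub_self, hg, _root_.sub_self]
  · rw [Set.sdiff_empty]
    exact h
  · rw [Set.inter_empty]
    intro r hr _
    funext i
    exact hr i (Set.notMem_empty i)

theorem pp_sub (v : σ) {g : MvPolynomial σ k} (hne : X v - g ≠ 0) (hg : sub v g g = g)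
    {Y : MvPolynomial σ k} {a : ι → MvPolynomial σ k} {A : Finset ι}
    (h : PP (sub v g Y) (fun i => sub v g (a i)) A) : PP Y a A := by
  classical
  intro Z
  refine an_sub v hne hg _ _ ((h Z).congr fun p _ => ?_)
  rw [map_mul, map_prod]
  congr 1
  split_ifs
  · rfl
  · rw [map_one]

theorem pp_base2 [CharZero k] (v : σ) {e : k} (he : e ^ 2 = -1) (a : ι → MvPolynomial σ k) :
    PP (-(X v ^ 2 + 1) : MvPolynomial σ k) a ∅ := by
  classical
  have he0 : e ≠ 0 := by
    rintro rfl
    norm_num at he
  have hC : sub v (C e : MvPolynomial σ k) (C e) = C e := AlgHom.commutes _ _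
  intro Z
  refine an_step (sub v (C e : MvPolynomial σ k)).toRingHom (X v - C e) ?_ ?_
    (fun p hp => sub_ker v _ p hp) _ (fun p => if p.1 = true then -(X v + C e) else 1) _
    {p | p.1 = true} (fun p => ?_) ?_ ?_
  · intro h
    have h1 := congrArg (eval (fun _ => e + 1)) h
    rw [map_sub, eval_X, eval_C, map_zero, add_sub_cancel_left] at h1
    exact one_ne_zero h1
  · show sub v _ (X v - C e) = 0
    rw [map_sub, LF.sub_self, hC, _root_.sub_self]
  · rw [Finset.inter_empty, Finset.prod_empty]
    by_cases hp : p.1 = true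
    · have hp' : p ∈ {p : Bool × Finset ι | p.1 = true} := hp
      rw [if_pos hp', if_pos hp, if_pos hp]
      have h3 : (C e : MvPolynomial σ k) ^ 2 = -1 := by
        rw [← map_pow, he, map_neg, map_one]
      linear_combination (-1 : MvPolynomial σ k) * h3
    · have hp' : p ∉ {p : Bool × Finset ι | p.1 = true} := hp
      rw [if_neg hp', if_neg hp, if_neg hp, one_mul]
  · refine An.mono (an_single _ (false, Z) ?_) ?_
    · show sub v _ (if (false : Bool) = true then -(X v + C e) else 1) ≠ 0
      rw [if_neg (by decide), map_one]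
      exact one_ne_zero
    · rintro ⟨b, S⟩ ⟨hp1, hp2⟩
      have h1 : S \ ∅ = Z := hp1
      have h2 : ¬ b = true := hp2
      rw [Finset.sdiff_empty] at h1
      rw [Set.mem_singleton_iff, Prod.mk.injEq]
      exact ⟨by simpa using h2, h1⟩
  · refine An.mono (an_single _ (true, Z) ?_) ?_
    · show sub v _ (if (true : Bool) = true then -(X v + C e) else 1) ≠ 0
      rw [if_pos rfl, map_neg, map_add, LF.sub_self, hC]
      have h4 : -((C e : MvPolynomial σ k) + C e) = C (-(e + e)) := by
        rw [map_neg, map_add]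
      rw [h4, Ne, C_eq_zero]
      intro h5
      apply he0
      linear_combination (-1 / 2 : k) * h5
    · rintro ⟨b, S⟩ ⟨hp1, hp2⟩
      have h1 : S \ ∅ = Z := hp1
      have h2 : b = true := hp2
      rw [Finset.sdiff_empty] at h1
      rw [Set.mem_singleton_iff, Prod.mk.injEq]
      exact ⟨h2, h1⟩

end poly

section main

variable {s : ℕ} {μ k : Type} [Finite μ] [Field k] [CharZero k] (i1 i2 : Fin s)

/-- the variables `x_0, x_1, n_1, y_3` -/
abbrev Xv (j : Fin 4) : MvPolynomial (Sg s 4 μ) k := X (Sum.inr (Sum.inl j))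

/-- the form -/
def NP : MvPolynomial (Sg s 4 μ) k :=
  X (Sum.inl i2) ^ 2 + X (Sum.inl i1) * Xv 2 ^ 2 +
    Xv 3 * (Xv 0 ^ 2 + X (Sum.inl i1) * Xv 1 ^ 2 + 1)

/-- the slots -/
def aP (i : Fin s) : MvPolynomial (Sg s 4 μ) k :=
  if i = i2 then -NP i1 i2 else X (Sum.inl i)

theorem pp_all (h12 : i1 ≠ i2) {e : k} (he : e ^ 2 = -1) :
    PP (Xv 3 : MvPolynomial (Sg s 4 μ) k) (aP i1 i2) Finset.univ := by
  classical
  set y : MvPolynomial (Sg s 4 μ) k := Xv 3 with hy
  set x : MvPolynomial (Sg s 4 μ) k := Xv 0 with hx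
  let ev : MvPolynomial (Sg s 4 μ) k →ₐ[k] MvPolynomial (Sg s 4 μ) k :=
    aeval (Sum.elim (fun i => X (Sum.inl i)) (Sum.elim
      (fun j => if j = 1 ∨ j = 2 then 0 else X (Sum.inr (Sum.inl j)))
      fun l => X (Sum.inr (Sum.inr l))))
  have hev1 : ∀ i, ev (X (Sum.inl i)) = X (Sum.inl i) := fun i => by
    simp only [ev, aeval_X, Sum.elim_inl]
  have hev2 : ∀ j, ev (X (Sum.inr (Sum.inl j))) =
      if j = 1 ∨ j = 2 then 0 else X (Sum.inr (Sum.inl j)) := fun j => by
    simp only [ev, aeval_X, Sum.elim_inr, Sum.elim_inl]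
  have hev3 : ∀ l, ev (X (Sum.inr (Sum.inr l))) = X (Sum.inr (Sum.inr l)) := fun l => by
    simp only [ev, aeval_X, Sum.elim_inr]
  let a1 : Fin s → MvPolynomial (Sg s 4 μ) k := fun i =>
    if i = i2 then -(X (Sum.inl i2) ^ 2 + y * (x ^ 2 + 1)) else X (Sum.inl i)
  let a0 : Fin s → MvPolynomial (Sg s 4 μ) k := fun i =>
    if i = i2 then -(y ^ 2 + y * (x ^ 2 + 1)) else X (Sum.inl i)
  have hevy : ev y = y := by
    rw [hy, hev2, if_neg (by decide)]
  have hevx : ev x = x := by
    rw [hx, hev2, if_neg (by decide)]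
  refine pp_zeros ({Sum.inr (Sum.inl 1), Sum.inr (Sum.inl 2)} : Finset (Sg s 4 μ)) ev ?_ ?_ ?_
  · intro v hv
    rw [Finset.mem_insert, Finset.mem_singleton] at hv
    rcases hv with rfl | rfl
    · rw [hev2, if_pos (by decide)]
    · rw [hev2, if_pos (by decide)]
  · intro v hv
    rcases v with i | j | l
    · exact hev1 i
    · rw [hev2, if_neg]
      intro h
      apply hv
      rw [Finset.mem_insert, Finset.mem_singleton]
      rcases h with rfl | rfl
      · exact Or.inl rfl
      · exact Or.inr rfl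
    · exact hev3 l
  have hev : ∀ i, ev (aP i1 i2 i) = a1 i := by
    intro i
    unfold aP
    by_cases hi : i = i2
    · have h2 : a1 i = -(X (Sum.inl i2) ^ 2 + y * (x ^ 2 + 1)) := if_pos hi
      rw [if_pos hi, h2]
      have g1 : ev (Xv 1) = 0 := by rw [hev2, if_pos (by decide)]
      have g2 : ev (Xv 2) = 0 := by rw [hev2, if_pos (by decide)]
      unfold NP
      rw [← hy, ← hx]
      simp only [map_neg, map_add, map_mul, map_pow, map_one, hev1, hevx, hevy, g1, g2]
      ring
    · have h2 : a1 i = X (Sum.inl i) := if_neg hi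
      rw [if_neg hi, h2, hev1]
  rw [hevy, funext hev]
  -- the substitution `z ↦ y`
  have hyy : sub (Sum.inl i2) y y = y := by
    nth_rewrite 2 [hy]
    rw [sub_ne (by simp)]
  have hxx : sub (Sum.inl i2) y x = x := by
    nth_rewrite 1 [hx]
    rw [sub_ne (by simp)]
  refine pp_sub (Sum.inl i2) (g := y) ?_ hyy ?_
  · intro h
    have h3 := congrArg (eval (fun v : Sg s 4 μ => if v = Sum.inl i2 then (1 : k) else 0)) h
    simp only [hy, map_sub, eval_X, map_zero, if_true] at h3
    rw [if_neg (by simp), sub_zero] at h3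
    exact one_ne_zero h3
  have hsub : ∀ i, sub (Sum.inl i2) y (a1 i) = a0 i := by
    intro i
    by_cases hi : i = i2
    · have h2 : a1 i = -(X (Sum.inl i2) ^ 2 + y * (x ^ 2 + 1)) := if_pos hi
      have h3 : a0 i = -(y ^ 2 + y * (x ^ 2 + 1)) := if_pos hi
      rw [h2, h3]
      simp only [map_neg, map_add, map_mul, map_pow, map_one, LF.sub_self, hyy, hxx]
    · have h2 : a1 i = X (Sum.inl i) := if_neg hi
      have h3 : a0 i = X (Sum.inl i) := if_neg hi
      rw [h2, h3, sub_ne (by simpa using hi)]
  rw [hyy, funext hsub]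
  -- the first slot
  have h1 : PP y a0 {i2} := by
    have h2 : ({i2} : Finset (Fin s)) = insert i2 ∅ := rfl
    rw [h2]
    have hxq : sub (Sum.inr (Sum.inl 3)) (-(x ^ 2 + 1)) x = x := by
      nth_rewrite 2 [hx]
      rw [sub_ne (by simp)]
    have hyq : sub (Sum.inr (Sum.inl 3)) (-(x ^ 2 + 1)) y = -(x ^ 2 + 1) := LF.sub_self _ _
    refine pstep (sub (Sum.inr (Sum.inl 3)) (-(x ^ 2 + 1))).toRingHom (π := y - (-(x ^ 2 + 1)))
      (g := -y) ?_ ?_ ?_ (Finset.notMem_empty _) ?_ ?_ ?_
    · intro h
      have h3 := congrArg (eval (fun v : Sg s 4 μ => (0 : k))) h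
      simp only [hy, hx, map_sub, map_neg, map_add, map_pow, map_one, eval_X, map_zero] at h3
      norm_num at h3
    · show sub _ _ (y - (-(x ^ 2 + 1))) = 0
      rw [map_sub, hyq, map_neg, map_add, map_pow, hxq, map_one, _root_.sub_self]
    · intro p hp
      exact sub_ker _ _ _ hp
    · have h2 : a0 i2 = -(y ^ 2 + y * (x ^ 2 + 1)) := if_pos rfl
      rw [h2]
      ring
    · show sub _ _ (-y) ≠ 0
      rw [map_neg, hyq, neg_neg]
      intro h
      have h3 := congrArg (eval (fun v : Sg s 4 μ => (0 : k))) h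
      simp only [hx, map_add, map_pow, map_one, eval_X, map_zero] at h3
      norm_num at h3
    · have h3 : (sub (Sum.inr (Sum.inl 3)) (-(x ^ 2 + 1))).toRingHom y = -(x ^ 2 + 1) := hyq
      rw [h3]
      exact pp_base2 _ he _
  have h2 : ∀ W : Finset (Fin s), i2 ∉ W → PP y a0 (insert i2 W) := by
    intro W
    induction W using Finset.induction_on with
    | empty => exact fun _ => h1
    | insert i3 W hi1 ih =>
      intro hW
      have h01 : i2 ≠ i3 := fun h => hW (h ▸ Finset.mem_insert_self _ _)
      have hW' : i2 ∉ W := fun h => hW (Finset.mem_insert_of_mem h)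
      rw [Finset.insert_comm]
      have hfix : (sub (Sum.inl i3) (0 : MvPolynomial (Sg s 4 μ) k)).toRingHom y = y := by
        rw [hy]
        exact sub_ne (by simp) _
      have hfix2 : (sub (Sum.inl i3) (0 : MvPolynomial (Sg s 4 μ) k)).toRingHom x = x := by
        rw [hx]
        exact sub_ne (by simp) _
      refine pstep (sub (Sum.inl i3) (0 : MvPolynomial (Sg s 4 μ) k)).toRingHom
        (π := X (Sum.inl i3)) (g := 1) (X_ne_zero _) (LF.sub_self _ 0) (fun p hp => ?_) ?_ ?_ ?_ ?_
      · have h1 := sub_ker (Sum.inl i3) 0 p hp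
        rwa [sub_zero] at h1
      · rw [Finset.mem_insert, not_or]
        exact ⟨h01.symm, hi1⟩
      · rw [mul_one]
        exact if_neg h01.symm
      · rw [map_one]
        exact one_ne_zero
      · rw [hfix]
        refine (ih hW').congr fun i hi => ?_
        have hii : i ≠ i3 := by
          rintro rfl
          rw [Finset.mem_insert] at hi
          rcases hi with h | h
          · exact h01 h.symm
          · exact hi1 h
        by_cases hi' : i = i2
        · have h3 : a0 i = -(y ^ 2 + y * (x ^ 2 + 1)) := if_pos hi'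
          rw [h3, map_neg, map_add, map_mul, map_add, map_pow, map_pow, hfix, hfix2, map_one]
        · have h3 : a0 i = X (Sum.inl i) := if_neg hi'
          rw [h3]
          exact (sub_ne (by simpa using hii) _).symm
  have h3 := h2 (Finset.univ.erase i2) (Finset.notMem_erase _ _)
  rwa [Finset.insert_erase (Finset.mem_univ _)] at h3

/-- the other form -/
def MP : MvPolynomial (Sg s 4 μ) k :=
  X (Sum.inl i1) * Xv 2 ^ 2 + X (Sum.inl i2) * (Xv 3 + 1) ^ 2 +
    Xv 3 * (Xv 0 ^ 2 + X (Sum.inl i1) * Xv 1 ^ 2 + 1)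

theorem an_MP {p q : MvPolynomial (Sg s 4 μ) k} (h : p ^ 2 + MP i1 i2 * q ^ 2 = 0) :
    p = 0 ∧ q = 0 := by
  classical
  set y : MvPolynomial (Sg s 4 μ) k := Xv 3 with hy
  set x : MvPolynomial (Sg s 4 μ) k := Xv 0 with hx
  let ev : MvPolynomial (Sg s 4 μ) k →ₐ[k] MvPolynomial (Sg s 4 μ) k :=
    aeval (Sum.elim (fun i => if i = i2 then 0 else X (Sum.inl i)) (Sum.elim
      (fun j => if j = 1 ∨ j = 2 then 0 else X (Sum.inr (Sum.inl j)))
      fun l => X (Sum.inr (Sum.inr l))))
  have hev1 : ∀ i, ev (X (Sum.inl i)) = if i = i2 then 0 else X (Sum.inl i) := fun i => by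
    simp only [ev, aeval_X, Sum.elim_inl]
  have hev2 : ∀ j, ev (X (Sum.inr (Sum.inl j))) =
      if j = 1 ∨ j = 2 then 0 else X (Sum.inr (Sum.inl j)) := fun j => by
    simp only [ev, aeval_X, Sum.elim_inr, Sum.elim_inl]
  have hev3 : ∀ l, ev (X (Sum.inr (Sum.inr l))) = X (Sum.inr (Sum.inr l)) := fun l => by
    simp only [ev, aeval_X, Sum.elim_inr]
  have hAn : An (fun b : Bool => if b = true then MP i1 i2 else
      (1 : MvPolynomial (Sg s 4 μ) k)) Set.univ := by
    refine an_zeros ({Sum.inr (Sum.inl 1), Sum.inr (Sum.inl 2), Sum.inl i2} :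
      Finset (Sg s 4 μ)) _ _ ev ?_ ?_ ?_
    · intro v hv
      rw [Finset.mem_insert, Finset.mem_insert, Finset.mem_singleton] at hv
      rcases hv with rfl | rfl | rfl
      · rw [hev2, if_pos (by decide)]
      · rw [hev2, if_pos (by decide)]
      · rw [hev1, if_pos rfl]
    · intro v hv
      rw [Finset.mem_insert, Finset.mem_insert, Finset.mem_singleton, not_or, not_or] at hv
      rcases v with i | j | l
      · rw [hev1, if_neg]
        rintro rfl
        exact hv.2.2 rfl
      · rw [hev2, if_neg]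
        rintro (rfl | rfl)
        · exact hv.1 rfl
        · exact hv.2.1 rfl
      · exact hev3 l
    have hM : ev (MP i1 i2) = y * (x ^ 2 + 1) := by
      have g1 : ev (Xv 1) = 0 := by rw [hev2, if_pos (by decide)]
      have g2 : ev (Xv 2) = 0 := by rw [hev2, if_pos (by decide)]
      have g3 : ev (X (Sum.inl i2)) = 0 := by rw [hev1, if_pos rfl]
      have g4 : ev y = y := by rw [hy, hev2, if_neg (by decide)]
      have g5 : ev x = x := by rw [hx, hev2, if_neg (by decide)]
      unfold MP
      rw [← hy, ← hx]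
      simp only [map_add, map_mul, map_pow, map_one, g1, g2, g3, g4, g5]
      ring
    have hxq : sub (Sum.inr (Sum.inl 3)) 0 x = x := by
      nth_rewrite 2 [hx]
      rw [sub_ne (by simp)]
    refine an_step (sub (Sum.inr (Sum.inl 3)) (0 : MvPolynomial (Sg s 4 μ) k)).toRingHom
      (X (Sum.inr (Sum.inl 3))) (X_ne_zero _) (LF.sub_self _ 0) (fun p hp => ?_) _
      (fun b : Bool => if b = true then x ^ 2 + 1 else 1) _ {b | b = true} (fun b => ?_) ?_ ?_
    · have h1 := sub_ker (Sum.inr (Sum.inl 3)) 0 p hp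
      rwa [sub_zero] at h1
    · by_cases hb : b = true
      · have hb' : b ∈ {b : Bool | b = true} := hb
        rw [if_pos hb', if_pos hb, if_pos hb, hM]
      · have hb' : b ∉ {b : Bool | b = true} := hb
        rw [if_neg hb', if_neg hb, if_neg hb, map_one]
    · refine An.mono (an_single _ false ?_) ?_
      · show sub _ _ (if (false : Bool) = true then x ^ 2 + 1 else 1) ≠ 0
        rw [if_neg (by decide), map_one]
        exact one_ne_zero
      · rintro b ⟨-, hb⟩
        have h2 : ¬ b = true := hb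
        simpa using h2
    · refine An.mono (an_single _ true ?_) ?_
      · show sub _ _ (if (true : Bool) = true then x ^ 2 + 1 else 1) ≠ 0
        rw [if_pos rfl, map_add, map_pow, map_one, hxq]
        intro h
        have h3 := congrArg (eval (fun v : Sg s 4 μ => (0 : k))) h
        simp only [hx, map_add, map_pow, map_one, eval_X, map_zero] at h3
        norm_num at h3
      · rintro b ⟨-, hb⟩
        exact hb
  have h4 := hAn (fun b => if b = true then q else p) (fun i hi => absurd (Set.mem_univ i) hi) (by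
    rw [Fintype.sum_bool]
    simp only [if_true, Bool.false_eq_true, if_false, one_mul]
    linear_combination h)
  exact ⟨by simpa using congrFun h4 false, by simpa using congrFun h4 true⟩

end main

end

end Pool.Agent.H900.GM
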