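import Pool.Agent.H900.GM.Co
import Pool.Agent.H900.PC.Cc

/-! # Families with independent coefficients specialize to the special family -/

set_option autoImplicit false
set_option linter.unusedSectionVars false
set_option linter.unusedVariables false

namespace Pool.Agent.H900.GM

open MvPolynomial Module Pool.Agent.H900.PN

noncomputable section

/-- independence over the prime field -/
theorem indep_bot {S : Type} {f : S → ℂ} (hi : AlgebraicIndependent ℚ f) :
    AlgebraicIndependent (⊥ : IntermediateField ℚ ℂ) f := by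
  have h1 : (⊥ : IntermediateField ℚ ℂ) = IntermediateField.adjoin ℚ
    (Set.range (Fin.elim0 : Fin 0 → ℂ)) := by
    rw [Set.range_eq_empty, IntermediateField.adjoin_empty]
  rw [h1]
  apply Pool.Agent.X328.FD.indep_over
  have h2 : (Sum.elim f (Fin.elim0 : Fin 0 → ℂ)) =
      f ∘ (Equiv.sumEmpty _ (Fin 0)) := by
    funext v
    rcases v with v | v
    · rfl
    · exact Fin.elim0 v
  rw [h2, algebraicIndependent_equiv]
  exact hi

/-- the factors -/
def sc {k : Type} [One k] (u : k) (i : Fin 10) : k := if i.val < 4 then u else 1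

/-- the weight of a monomial -/
def ey (β : Fin 10 →₀ ℕ) : ℕ := β 0 + β 1 + β 2 + β 3

theorem prod_sc {k : Type} [CommRing k] (u : k) (β : Fin 10 →₀ ℕ) :
    ∏ i, (sc u i) ^ β i = u ^ ey β := by
  have h3 : (Fin.succ 2 : Fin 10) = 3 := rfl
  simp only [Fin.prod_univ_succ, Fin.prod_univ_zero, sc, ey]
  norm_num
  rw [h3]
  ring

/-- the scaled family -/
def Fsc {ι : Type} (c : ℂ) (F : Finset ι → MvPolynomial (Fin 10) ℂ)
    (τ : Finset ι) : MvPolynomial (Fin 10) ℂ :=
  aeval (fun i => C (sc c i) * X i) (F τ)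

theorem coeff_Fsc {ι : Type} (c : ℂ) (F : Finset ι → MvPolynomial (Fin 10) ℂ)
    (τ : Finset ι) (β : Fin 10 →₀ ℕ) :
    coeff β (Fsc c F τ) = c ^ ey β * coeff β (F τ) := by
  unfold Fsc
  rw [PC.coeff_scale, prod_sc]

/-- the family `F` specializes to the special family -/
def HB {s : ℕ} (i1 i2 : Fin s) (T : Finset (Finset (Fin s)))
    (F : Finset (Fin s) → MvPolynomial (Fin 10) ℂ) (c : ℂ) : Prop :=
  ∃ (Ω : IntermediateField ℚ ℂ) (G : Finset (Fin s) → MvPolynomial (Fin 10) Ω),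
    IsAlgClosed Ω ∧ Transcendental Ω c ∧
    Algebra.IsAlgebraic (IntermediateField.adjoin Ω {c}) ℂ ∧
    (∀ τ ∈ T, (G τ).IsHomogeneous 2) ∧
    ∀ τ ∈ T, F τ = map (algebraMap ℚ ℂ) (Phi ℚ i1 i2 τ) + C c * map (algebraMap Ω ℂ) (G τ)

theorem Phi_99 {ι k : Type} [CommRing k] (i1 i2 : ι) :
    coeff (Finsupp.single 9 2) (Phi k i1 i2 ∅) = 0 := by
  classical
  have h1 : aeval (fun i => if i = (9 : Fin 10) then (X 9 : MvPolynomial (Fin 10) k) else 0)
      (Phi k i1 i2 ∅) = 0 := by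
    unfold Phi
    rw [if_pos rfl, if_neg (Finset.singleton_ne_empty i1).symm,
      if_neg (Finset.singleton_ne_empty i2).symm, add_zero, add_zero]
    simp only [map_add, map_mul, map_pow, aeval_X]
    simp
  have h2 := PC.coeff_scale (fun i => if i = (9 : Fin 10) then (1 : k) else 0)
    (Phi k i1 i2 ∅) (Finsupp.single 9 2)
  have h3 : (fun i => C (if i = (9 : Fin 10) then (1 : k) else 0) * X i :
      Fin 10 → MvPolynomial (Fin 10) k) = fun i => if i = (9 : Fin 10) then X 9 else 0 := by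
    funext i
    split_ifs with h
    · rw [C_1, one_mul, h]
    · rw [C_0, zero_mul]
  rw [h3, h1, coeff_zero] at h2
  have h4 : ∏ i, (if i = (9 : Fin 10) then (1 : k) else 0) ^
      (Finsupp.single (9 : Fin 10) 2) i = 1 := by
    refine Finset.prod_eq_one fun i _ => ?_
    by_cases h : i = 9
    · rw [if_pos h, one_pow]
    · rw [Finsupp.single_eq_of_ne h, pow_zero]
  rw [h4, one_mul] at h2
  exact h2.symm

theorem exists_HB {s : ℕ} {i1 i2 : Fin s} {T : Finset (Finset (Fin s))} (hT0 : ∅ ∈ T)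
    {F : Finset (Fin s) → MvPolynomial (Fin 10) ℂ} (hF : ∀ τ ∈ T, (F τ).IsHomogeneous 2)
    (hind : AlgebraicIndependent ℚ
      (fun p : T × {β : Fin 10 →₀ ℕ // β.degree = 2} => coeff p.2.1 (F p.1))) :
    ∃ c : ℂ, c ≠ 0 ∧ HB i1 i2 T (Fsc c F) c := by
  classical
  let β0 : Fin 10 →₀ ℕ := Finsupp.single 9 2
  have hey0 : ey β0 = 0 := by
    simp [ey, β0]
  have hdeg0 : β0.degree = 2 := Finsupp.degree_single _ _
  let s0 : T × {β : Fin 10 →₀ ℕ // β.degree = 2} := (⟨∅, hT0⟩, ⟨β0, hdeg0⟩)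
  set φ : T × {β : Fin 10 →₀ ℕ // β.degree = 2} → ℂ :=
    fun p => algebraMap ℚ ℂ (coeff p.2.1 (Phi ℚ i1 i2 p.1)) with hφ
  set f : T × {β : Fin 10 →₀ ℕ // β.degree = 2} → ℂ := fun p => coeff p.2.1 (F p.1) with hf
  set c : ℂ := f s0 with hc
  have hφk : ∀ (K : IntermediateField (⊥ : IntermediateField ℚ ℂ) ℂ)
      (p : T × {β : Fin 10 →₀ ℕ // β.degree = 2}), φ p ∈ K := by
    intro K p
    have h1 : φ p = algebraMap (⊥ : IntermediateField ℚ ℂ) ℂ
      (algebraMap ℚ (⊥ : IntermediateField ℚ ℂ) (coeff p.2.1 (Phi ℚ i1 i2 p.1))) := rfl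
    rw [h1]
    exact K.algebraMap_mem _
  have hc0 : c ≠ 0 := hind.ne_zero s0
  obtain ⟨z, hz⟩ : ∃ z : T × {β : Fin 10 →₀ ℕ // β.degree = 2} → ℂ,
    z = fun p => if p = s0 then c else c⁻¹ * (c ^ ey p.2.1 * f p - φ p) := ⟨_, rfl⟩
  have hz0 : z s0 = c := by rw [hz]; exact if_pos rfl
  have hzs : ∀ p, p ≠ s0 → z p = c⁻¹ * (c ^ ey p.2.1 * f p - φ p) := by
    intro p hp
    rw [hz]
    exact if_neg hp
  have hfin : Finite {β : Fin 10 →₀ ℕ // β.degree = 2} := by
    have h2 := Finsupp.finite_of_degree_le (σ := Fin 10) 2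
    exact (h2.subset fun β (hβ : β.degree = 2) => le_of_eq hβ).to_subtype
  have hzi : AlgebraicIndependent (⊥ : IntermediateField ℚ ℂ) z := by
    refine PC.indep_same ⊥ (indep_bot hind) (fun p => ?_) fun p => ?_
    · have hfm : ∀ p, f p ∈ IntermediateField.adjoin (⊥ : IntermediateField ℚ ℂ)
        (Set.range f) := fun p => IntermediateField.subset_adjoin _ _ ⟨p, rfl⟩
      have hcm := hfm s0
      by_cases hp : p = s0
      · rw [hp, hz0]
        exact hcm
      · rw [hzs p hp]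
        exact mul_mem (inv_mem hcm) (sub_mem (mul_mem (pow_mem hcm _) (hfm p)) (hφk _ _))
    · have hzm : ∀ p, z p ∈ IntermediateField.adjoin (⊥ : IntermediateField ℚ ℂ)
        (Set.range z) := fun p => IntermediateField.subset_adjoin _ _ ⟨p, rfl⟩
      have hcm : c ∈ IntermediateField.adjoin (⊥ : IntermediateField ℚ ℂ) (Set.range z) := by
        rw [← hz0]
        exact hzm s0
      by_cases hp : p = s0
      · show f p ∈ _
        rw [hp]
        exact hcm
      · show f p ∈ _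
        have h1 : f p = (c ^ ey p.2.1)⁻¹ * (c * z p + φ p) := by
          rw [hzs p hp]
          have h2 : c ^ ey p.2.1 ≠ 0 := pow_ne_zero _ hc0
          field_simp
          ring
        rw [h1]
        exact mul_mem (inv_mem (pow_mem hcm _)) (add_mem (mul_mem hcm (hzm p)) (hφk _ _))
  obtain ⟨Ω, hΩ, hcΩ, halg, hkΩ, hzΩ⟩ := PC.base_gen ⊥ z s0 hzi
  rw [hz0] at hcΩ halg
  have hGex : ∀ τ, ∃ G : MvPolynomial (Fin 10) Ω, τ ∈ T → map (algebraMap Ω ℂ) G =
      C c⁻¹ * (Fsc c F τ - map (algebraMap ℚ ℂ) (Phi ℚ i1 i2 τ)) := by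
    intro τ
    by_cases hτ : τ ∈ T
    swap
    · exact ⟨0, fun h => absurd h hτ⟩
    have : C c⁻¹ * (Fsc c F τ - map (algebraMap ℚ ℂ) (Phi ℚ i1 i2 τ)) ∈
        Set.range (map (σ := Fin 10) (algebraMap Ω ℂ)) := by
      rw [mem_range_map_iff_coeffs_subset]
      intro w hw
      rw [Finset.mem_coe, mem_coeffs_iff] at hw
      obtain ⟨β, hβ, rfl⟩ := hw
      rw [coeff_C_mul, coeff_sub, coeff_map, coeff_Fsc]
      by_cases h3 : β.degree = 2
      · by_cases h0 : ((⟨τ, hτ⟩, ⟨β, h3⟩) : T × {β : Fin 10 →₀ ℕ // β.degree = 2}) = s0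
        · have e1 : τ = ∅ := congrArg (fun p => p.1.1) h0
          have e2 : β = β0 := congrArg (fun p => p.2.1) h0
          refine ⟨1, ?_⟩
          rw [map_one, e1, e2, hey0, pow_zero, one_mul, Phi_99, map_zero, sub_zero]
          exact (inv_mul_cancel₀ hc0).symm
        · have h5 := hzs (⟨τ, hτ⟩, ⟨β, h3⟩) h0
          refine ⟨⟨z (⟨τ, hτ⟩, ⟨β, h3⟩), hzΩ _ h0⟩, ?_⟩
          show z (⟨τ, hτ⟩, ⟨β, h3⟩) = _
          rw [h5]
      · refine ⟨0, ?_⟩
        rw [map_zero, (hF τ hτ).coeff_eq_zero h3, (Phi_hom i1 i2 τ).coeff_eq_zero h3, map_zero,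
          mul_zero, sub_zero, mul_zero]
    obtain ⟨G, hG⟩ := this
    exact ⟨G, fun _ => hG⟩
  choose G hG using hGex
  refine ⟨c, hc0, Ω, G, hΩ, hcΩ, halg, ?_, ?_⟩
  · intro τ hτ β hβ
    by_contra h3
    apply hβ
    have h5 : β.degree ≠ 2 := by
      intro h
      apply h3
      rw [← h, Finsupp.degree_eq_weight_one]
      rfl
    have h4 : (algebraMap Ω ℂ) (coeff β (G τ)) = 0 := by
      rw [← coeff_map, hG τ hτ, coeff_C_mul, coeff_sub, coeff_map, coeff_Fsc,
        (hF τ hτ).coeff_eq_zero h5, (Phi_hom i1 i2 τ).coeff_eq_zero h5, map_zero, mul_zero,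
        sub_zero, mul_zero]
    exact (map_eq_zero _).1 h4
  · intro τ hτ
    rw [hG τ hτ, ← mul_assoc, ← C_mul, mul_inv_cancel₀ hc0, C_1, one_mul]
    ring

end

end Pool.Agent.H900.GM
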