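import Pool.Agent.H900.GM.Sy
import Pool.Agent.H900.PN.Lg

/-! # The theorem over function fields -/

set_option autoImplicit false
set_option linter.unusedSectionVars false
set_option linter.unusedVariables false

namespace Pool.Agent.H900.GM

open FF Module Pool.Agent.Helper93K9.PAR Pool.Agent.H900.PN

noncomputable section

/-- the points `u` and `u'` are joined by a rational curve with the property `S` -/
def Lks {E : Type} [Field E] {r : ℕ} (S : (Fin r → Polynomial E) → Prop)
    (u u' : Fin r → E) : Prop :=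
  ∃ (d : ℕ) (C : Fin r → Polynomial E), (∀ i, (C i).natDegree ≤ d) ∧ S C ∧
    (∃ a : E, a ≠ 0 ∧ ∀ i, (C i).coeff 0 = a * u i) ∧
    ∃ b : E, b ≠ 0 ∧ ∀ i, (C i).coeff d = b * u' i

/-- the coordinates `p04, p14, p02, p23` divided by `p24` -/
def xv {E : Type} [Field E] (g : Fin 10 → E) : Fin 4 → E :=
  ![g 3 / g 8, g 6 / g 8, g 1 / g 8, g 7 / g 8]

/-- the parameters -/
def UU {E : Type} [Field E] {s m : ℕ} (t : Fin s → E) (g : Fin 10 → E) (R : Fin m → E) :
    Fin (s + (4 + m)) → E :=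
  uu t (xv g) R ∘ eqv s 4 m

section core

variable {Ω K E : Type} [Field Ω] [IsAlgClosed Ω] [CharZero Ω] [Field K] [Field E] [Algebra Ω K]
    [Algebra K E] [Algebra Ω E] [IsScalarTower Ω K E] [IsFF Ω K]

/-- **The theorem over function fields.** -/
theorem core {s m : ℕ} {i1 i2 : Fin s} (h12 : i1 ≠ i2) {T : Finset (Finset (Fin s))}
    (hT0 : ∅ ∈ T) (hT1 : {i1} ∈ T) (hT2 : {i2} ∈ T)
    {G : Finset (Fin s) → MvPolynomial (Fin 10) Ω}
    (hG : ∀ τ ∈ T, (G τ).IsHomogeneous 2) {c : K} (hc : Transcendental Ω c) (t : Fin s → E)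
    (g : Fin 10 → E) (R : Fin m → E)
    (hg : Sat T t (Phi Ω i1 i2) G (algebraMap K E c) g) (hg8 : g 8 ≠ 0)
    (hi : AlgebraicIndependent K (UU t g R)) (h4 : ¬ 4 ∣ finrank (Kc K (UU t g R)) E)
    (l : Fin 10 → E)
    (hl : ∀ i j, ¬ AlgebraicIndependent K (Fin.cons (l i / l j) t : Fin (s + 1) → E)) :
    ¬ Relation.ReflTransGen (fun a b : Fin 10 → E => a ≠ 0 ∧ b ≠ 0 ∧
      Lks (Sat T (fun i => Polynomial.C (t i)) (Phi Ω i1 i2) G
        (Polynomial.C (algebraMap K E c))) a b) g l := by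
  classical
  intro hch
  obtain ⟨SP, hSP, -, hSP3⟩ := FF.zeros (k := Ω) (K := K) hc
  have hfd : FiniteDimensional (IntermediateField.adjoin Ω {c}) K := IsFF.finite hc
  have hpos : 0 < finrank (IntermediateField.adjoin Ω {c}) K := finrank_pos
  have hne : SP.Nonempty := by
    rw [Finset.nonempty_iff_ne_empty]
    rintro rfl
    rw [Finset.sum_empty] at hSP3
    omega
  obtain ⟨P, hP⟩ := hne
  have hPc : 0 < P.ord c := (hSP P).1 hP
  obtain ⟨ϖ, h0, h1⟩ := P.surj
  have hc0 : c ≠ 0 := by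
    rintro rfl
    rw [P.ord_zero] at hPc
    exact lt_irrefl _ hPc
  have hfin : FiniteDimensional (Kc K (UU t g R)) E := by
    apply FiniteDimensional.of_finrank_pos
    apply Nat.pos_of_ne_zero
    intro h
    rw [h] at h4
    exact h4 (dvd_zero 4)
  obtain ⟨S, hS, hsum⟩ := Pool.Agent.R845.E3.gfi Ω K E _ P ϖ (UU t g R) h0 h1 hi hfin
  obtain ⟨w, hwS, hw4⟩ : ∃ w ∈ S, ¬ 4 ∣ finrank (Subfield.closure
      ({c : w.RF | ∃ a : K, P.Reg a ∧ w.red (algebraMap K E a) = c} ∪
          Set.range fun j => w.red (UU t g R j))) w.RF := by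
    by_contra hcon
    push Not at hcon
    have h2 := Finset.dvd_sum (a := 4) (s := S)
      (f := fun w : Place Ω E => (w.ord (algebraMap K E ϖ)).toNat *
        finrank (Subfield.closure ({c : w.RF | ∃ a : K, P.Reg a ∧ w.red (algebraMap K E a) = c} ∪
          Set.range fun j => w.red (UU t g R j))) w.RF) fun w hw =>
      Dvd.dvd.mul_left (hcon w hw) _
    rw [hsum] at h2
    exact h4 h2
  obtain ⟨hwr, hww, hUr, hUg⟩ := (hS w).1 hwS
  have hwc : 0 < w.ord (algebraMap K E c) := ResL.ord_pos P w h0 h1 hwr hww hc0 hPc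
  obtain ⟨r1, r2⟩ := res Ω K E P w ϖ h0 h1 hwr hww
  have hind := (r2 _ (UU t g R) hUr).1.2 hUg
  rw [r1] at hw4
  -- regularity
  have hUe : ∀ v, UU t g R ((eqv s 4 m).symm v) = uu t (xv g) R v := by
    intro v
    unfold UU
    rw [Function.comp_apply, Equiv.apply_symm_apply]
  have hur : ∀ v, w.Reg (uu t (xv g) R v) := fun v => by
    rw [← hUe]
    exact hUr _
  have ht : ∀ i, w.Reg (t i) := fun i => hur (Sum.inl i)
  have hx : ∀ j : Fin 4, w.Reg (xv g j) := fun j => hur (Sum.inr (Sum.inl j))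
  set tb : Fin s → w.RF := fun i => w.red (t i) with htb
  set xb : Fin 4 → w.RF := fun j => w.red (xv g j) with hxb
  set Rb : Fin m → w.RF := fun l => w.red (R l) with hRb
  have hub : (fun v => w.red (uu t (xv g) R v)) = uu tb xb Rb := by
    funext v
    rcases v with i | j | l
    · rfl
    · rfl
    · rfl
  have hUb : (fun j => w.red (UU t g R j)) = uu tb xb Rb ∘ eqv s 4 m := by
    rw [← hub]
    rfl
  rw [hUb, algebraicIndependent_equiv] at hind
  have hran : Set.range (fun j => w.red (UU t g R j)) = Set.range (uu tb xb Rb) := by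
    rw [hUb]
    exact (eqv s 4 m).surjective.range_comp _
  have h4b : ¬ 4 ∣ finrank (IntermediateField.adjoin Ω (Set.range (uu tb xb Rb))) w.RF := by
    rw [← hran]
    exact hw4
  have hcr : w.Reg (algebraMap K E c) := Or.inr hwc.le
  have hcz : w.red (algebraMap K E c) = 0 := (w.red_eq_zero_iff hcr).2 (Or.inr hwc)
  -- the relations
  set cE : E := algebraMap K E c with hcE
  obtain ⟨q1, q2, q3, q4, q5⟩ := (plP_iff _).1 hg.1
  have q9 := hg.2.1
  have x0 : w.Reg (g 3 / g 8) := hx 0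
  have x1 : w.Reg (g 6 / g 8) := hx 1
  have x2 : w.Reg (g 1 / g 8) := hx 2
  have x3 : w.Reg (g 7 / g 8) := hx 3
  have k9 : g 9 / g 8 = -(cE * (g 1 / g 8)) := by
    field_simp
    linear_combination q9
  have k5 : g 5 / g 8 = -(cE * (g 1 / g 8)) * (g 4 / g 8) + g 6 / g 8 * (g 7 / g 8) := by
    field_simp
    linear_combination g 4 * q9 - q1
  have k2 : g 2 / g 8 = -(cE * (g 1 / g 8)) * (g 1 / g 8) + g 3 / g 8 * (g 7 / g 8) := by
    field_simp
    linear_combination g 1 * q9 - q2
  have k0 : g 0 / g 8 = g 1 / g 8 * (g 6 / g 8) - g 3 / g 8 * (g 4 / g 8) := by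
    field_simp
    linear_combination q4
  have hredeq : ∀ a : E, a ≠ 0 → (∀ i, w.Reg (g i / a)) →
      Sp (tb i1) (tb i2) (fun i => w.red (g i / a)) := by
    intro a ha hr
    have e1 := hg.smul (fun τ _ => Phi_hom i1 i2 τ) hG a⁻¹
    have e2 : (fun i => a⁻¹ * g i) = fun i => g i / a := by
      funext i
      rw [div_eq_inv_mul]
    rw [e2] at e1
    exact e1.red w hT0 hT1 hT2 ht hcr hcz hr
  have rneg : ∀ {f : E}, w.Reg f → w.Reg (-f) ∧ w.red (-f) = -w.red f := by
    intro f hf
    have h5 : w.Reg (-1 : E) := by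
      have := w.reg_const (-1 : Ω)
      rwa [map_neg, map_one] at this
    have h6 : w.red (-1 : E) = -1 := by
      have h7 := w.red_add w.reg_one h5
      rw [add_neg_cancel, w.red_zero, w.red_one] at h7
      linear_combination -h7
    have h8 := w.red_mul h5 hf
    rw [h6] at h8
    rw [neg_one_mul, neg_one_mul] at h8
    refine ⟨?_, h8⟩
    have h9 := w.reg_mul h5 hf
    rwa [neg_one_mul] at h9
  -- the coordinate `p12` is regular
  have hlast : w.Reg (g 4 / g 8) := by
    by_contra hT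
    have hT0' : g 4 / g 8 ≠ 0 := fun h => hT (Or.inl h)
    have hT1' : w.ord (g 4 / g 8) < 0 := by
      by_contra h
      exact hT (Or.inr (not_lt.1 h))
    have hl0 : g 4 ≠ 0 := by
      intro h
      rw [h, zero_div] at hT0'
      exact hT0' rfl
    have hsm : ∀ f : E, w.Reg f → w.Reg (f / (g 4 / g 8)) ∧
        w.red (f / (g 4 / g 8)) = 0 := by
      intro f hf
      by_cases hf0 : f = 0
      · rw [hf0, zero_div]
        exact ⟨w.reg_zero, w.red_zero⟩
      · have h1 := (w.reg_iff hf0).1 hf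
        have h2 : 0 < w.ord (f / (g 4 / g 8)) := by
          rw [w.ord_div hf0 hT0']
          omega
        have h3 : w.Reg (f / (g 4 / g 8)) := Or.inr h2.le
        exact ⟨h3, (w.red_eq_zero_iff h3).2 (Or.inr h2)⟩
    have hq : ∀ i, g i / g 4 = (g i / g 8) / (g 4 / g 8) := by
      intro i
      rw [div_div_div_cancel_right₀ hg8]
    have m3 : w.Reg (g 3 / g 4) ∧ w.red (g 3 / g 4) = 0 := by rw [hq]; exact hsm _ x0
    have m6 : w.Reg (g 6 / g 4) ∧ w.red (g 6 / g 4) = 0 := by rw [hq]; exact hsm _ x1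
    have m1 : w.Reg (g 1 / g 4) ∧ w.red (g 1 / g 4) = 0 := by rw [hq]; exact hsm _ x2
    have m7 : w.Reg (g 7 / g 4) ∧ w.red (g 7 / g 4) = 0 := by rw [hq]; exact hsm _ x3
    have m8 : w.Reg (g 8 / g 4) ∧ w.red (g 8 / g 4) = 0 := by
      rw [hq, div_self hg8]
      exact hsm _ w.reg_one
    have m9 : w.Reg (g 9 / g 4) ∧ w.red (g 9 / g 4) = 0 := by
      rw [hq]
      refine hsm _ ?_
      rw [k9]
      exact (rneg (w.reg_mul hcr x2)).1
    have m2 : w.Reg (g 2 / g 4) ∧ w.red (g 2 / g 4) = 0 := by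
      rw [hq]
      refine hsm _ ?_
      rw [k2]
      exact w.reg_add (w.reg_mul (rneg (w.reg_mul hcr x2)).1 x2) (w.reg_mul x0 x3)
    have m5 : w.Reg (g 5 / g 4) ∧ w.red (g 5 / g 4) = 0 := by
      have h5 : g 5 / g 4 = -(cE * (g 1 / g 8)) + g 6 / g 8 * (g 7 / g 4) := by
        field_simp
        linear_combination g 4 * q9 - q1
      have h6 := w.reg_mul hcr x2
      have h7 := rneg h6
      have h8 := w.reg_mul x1 m7.1
      rw [h5]
      refine ⟨w.reg_add h7.1 h8, ?_⟩
      rw [w.red_add h7.1 h8, h7.2, w.red_mul hcr x2, hcz, w.red_mul x1 m7.1, m7.2]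
      ring
    have m4 : w.Reg (g 4 / g 4) ∧ w.red (g 4 / g 4) = 1 := by
      rw [div_self hl0]
      exact ⟨w.reg_one, w.red_one⟩
    have m0 : w.Reg (g 0 / g 4) := by
      have h5 : g 0 / g 4 = g 1 / g 4 * (g 6 / g 8) + -(g 3 / g 8) := by
        field_simp
        linear_combination q4
      rw [h5]
      exact w.reg_add (w.reg_mul m1.1 x1) (rneg x0).1
    have h2 := hredeq _ hl0 fun i => by
      fin_cases i
      · exact m0
      · exact m1.1
      · exact m2.1
      · exact m3.1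
      · exact m4.1
      · exact m5.1
      · exact m6.1
      · exact m7.1
      · exact m8.1
      · exact m9.1
    have h3 := h2.2.2.2.2.2.2
    beta_reduce at h3
    rw [m4.2, m2.2, m3.2, m7.2, m8.2, m1.2, m5.2, m6.2] at h3
    norm_num at h3
  set z : w.RF := w.red (g 4 / g 8) with hz
  have h9r := rneg (w.reg_mul hcr x2)
  have hallr : ∀ i, w.Reg (g i / g 8) := by
    intro i
    fin_cases i
    · show w.Reg (g 0 / g 8)
      rw [k0, sub_eq_add_neg]
      exact w.reg_add (w.reg_mul x2 x1) (rneg (w.reg_mul x0 hlast)).1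
    · exact x2
    · show w.Reg (g 2 / g 8)
      rw [k2]
      exact w.reg_add (w.reg_mul h9r.1 x2) (w.reg_mul x0 x3)
    · exact x0
    · exact hlast
    · show w.Reg (g 5 / g 8)
      rw [k5]
      exact w.reg_add (w.reg_mul h9r.1 hlast) (w.reg_mul x1 x3)
    · exact x1
    · exact x3
    · show w.Reg (g 8 / g 8)
      rw [div_self hg8]
      exact w.reg_one
    · show w.Reg (g 9 / g 8)
      rw [k9]
      exact h9r.1
  have hrel : Rel i1 i2 tb xb z := by
    obtain ⟨s1, s2, s3, s4, s5, s6, s7⟩ := hredeq _ hg8 hallr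
    beta_reduce at s1 s2 s3 s4 s5 s6 s7
    have e8 : w.red (g 8 / g 8) = 1 := by rw [div_self hg8, w.red_one]
    rw [s6, e8] at s1 s2
    rw [e8] at s7
    have b0 : xb 0 = w.red (g 3 / g 8) := rfl
    have b1 : xb 1 = w.red (g 6 / g 8) := rfl
    have b2 : xb 2 = w.red (g 1 / g 8) := rfl
    have b3 : xb 3 = w.red (g 7 / g 8) := rfl
    unfold Rel
    rw [b0, b1, b2, b3, hz]
    have e5 : w.red (g 5 / g 8) = w.red (g 6 / g 8) * w.red (g 7 / g 8) := by
      linear_combination -s1
    have e2 : w.red (g 2 / g 8) = w.red (g 3 / g 8) * w.red (g 7 / g 8) := by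
      linear_combination -s2
    rw [e5, e2] at s7
    linear_combination s7
  obtain ⟨e, he⟩ := IsAlgClosed.exists_pow_nat_eq (-1 : Ω) (n := 2) (by norm_num)
  set ε : w.RF := algebraMap Ω w.RF e with hε
  have hε2 : ε ^ 2 = -1 := by
    rw [hε, ← map_pow, he, map_neg, map_one]
  have hbig := an_res (R := Rb) h12 he hind hrel h4b
  have hAni : Ani tb := by
    intro u hu
    exact (hbig u 0 (by rw [hu, pf_zero, mul_zero, add_zero])).1
  have hyV : ¬ Vl tb (xb 3) := by
    rintro ⟨v, hv⟩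
    obtain ⟨o, ho⟩ : Vl tb 1 := vl_one
    have h2 := (hbig (fun S => ε * v S) o (by
      rw [pf_smul, ← hv, ← ho, hε2]
      ring)).2
    rw [h2, pf_zero] at ho
    exact one_ne_zero ho
  have htbi : AlgebraicIndependent Ω tb :=
    hind.comp (Sum.inl : Fin s → Sg s 4 (Fin m)) Sum.inl_injective
  obtain ⟨ϖw, hϖ0, hϖ1⟩ := w.surj
  have hQ : ∀ (v : Fin 10 → w.RF) (a : w.RF), a ≠ 0 →
      (TR tb (fun i => a * v i) ↔ TR tb v) := fun v a ha => TR.smul_iff v ha
  -- the generic point
  have hstart : ∀ μ, Nrm w g μ → ¬ Trd w (TR tb) ϖw g μ := by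
    intro μ hμ
    have hn : Nrm w (fun i => g i / g 8) 0 := by
      refine ⟨fun i => ?_, 8, ?_, ?_⟩
      · rcases hallr i with h | h
        · exact Or.inl h
        · exact Or.inr h
      · beta_reduce
        rw [div_self hg8]
        exact one_ne_zero
      · beta_reduce
        rw [div_self hg8]
        exact w.ord_one
    have h2 := nrm_smul w hn hg8
    have hgg : (fun i => g 8 * (g i / g 8)) = g := by
      funext i
      rw [mul_div_cancel₀ _ hg8]
    rw [hgg] at h2
    rw [nrm_unique w hμ h2]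
    have h3 := trd_smul w hQ hϖ0 hϖ1 hn hg8
    rw [hgg] at h3
    rw [h3]
    rintro ⟨-, -, h5⟩
    beta_reduce at h5
    rw [neg_zero, zpow_zero, mul_one, mul_one, div_self hg8, w.red_one, mul_one] at h5
    exact hyV h5
  -- the chain
  have hchain : g ≠ 0 ∧ l ≠ 0 ∧ ∀ μ, Nrm w l μ → ¬ Trd w (TR tb) ϖw l μ := by
    clear hl
    induction hch with
    | refl =>
      have : g ≠ 0 := fun h => hg8 (congrFun h 8)
      exact ⟨this, this, hstart⟩
    | tail _ h ih =>
      rename_i b l' _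
      obtain ⟨hb0, hl0, d, Cc, hd, hC, ⟨a1, ha1, e1⟩, b1, hb1, e2⟩ := h
      refine ⟨ih.1, hl0, fun μ hμ hTr => ?_⟩
      obtain ⟨ν, hν⟩ := exists_nrm w hb0
      apply ih.2.2 ν hν
      have n1 : Nrm w (fun i => (Cc i).coeff 0) (ν + w.ord a1) := by
        rw [funext e1]
        exact nrm_smul w hν ha1
      have n2 : Nrm w (fun i => (Cc i).coeff d) (μ + w.ord b1) := by
        rw [funext e2]
        exact nrm_smul w hμ hb1
      have z1 : (fun i => (Cc i).coeff 0) ≠ 0 := by
        obtain ⟨-, i, hi, -⟩ := n1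
        exact fun h => hi (congrFun h i)
      have z2 : (fun i => (Cc i).coeff d) ≠ 0 := by
        obtain ⟨-, i, hi, -⟩ := n2
        exact fun h => hi (congrFun h i)
      have key := newton w (Q := TR tb)
        (S := Sat T (fun i => Polynomial.C (t i)) (Phi Ω i1 i2) G (Polynomial.C cE))
        (S0 := Sp (Polynomial.C (tb i1)) (Polynomial.C (tb i2)))
        (fun y a hy => hy.smul (fun τ _ => Phi_hom i1 i2 τ) hG a)
        (fun q e he y z hyz hy => hy.rd w hT0 hT1 hT2 ht hcr hcz hϖ0 hϖ1 he hyz)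
        (fun Cc hCc a b ha ha0 hb hb0 => curve h12 hAni hε2 hCc ha ha0 hb hb0)
        hϖ0 hϖ1 hC hd z1 z2 n1 n2
      rw [funext e1, funext e2, trd_smul w hQ hϖ0 hϖ1 hν ha1,
        trd_smul w hQ hϖ0 hϖ1 hμ hb1] at key
      exact key.2 hTr
  obtain ⟨-, hl0, hend⟩ := hchain
  obtain ⟨μ, hμ⟩ := exists_nrm w hl0
  apply hend μ hμ
  obtain ⟨hμ1, k0', hk0, hk1⟩ := hμ
  have hlr : ∀ i, w.Reg (l i / l k0') := by
    intro i
    by_cases hli : l i = 0
    · rw [hli, zero_div]
      exact w.reg_zero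
    · right
      have := (hμ1 i).resolve_left hli
      rw [w.ord_div hli hk0]
      omega
  have hn : Nrm w (fun i => l i / l k0') 0 := by
    refine ⟨fun i => ?_, k0', ?_, ?_⟩
    · rcases hlr i with h | h
      · exact Or.inl h
      · exact Or.inr h
    · beta_reduce
      rw [div_self hk0]
      exact one_ne_zero
    · beta_reduce
      rw [div_self hk0]
      exact w.ord_one
  have hll : (fun i => l k0' * (l i / l k0')) = l := by
    funext i
    rw [mul_div_cancel₀ _ hk0]
  have h3 := trd_smul w hQ hϖ0 hϖ1 hn hk0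
  rw [hll, hk1, zero_add] at h3
  rw [h3]
  have halg : ∀ i, IsAlgebraic (IntermediateField.adjoin Ω (Set.range tb))
      (w.red (l i / l k0')) := by
    intro i
    refine LF.alg_of_dep htbi fun hcon => hl i k0' ?_
    refine (r2 (s + 1) (Fin.cons (l i / l k0') t) ?_).2 ?_
    · intro j
      refine Fin.cases ?_ (fun j => ?_) j
      · exact hlr i
      · exact ht _
    · have h2 : (fun j => w.red ((Fin.cons (l i / l k0') t : Fin (s + 1) → E) j)) =
          Fin.cons (w.red (l i / l k0')) tb := by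
        funext j
        refine Fin.cases ?_ (fun j => ?_) j
        · rfl
        · rfl
      rw [h2]
      exact hcon
  have hfinal : ∀ i j, Vl tb (w.red (l i / l k0' * ϖw ^ (-(0 : ℤ))) *
      w.red (l j / l k0' * ϖw ^ (-(0 : ℤ)))) := by
    intro i j
    rw [neg_zero, zpow_zero, mul_one, mul_one]
    exact vl_alg htbi hAni hε2 ((halg _).mul (halg _))
  exact ⟨hfinal _ _, hfinal _ _, hfinal _ _⟩

end core

end

end Pool.Agent.H900.GM
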