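import Pool.Agent.H900.GM.Lo
import Pool.Agent.H900.PN.Cv

/-! # Rational curves on the special Gushel-Mukai fourfold -/

set_option autoImplicit false
set_option linter.unusedSectionVars false
set_option linter.unusedVariables false

namespace Pool.Agent.H900.GM

open Polynomial Pool.Agent.H900.PN

noncomputable section

/-- the equations of the special fourfold -/
def Sp {A : Type} [CommRing A] (t1 t2 : A) (y : Fin 10 → A) : Prop :=
  y 4 * y 9 - y 5 * y 8 + y 6 * y 7 = 0 ∧ y 1 * y 9 - y 2 * y 8 + y 3 * y 7 = 0 ∧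
  y 0 * y 9 - y 2 * y 6 + y 3 * y 5 = 0 ∧ y 0 * y 8 - y 1 * y 6 + y 3 * y 4 = 0 ∧
  y 0 * y 7 - y 1 * y 5 + y 2 * y 4 = 0 ∧ y 9 = 0 ∧
  y 4 ^ 2 + y 2 * y 3 + y 7 * y 8 + t1 * (y 1 ^ 2 + y 5 * y 6) + t2 * (y 7 + y 8) ^ 2 = 0

theorem Sp.map {A B : Type} [CommRing A] [CommRing B] (f : A →+* B) {t1 t2 : A} {y : Fin 10 → A}
    (h : Sp t1 t2 y) : Sp (f t1) (f t2) (fun i => f (y i)) := by
  obtain ⟨h1, h2, h3, h4, h5, h6, h7⟩ := h
  refine ⟨?_, ?_, ?_, ?_, ?_, ?_, ?_⟩
  · simpa only [map_add, map_sub, map_mul, map_pow, map_zero] using congrArg f h1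
  · simpa only [map_add, map_sub, map_mul, map_pow, map_zero] using congrArg f h2
  · simpa only [map_add, map_sub, map_mul, map_pow, map_zero] using congrArg f h3
  · simpa only [map_add, map_sub, map_mul, map_pow, map_zero] using congrArg f h4
  · simpa only [map_add, map_sub, map_mul, map_pow, map_zero] using congrArg f h5
  · simpa only [map_add, map_sub, map_mul, map_pow, map_zero] using congrArg f h6
  · simpa only [map_add, map_sub, map_mul, map_pow, map_zero] using congrArg f h7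

theorem Sp.of_map {A B : Type} [CommRing A] [CommRing B] (f : A →+* B)
    (hf : Function.Injective f) {t1 t2 : A} {y : Fin 10 → A}
    (h : Sp (f t1) (f t2) (fun i => f (y i))) : Sp t1 t2 y := by
  obtain ⟨h1, h2, h3, h4, h5, h6, h7⟩ := h
  refine ⟨?_, ?_, ?_, ?_, ?_, ?_, ?_⟩
  · exact hf (by simpa only [map_add, map_sub, map_mul, map_pow, map_zero] using h1)
  · exact hf (by simpa only [map_add, map_sub, map_mul, map_pow, map_zero] using h2)
  · exact hf (by simpa only [map_add, map_sub, map_mul, map_pow, map_zero] using h3)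
  · exact hf (by simpa only [map_add, map_sub, map_mul, map_pow, map_zero] using h4)
  · exact hf (by simpa only [map_add, map_sub, map_mul, map_pow, map_zero] using h5)
  · exact hf (by simpa only [map_add, map_sub, map_mul, map_pow, map_zero] using h6)
  · exact hf (by simpa only [map_add, map_sub, map_mul, map_pow, map_zero] using h7)

theorem Sp.smul {A : Type} [CommRing A] {t1 t2 : A} {y : Fin 10 → A} (h : Sp t1 t2 y) (c : A) :
    Sp t1 t2 (fun i => c * y i) := by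
  obtain ⟨h1, h2, h3, h4, h5, h6, h7⟩ := h
  refine ⟨?_, ?_, ?_, ?_, ?_, ?_, ?_⟩
  · linear_combination c ^ 2 * h1
  · linear_combination c ^ 2 * h2
  · linear_combination c ^ 2 * h3
  · linear_combination c ^ 2 * h4
  · linear_combination c ^ 2 * h5
  · linear_combination c * h6
  · linear_combination c ^ 2 * h7

/-- the class of a point is trivial -/
def TR {ι k : Type} [Fintype ι] [CommRing k] (t : ι → k) (v : Fin 10 → k) : Prop :=
  Vl t (v 2 * v 3) ∧ Vl t (v 5 * v 6) ∧ Vl t (v 7 * v 8)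

theorem TR.smul_iff {ι k : Type} [Fintype ι] [Field k] {t : ι → k} (v : Fin 10 → k) {a : k}
    (ha : a ≠ 0) : TR t (fun i => a * v i) ↔ TR t v := by
  have h : ∀ i j, Vl t ((a * v i) * (a * v j)) ↔ Vl t (v i * v j) := by
    intro i j
    have e1 : (a * v i) * (a * v j) = v i * v j * a ^ 2 := by ring
    rw [e1]
    exact vl_mul_iff (vl_square _) (pow_ne_zero 2 ha)
  unfold TR
  beta_reduce
  rw [h, h, h]

/-- the coordinates `p_(i3)` -/
def w3 {A : Type} (y : Fin 10 → A) : Fin 3 → A := ![y 2, y 5, y 7]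

/-- the coordinates `p_(i4)` -/
def w4 {A : Type} (y : Fin 10 → A) : Fin 3 → A := ![y 3, y 6, y 8]

theorem TR_iff {ι k : Type} [Fintype ι] [CommRing k] {t : ι → k} {v : Fin 10 → k} :
    TR t v ↔ ∀ i, Vl t (w3 v i * w4 v i) := by
  constructor
  · rintro ⟨h1, h2, h3⟩ i
    fin_cases i
    · exact h1
    · exact h2
    · exact h3
  · intro h
    exact ⟨h 0, h 1, h 2⟩

section cv

variable {κ ι : Type} [Field κ] [Fintype ι] {t : ι → κ} {i1 i2 : ι}

/-- the factorization of a matrix of rank one -/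
theorem factor {v3 v4 : Fin 3 → κ[X]} (h3 : v3 ≠ 0) (hp : ∀ i j, v3 i * v4 j = v3 j * v4 i) :
    ∃ (h y4 : κ[X]) (x b : Fin 3 → κ[X]), h ≠ 0 ∧ (∀ i, v3 i = h * x i) ∧
      (∀ i, v4 i = y4 * x i) ∧ ∑ i, b i * x i = 1 := by
  obtain ⟨g, hg⟩ := (IsPrincipalIdealRing.principal (Ideal.span (Set.range v3))).principal
  have h1 : g ∈ Ideal.span (Set.range v3) := by
    rw [hg]
    exact Ideal.mem_span_singleton_self g
  obtain ⟨b, hb⟩ := Ideal.mem_span_range_iff_exists_fun.1 h1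
  have h2 : ∀ i, ∃ x, v3 i = g * x := by
    intro i
    have h4 : v3 i ∈ Ideal.span (Set.range v3) := Ideal.subset_span ⟨i, rfl⟩
    rw [hg] at h4
    exact Ideal.mem_span_singleton.1 h4
  choose x hx using h2
  have hg0 : g ≠ 0 := by
    rintro rfl
    apply h3
    funext i
    rw [hx i, zero_mul]
    rfl
  have hbx : ∑ i, b i * x i = 1 := by
    apply mul_left_cancel₀ hg0
    rw [mul_one, Finset.mul_sum]
    refine Eq.trans (Finset.sum_congr rfl fun i _ => ?_) hb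
    rw [hx i]
    ring
  refine ⟨g, ∑ i, b i * v4 i, x, b, hg0, hx, fun j => ?_, hbx⟩
  have h5 : ∀ i, x i * v4 j = x j * v4 i := by
    intro i
    apply mul_left_cancel₀ hg0
    have := hp i j
    rw [hx i, hx j] at this
    linear_combination this
  have h6 : v4 j = ∑ i, b i * (x i * v4 j) := by
    have h7 : ∑ i, b i * (x i * v4 j) = (∑ i, b i * x i) * v4 j := by
      rw [Finset.sum_mul]
      exact Finset.sum_congr rfl fun i _ => by ring
    rw [h7, hbx, one_mul]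
  rw [h6, Finset.sum_mul]
  refine Finset.sum_congr rfl fun i _ => ?_
  rw [h5 i]
  ring

/-- a parametrization of the special fourfold -/
structure Fac (t : ι → κ) (i1 i2 : ι) (Cc : Fin 10 → κ[X]) where
  y3 : κ[X]
  y4 : κ[X]
  x : Fin 3 → κ[X]
  b : Fin 3 → κ[X]
  h3 : y3 ≠ 0
  e3 : ∀ i, w3 Cc i = y3 * x i
  e4 : ∀ i, w4 Cc i = y4 * x i
  prim : ∑ i, b i * x i = 1
  rel : x 0 * Cc 4 - x 1 * Cc 1 + x 2 * Cc 0 = 0
  quad : Cc 4 ^ 2 + ct t i1 * Cc 1 ^ 2 + ct t i2 * (x 2 * (y3 + y4)) ^ 2 +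
    y3 * y4 * (x 0 ^ 2 + ct t i1 * x 1 ^ 2 + x 2 ^ 2) = 0

theorem exists_fac {Cc : Fin 10 → κ[X]} (hS : Sp (ct t i1) (ct t i2) Cc) (h3 : w3 Cc ≠ 0) :
    Nonempty (Fac t i1 i2 Cc) := by
  obtain ⟨s1, s2, s3, s4, s5, s6, s7⟩ := hS
  rw [s6] at s1 s2 s3
  have e1 : Cc 5 * Cc 8 = Cc 7 * Cc 6 := by linear_combination -s1
  have e2 : Cc 2 * Cc 8 = Cc 7 * Cc 3 := by linear_combination -s2
  have e3 : Cc 2 * Cc 6 = Cc 5 * Cc 3 := by linear_combination -s3
  obtain ⟨y3, y4, x, b, hy3, h3, h4, hb⟩ := factor (v3 := w3 Cc) (v4 := w4 Cc) h3 (by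
    intro i j
    fin_cases i <;> fin_cases j
    · rfl
    · exact e3
    · exact e2
    · exact e3.symm
    · rfl
    · exact e1
    · exact e2.symm
    · exact e1.symm
    · rfl)
  have a2 : Cc 2 = y3 * x 0 := h3 0
  have a5 : Cc 5 = y3 * x 1 := h3 1
  have a7 : Cc 7 = y3 * x 2 := h3 2
  have a3 : Cc 3 = y4 * x 0 := h4 0
  have a6 : Cc 6 = y4 * x 1 := h4 1
  have a8 : Cc 8 = y4 * x 2 := h4 2
  refine ⟨⟨y3, y4, x, b, hy3, h3, h4, hb, ?_, ?_⟩⟩
  · apply mul_left_cancel₀ hy3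
    rw [a7, a5, a2] at s5
    linear_combination s5
  · rw [a2, a3, a5, a6, a7, a8] at s7
    linear_combination s7

theorem Fac.red_x {Cc : Fin 10 → κ[X]} (F : Fac t i1 i2 Cc) {k : Type} [Field k]
    (red : κ[X] →+* k) : red (F.x 0) ≠ 0 ∨ red (F.x 1) ≠ 0 ∨ red (F.x 2) ≠ 0 := by
  by_contra hcon
  push Not at hcon
  obtain ⟨h1, h2, h3⟩ := hcon
  have h4 := congrArg red F.prim
  rw [map_one, Fin.sum_univ_three, map_add, map_add, map_mul, map_mul, map_mul, h1, h2, h3,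
    mul_zero, mul_zero, mul_zero, add_zero, add_zero] at h4
  exact zero_ne_one h4

theorem Fac.ev (h12 : i1 ≠ i2) {e : κ} (he : e ^ 2 = -1) {Cc : Fin 10 → κ[X]}
    (F : Fac t i1 i2 Cc) (h4 : F.y4 ≠ 0) : Ev t (F.y3 * F.y4) := by
  intro π m y hπ hiso hY hy
  have : Fact (Irreducible π) := ⟨hπ⟩
  have hker : ∀ y, AdjoinRoot.mk π y = 0 ↔ π ∣ y := fun y => AdjoinRoot.mk_eq_zero
  have hA' : Ani (fun i => AdjoinRoot.mk π (ct t i)) := by
    intro v hv
    obtain ⟨u, hu⟩ : ∃ u : Finset ι → κ[X], ∀ S, AdjoinRoot.mk π (u S) = v S :=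
      ⟨fun S => (AdjoinRoot.mk_surjective (v S)).choose,
        fun S => (AdjoinRoot.mk_surjective (v S)).choose_spec⟩
    rw [← funext hu, ← pf_map (AdjoinRoot.mk π), hker] at hv
    funext S
    rw [← hu S, Pi.zero_apply, hker]
    by_contra hS
    exact hiso ⟨u, hv, S, hS⟩
  have he' : (AdjoinRoot.mk π (C e)) ^ 2 = -1 := by
    rw [← map_pow, ← map_pow, he, map_neg, map_neg, map_one, map_one]
  obtain ⟨a, y3, ha, hy3⟩ := exists_div hπ F.h3
  obtain ⟨b, y4, hb, hy4⟩ := exists_div hπ h4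
  have hy3' : AdjoinRoot.mk π y3 ≠ 0 := fun h => hy3 ((hker _).1 h)
  have hy4' : AdjoinRoot.mk π y4 ≠ 0 := fun h => hy4 ((hker _).1 h)
  have hy' : AdjoinRoot.mk π y ≠ 0 := fun h => hy ((hker _).1 h)
  have e1 : π ^ m * y = π ^ (a + b) * (y3 * y4) := by
    rw [← hY, ha, hb]
    ring
  obtain ⟨e2, -⟩ := exp_uniq hπ.ne_zero hker e1 hy' (by
    rw [map_mul]
    exact mul_ne_zero hy3' hy4')
  rw [e2]
  by_cases hab : a = b
  · exact ⟨a, by rw [hab]⟩
  · have hq := F.quad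
    rw [ha, hb] at hq
    exact (gl h12 hπ.ne_zero hker hA' he' hy3' hy4' (F.red_x _) hq hab).1

theorem end1 (h12 : i1 ≠ i2) (hA : Ani t) {e : κ} (he : e ^ 2 = -1) {Cc : Fin 10 → κ[X]}
    (hS : Sp (ct t i1) (ct t i2) Cc) (F : Fac t i1 i2 Cc) (h4 : F.y4 ≠ 0) {a : ℕ}
    {C' : Fin 10 → κ[X]} (hC' : ∀ i, Cc i = X ^ a * C' i)
    (hne : (fun i => constantCoeff (C' i)) ≠ 0) :
    TR t (fun i => constantCoeff (C' i)) ↔ Vl t (F.y3 * F.y4).trailingCoeff := by
  have htt : (fun i => constantCoeff (ct t i)) = t := by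
    funext i
    simp
  have hA' : Ani (fun i => constantCoeff (ct t i)) := by
    rw [htt]
    exact hA
  have hVl : ∀ v, Vl (fun i => constantCoeff (ct t i)) v ↔ Vl t v := by
    intro v
    rw [htt]
  obtain ⟨a3, y3, ha3, hy3⟩ := exists_div irreducible_X F.h3
  obtain ⟨a4, y4, ha4, hy4⟩ := exists_div irreducible_X h4
  have hy3' : constantCoeff y3 ≠ 0 := fun h => hy3 ((ker_X _).1 h)
  have hy4' : constantCoeff y4 ≠ 0 := fun h => hy4 ((ker_X _).1 h)
  have htc : (F.y3 * F.y4).trailingCoeff = constantCoeff y3 * constantCoeff y4 := by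
    rw [← map_mul]
    refine tc_of (a := a3 + a4) ?_ ?_
    · rw [ha3, ha4]
      ring
    · rw [map_mul]
      exact mul_ne_zero hy3' hy4'
  rw [htc, TR_iff]
  have hx := F.red_x constantCoeff
  obtain ⟨k0, hk0⟩ : ∃ k0, constantCoeff (F.x k0) ≠ 0 := by
    rcases hx with h | h | h
    · exact ⟨0, h⟩
    · exact ⟨1, h⟩
    · exact ⟨2, h⟩
  -- the coordinates
  have e3 : ∀ i, X ^ a * w3 C' i = X ^ a3 * (y3 * F.x i) := by
    intro i
    have h1 : X ^ a * w3 C' i = w3 Cc i := by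
      fin_cases i
      · exact (hC' 2).symm
      · exact (hC' 5).symm
      · exact (hC' 7).symm
    rw [h1, F.e3 i, ha3]
    ring
  have e4 : ∀ i, X ^ a * w4 C' i = X ^ a4 * (y4 * F.x i) := by
    intro i
    have h1 : X ^ a * w4 C' i = w4 Cc i := by
      fin_cases i
      · exact (hC' 3).symm
      · exact (hC' 6).symm
      · exact (hC' 8).symm
    rw [h1, F.e4 i, ha4]
    ring
  have hle3 : a ≤ a3 := exp_le X_ne_zero ker_X (e3 k0).symm (by
    rw [map_mul]
    exact mul_ne_zero hy3' hk0)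
  have hle4 : a ≤ a4 := exp_le X_ne_zero ker_X (e4 k0).symm (by
    rw [map_mul]
    exact mul_ne_zero hy4' hk0)
  obtain ⟨d3, rfl⟩ := Nat.exists_eq_add_of_le hle3
  obtain ⟨d4, rfl⟩ := Nat.exists_eq_add_of_le hle4
  have f3 : ∀ i, w3 C' i = X ^ d3 * (y3 * F.x i) := by
    intro i
    apply mul_left_cancel₀ (pow_ne_zero a (X_ne_zero (R := κ)))
    rw [e3 i]
    ring
  have f4 : ∀ i, w4 C' i = X ^ d4 * (y4 * F.x i) := by
    intro i
    apply mul_left_cancel₀ (pow_ne_zero a (X_ne_zero (R := κ)))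
    rw [e4 i]
    ring
  have g3 : ∀ i, w3 (fun i => constantCoeff (C' i)) i = constantCoeff (w3 C' i) := by
    intro i
    fin_cases i <;> rfl
  have g4 : ∀ i, w4 (fun i => constantCoeff (C' i)) i = constantCoeff (w4 C' i) := by
    intro i
    fin_cases i <;> rfl
  by_cases hd : d3 = 0 ∧ d4 = 0
  · obtain ⟨h5, h6⟩ := hd
    have h7 : ∀ i, w3 (fun i => constantCoeff (C' i)) i * w4 (fun i => constantCoeff (C' i)) i =
        constantCoeff (F.x i) ^ 2 * (constantCoeff y3 * constantCoeff y4) := by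
      intro i
      rw [g3, g4, f3, f4, h5, h6, pow_zero, one_mul, one_mul, map_mul, map_mul]
      ring
    constructor
    · intro h
      have h8 := h k0
      rw [h7, mul_comm] at h8
      exact vl_of_mul (vl_square _) (pow_ne_zero 2 hk0) h8
    · intro h i
      rw [h7]
      exact vl_sq h _
  have hX0 : constantCoeff (X : κ[X]) = 0 := by simp
  have hz3 : d3 ≠ 0 → ∀ i, w3 (fun i => constantCoeff (C' i)) i = 0 := by
    intro h i
    rw [g3, f3, map_mul, map_pow, hX0, zero_pow h, zero_mul]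
  have hz4 : d4 ≠ 0 → ∀ i, w4 (fun i => constantCoeff (C' i)) i = 0 := by
    intro h i
    rw [g4, f4, map_mul, map_pow, hX0, zero_pow h, zero_mul]
  have hL : ∀ i, Vl t (w3 (fun i => constantCoeff (C' i)) i *
      w4 (fun i => constantCoeff (C' i)) i) := by
    intro i
    by_cases h5 : d3 = 0
    · rw [hz4 (fun h6 => hd ⟨h5, h6⟩) i, mul_zero]
      exact vl_zero
    · rw [hz3 h5 i, zero_mul]
      exact vl_zero
  refine ⟨fun _ => ?_, fun _ => hL⟩
  rw [← hVl]
  by_cases hdd : d3 = d4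
  · subst hdd
    have hd0 : d3 ≠ 0 := fun h => hd ⟨h, h⟩
    have hrel : F.x 0 * C' 4 - F.x 1 * C' 1 + F.x 2 * C' 0 = 0 := by
      apply mul_left_cancel₀ (pow_ne_zero a (X_ne_zero (R := κ)))
      have h5 := F.rel
      rw [hC' 4, hC' 1, hC' 0] at h5
      linear_combination h5
    have hq : C' 4 ^ 2 + ct t i1 * C' 1 ^ 2 + ct t i2 * (F.x 2 * (X ^ d3 * y3 +
        X ^ d3 * y4)) ^ 2 + (X ^ d3 * y3) * (X ^ d3 * y4) *
        (F.x 0 ^ 2 + ct t i1 * F.x 1 ^ 2 + F.x 2 ^ 2) = 0 := by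
      apply mul_left_cancel₀ (pow_ne_zero (2 * a) (X_ne_zero (R := κ)))
      have h5 := F.quad
      rw [hC' 4, hC' 1, ha3, ha4] at h5
      linear_combination h5
    refine gl2 h12 X_ne_zero ker_X hA' (e := e) he (Nat.pos_of_ne_zero hd0) hy3' hy4' hx ?_
      hrel hq
    by_contra hcon
    push Not at hcon
    obtain ⟨c4, c1, c0⟩ := hcon
    apply hne
    have c9 : constantCoeff (C' 9) = 0 := by
      have h5 := hS.2.2.2.2.2.1
      rw [hC' 9] at h5
      rw [(mul_eq_zero.1 h5).resolve_left (pow_ne_zero a X_ne_zero), map_zero]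
    have c3 := hz3 hd0
    have c4' := hz4 hd0
    funext i
    fin_cases i
    · exact c0
    · exact c1
    · exact c3 0
    · exact c4' 0
    · exact c4
    · exact c3 1
    · exact c4' 1
    · exact c3 2
    · exact c4' 2
    · exact c9
  · have hq := F.quad
    rw [ha3, ha4] at hq
    exact (gl h12 X_ne_zero ker_X hA' (e := e) he hy3' hy4' hx hq (by omega)).2

theorem tc_sq {x P : κ[X]} (hx : x ≠ 0) (hP : P ≠ 0) :
    Vl t (x ^ 2 * P).trailingCoeff ↔ Vl t P.trailingCoeff := by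
  rw [trailingCoeff_mul, pow_two, trailingCoeff_mul, ← pow_two, mul_comm]
  exact vl_mul_iff (vl_square _) (pow_ne_zero 2 (trailingCoeff_nonzero_iff_nonzero.2 hx))

theorem end2 (h12 : i1 ≠ i2) (hA : Ani t) {e : κ} (he : e ^ 2 = -1) {Cc : Fin 10 → κ[X]}
    (hS : Sp (ct t i1) (ct t i2) Cc) {j : Fin 3} (h3 : w3 Cc j ≠ 0) (h4 : w4 Cc j ≠ 0) {a : ℕ}
    (ha : ∀ i l, l < a → (Cc i).coeff l = 0) (ha0 : (fun i => (Cc i).coeff a) ≠ 0) :
    TR t (fun i => (Cc i).coeff a) ↔ Vl t (w3 Cc j * w4 Cc j).trailingCoeff := by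
  obtain ⟨F⟩ := exists_fac hS (fun h => h3 (congrFun h j))
  have hx : F.x j ≠ 0 := by
    intro h
    apply h3
    rw [F.e3 j, h, mul_zero]
  have hy4 : F.y4 ≠ 0 := by
    intro h
    apply h4
    rw [F.e4 j, h, zero_mul]
  have h2 : ∀ i, ∃ C', Cc i = X ^ a * C' := fun i => X_pow_dvd_iff.2 fun l hl => ha i l hl
  choose C' hC' using h2
  have hcoe : (fun i => (Cc i).coeff a) = fun i => constantCoeff (C' i) := by
    funext i
    have h4 := coeff_X_pow_mul (C' i) a 0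
    rw [zero_add] at h4
    rw [hC' i, h4]
    rfl
  rw [hcoe] at ha0 ⊢
  rw [end1 h12 hA he hS F hy4 hC' ha0, F.e3 j, F.e4 j]
  have h5 : F.y3 * F.x j * (F.y4 * F.x j) = F.x j ^ 2 * (F.y3 * F.y4) := by ring
  rw [h5, tc_sq hx (mul_ne_zero F.h3 hy4)]

theorem ev2 (h12 : i1 ≠ i2) {e : κ} (he : e ^ 2 = -1) {Cc : Fin 10 → κ[X]}
    (hS : Sp (ct t i1) (ct t i2) Cc) {j : Fin 3} (h3 : w3 Cc j ≠ 0) (h4 : w4 Cc j ≠ 0) :
    Ev t (w3 Cc j * w4 Cc j) := by
  obtain ⟨F⟩ := exists_fac hS (fun h => h3 (congrFun h j))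
  have hx : F.x j ≠ 0 := by
    intro h
    apply h3
    rw [F.e3 j, h, mul_zero]
  have hy4 : F.y4 ≠ 0 := by
    intro h
    apply h4
    rw [F.e4 j, h, zero_mul]
  intro π m y hπ hiso hY hy
  obtain ⟨a, x', ha, hx'⟩ := exists_div hπ hx
  obtain ⟨b, z, hb, hz⟩ := exists_div hπ (mul_ne_zero F.h3 hy4)
  have hev := F.ev h12 he hy4 π b z hπ hiso hb hz
  have e1 : π ^ m * y = π ^ (2 * a + b) * (x' ^ 2 * z) := by
    rw [← hY, F.e3 j, F.e4 j]
    have h5 : F.y3 * F.x j * (F.y4 * F.x j) = F.x j ^ 2 * (F.y3 * F.y4) := by ring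
    rw [h5, hb, ha]
    ring
  have : Fact (Irreducible π) := ⟨hπ⟩
  have hker : ∀ y, AdjoinRoot.mk π y = 0 ↔ π ∣ y := fun y => AdjoinRoot.mk_eq_zero
  obtain ⟨e2, -⟩ := exp_uniq hπ.ne_zero hker e1 (fun h => hy ((hker _).1 h)) (by
    rw [map_mul, map_pow]
    exact mul_ne_zero (pow_ne_zero 2 fun h => hx' ((hker _).1 h)) fun h => hz ((hker _).1 h))
  rw [e2]
  exact (even_two_mul a).add hev

theorem sp_reflect {Cc : Fin 10 → κ[X]} (hS : Sp (ct t i1) (ct t i2) Cc) {b : ℕ}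
    (hb : ∀ i, (Cc i).natDegree ≤ b) :
    Sp (ct t i1) (ct t i2) (fun i => reflect b (Cc i)) := by
  apply Sp.of_map (algebraMap κ[X] (FractionRing κ[X])) (IsFractionRing.injective _ _)
  rw [funext fun i => reflect_frac b (Cc i) (hb i)]
  have h1 : ∀ i, algebraMap κ[X] (FractionRing κ[X]) (ct t i) =
      eval₂RingHom ((algebraMap κ[X] (FractionRing κ[X])).comp C)
        (algebraMap κ[X] (FractionRing κ[X]) X)⁻¹ (ct t i) := by
    intro i
    simp [ct]
  rw [h1, h1]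
  exact (hS.map _).smul _

theorem w3_map {A B : Type} (f : A → B) (y : Fin 10 → A) (j : Fin 3) :
    w3 (fun i => f (y i)) j = f (w3 y j) := by
  fin_cases j <;> rfl

theorem w4_map {A B : Type} (f : A → B) (y : Fin 10 → A) (j : Fin 3) :
    w4 (fun i => f (y i)) j = f (w4 y j) := by
  fin_cases j <;> rfl

/-- **The class of a point of the special fourfold is constant along rational curves.** -/
theorem curve (h12 : i1 ≠ i2) (hA : Ani t) {e : κ} (he : e ^ 2 = -1) {Cc : Fin 10 → κ[X]}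
    (hS : Sp (ct t i1) (ct t i2) Cc) {a b : ℕ}
    (ha : ∀ i l, l < a → (Cc i).coeff l = 0) (ha0 : (fun i => (Cc i).coeff a) ≠ 0)
    (hb : ∀ i l, b < l → (Cc i).coeff l = 0) (hb0 : (fun i => (Cc i).coeff b) ≠ 0) :
    TR t (fun i => (Cc i).coeff a) ↔ TR t (fun i => (Cc i).coeff b) := by
  by_cases hj : ∃ j, w3 Cc j ≠ 0 ∧ w4 Cc j ≠ 0
  swap
  · have h1 : ∀ l, TR t (fun i => (Cc i).coeff l) := by
      intro l
      rw [TR_iff]
      intro j
      rw [w3_map (fun f : κ[X] => f.coeff l), w4_map (fun f : κ[X] => f.coeff l)]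
      by_cases h3 : w3 Cc j = 0
      · rw [h3, coeff_zero, zero_mul]
        exact vl_zero
      · have h4 : w4 Cc j = 0 := by
          by_contra h4
          exact hj ⟨j, h3, h4⟩
        rw [h4, coeff_zero, mul_zero]
        exact vl_zero
    exact ⟨fun _ => h1 _, fun _ => h1 _⟩
  obtain ⟨j, h3, h4⟩ := hj
  have hdeg : ∀ i, (Cc i).natDegree ≤ b := fun i =>
    natDegree_le_iff_coeff_eq_zero.2 fun l hl => hb i l hl
  rw [end2 h12 hA he hS h3 h4 ha ha0]
  have hr0 : ∀ f : κ[X], f ≠ 0 → reflect b f ≠ 0 := by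
    intro f hf h
    exact hf ((reflect_eq_zero_iff).1 h)
  have r3 : w3 (fun i => reflect b (Cc i)) j = reflect b (w3 Cc j) := w3_map _ _ _
  have r4 : w4 (fun i => reflect b (Cc i)) j = reflect b (w4 Cc j) := w4_map _ _ _
  have h2 := end2 h12 hA he (sp_reflect hS hdeg) (j := j) (by
      rw [r3]
      exact hr0 _ h3) (by
      rw [r4]
      exact hr0 _ h4) (a := 0) (fun i l hl => absurd hl (Nat.not_lt_zero l)) (by
      intro h
      apply hb0
      funext i
      have h3 := congrFun h i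
      simp only [coeff_reflect, revAt_le (Nat.zero_le b), Nat.sub_zero] at h3
      exact h3)
  simp only [coeff_reflect, revAt_le (Nat.zero_le b), Nat.sub_zero] at h2
  have hd3 : (w3 Cc j).natDegree ≤ b := by
    fin_cases j
    · exact hdeg 2
    · exact hdeg 5
    · exact hdeg 7
  have hd4 : (w4 Cc j).natDegree ≤ b := by
    fin_cases j
    · exact hdeg 3
    · exact hdeg 6
    · exact hdeg 8
  rw [h2, r3, r4, trailingCoeff_mul, trailingCoeff_mul, trail_reflect hd3, trail_reflect hd4]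
  have h5 := norm_principle hA _ (w3 Cc j * w4 Cc j) (mul_ne_zero h3 h4) le_rfl
    (ev2 h12 he hS h3 h4)
  rw [leadingCoeff_mul, trailingCoeff_mul] at h5
  have hl0 := leadingCoeff_ne_zero.2 h3
  have hl1 := leadingCoeff_ne_zero.2 h4
  have ht0 := trailingCoeff_nonzero_iff_nonzero.2 h3
  have ht1 := trailingCoeff_nonzero_iff_nonzero.2 h4
  constructor
  · intro h
    exact vl_of_mul h (mul_ne_zero ht0 ht1) h5
  · intro h
    refine vl_of_mul h (mul_ne_zero hl0 hl1) ?_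
    rw [mul_comm]
    exact h5

end cv

end

end Pool.Agent.H900.GM
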