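import Pool.Agent.H900.GM.Tc
import Pool.Agent.H900.PN.Ir

/-! # Generic points of Gushel-Mukai fourfolds -/

set_option autoImplicit false
set_option linter.unusedSectionVars false
set_option linter.unusedVariables false

namespace Pool.Agent.H900.GM

open MvPolynomial Module Pool.Agent.H900.PN Pool.Agent.H900.LF

noncomputable section

section gen

variable {K M : Type} [Field K] [Field M] [Algebra K M]

theorem expand {r : ℕ} {Q : MvPolynomial (Fin r) K} (hQ : Q.IsHomogeneous 2) (u v : Fin r → M)
    (z : M) : aeval (fun i => u i + z * v i) Q =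
      aeval u Q + z * (aeval (fun i => u i + v i) Q - aeval u Q - aeval v Q) +
        z ^ 2 * aeval v Q := by
  have h1 : Q ∈ homogeneousSubmodule (Fin r) K 2 := (mem_homogeneousSubmodule 2 Q).2 hQ
  rw [← homogeneousSubmodule_one_pow, pow_two] at h1
  have hl : ∀ l ∈ homogeneousSubmodule (Fin r) K 1, ∀ (u v : Fin r → M) (z : M),
      aeval (fun i => u i + z * v i) l = aeval u l + z * aeval v l := by
    intro l hl u v z
    obtain ⟨c, hc⟩ := lin_aeval (A := M) ((mem_homogeneousSubmodule 1 l).1 hl)
    rw [hc, hc, hc, Finset.mul_sum, ← Finset.sum_add_distrib]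
    exact Finset.sum_congr rfl fun i _ => by ring
  refine Submodule.mul_induction_on h1 (fun l hl1 l' hl2 => ?_) fun p q hp hq => ?_
  · have e1 := hl l hl1 u v z
    have e2 := hl l' hl2 u v z
    have e3 := hl l hl1 u v 1
    have e4 := hl l' hl2 u v 1
    simp only [one_mul] at e3 e4
    rw [map_mul, map_mul, map_mul, map_mul, e1, e2, e3, e4]
    ring
  · rw [map_add, map_add, map_add, map_add, hp, hq]
    ring

/-- a relation which is quadratic in a transcendental element -/
theorem tr_quad (F : IntermediateField K M) {r : ℕ} {Q : MvPolynomial (Fin r) K}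
    (hQ : Q.IsHomogeneous 2) {u v : Fin r → M} (hu : ∀ i, u i ∈ F) (hv : ∀ i, v i ∈ F) {z : M}
    (hz : ¬ IsAlgebraic F z) (h : aeval (fun i => u i + z * v i) Q = 0) : aeval v Q = 0 := by
  by_contra hne
  apply hz
  rw [expand hQ] at h
  have hm : ∀ y : Fin r → M, (∀ i, y i ∈ F) → aeval y Q ∈ F := by
    intro y hy
    rw [aeval_def, eval₂_eq]
    exact sum_mem fun α _ => mul_mem (F.algebraMap_mem _) (prod_mem fun i _ => pow_mem (hy i) _)
  set a0 : F := ⟨aeval u Q, hm u hu⟩ with ha0
  set a1 : F := ⟨aeval (fun i => u i + v i) Q - aeval u Q - aeval v Q,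
    sub_mem (sub_mem (hm _ fun i => add_mem (hu i) (hv i)) (hm u hu)) (hm v hv)⟩ with ha1
  set a2 : F := ⟨aeval v Q, hm v hv⟩ with ha2
  refine ⟨Polynomial.C a2 * Polynomial.X ^ 2 + Polynomial.C a1 * Polynomial.X +
    Polynomial.C a0, ?_, ?_⟩
  · intro h0
    have h1 := congrArg (fun P => Polynomial.coeff P 2) h0
    simp only [Polynomial.coeff_add, Polynomial.coeff_C_mul, Polynomial.coeff_X_pow,
      Polynomial.coeff_X, Polynomial.coeff_C, Polynomial.coeff_zero] at h1
    norm_num at h1
    exact hne (congrArg Subtype.val h1)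
  · simp only [map_add, map_mul, map_pow, Polynomial.aeval_X, Polynomial.aeval_C]
    show aeval v Q * z ^ 2 + (aeval (fun i => u i + v i) Q - aeval u Q - aeval v Q) * z +
      aeval u Q = 0
    linear_combination h

variable {m : ℕ} {ι' : Type} {y : ι' → M}

/-- counting -/
theorem gen_indep (hy : AlgebraicIndependent K y)
    (hc : ((4 + m : ℕ) : Cardinal) ≤ Cardinal.mk ι') {g : Fin 10 → M} {R : Fin m → M}
    (halg : ∀ z : M, IsAlgebraic (IntermediateField.adjoin K
      ({z | ∃ i j, z = g i / g j} ∪ Set.range R)) z) {d : M} (hd : d ≠ 0) (b : Fin 4 → M)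
    (hb : ∀ i, IsAlgebraic (IntermediateField.adjoin K (Set.range (Sum.elim b R)))
      (g i / d)) : AlgebraicIndependent K (Sum.elim b R) := by
  refine Pool.Agent.X328.FD.indep_count (y := y) (alg_of_gens _
    ({z | ∃ i j, z = g i / g j} ∪ Set.range R) ?_ halg) hy ?_
  · intro z hz
    rcases hz with ⟨i, j, rfl⟩ | ⟨l, rfl⟩
    · rw [← div_div_div_cancel_right₀ hd, div_eq_mul_inv]
      exact (hb i).mul (hb j).inv
    · exact alg_mem (IntermediateField.subset_adjoin _ _ ⟨Sum.inr l, rfl⟩)
  · refine le_trans (le_of_eq ?_) hc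
    rw [Cardinal.mk_sum]
    simp only [Cardinal.lift_id, Cardinal.mk_fin]
    push_cast
    ring

theorem indep_false {b : Fin 4 → M} {R : Fin m → M}
    (h : AlgebraicIndependent K (Sum.elim b R)) {j : Fin 4} (hj : IsAlgebraic K (b j)) :
    False := h.transcendental (Sum.inl j) hj

/-- the value of a form at a unit vector -/
theorem aev1 {k R : Type} [CommRing k] [CommRing R] [Algebra k R] {r d : ℕ}
    {F : MvPolynomial (Fin r) k} (hF : F.IsHomogeneous d) (l : Fin r) (z : Fin r → R)
    (hl : z l = 1) (hz : ∀ i, i ≠ l → z i = 0) :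
    aeval z F = algebraMap k R (coeff (Finsupp.single l d) F) := by
  classical
  rw [aeval_def, eval₂_eq, Finset.sum_eq_single (Finsupp.single l d)]
  · rw [Finset.prod_eq_one, mul_one]
    intro i _
    by_cases hi : i = l
    · rw [hi, hl, one_pow]
    · rw [Finsupp.single_eq_of_ne hi, pow_zero]
  · intro m hm hml
    obtain ⟨i, hi, hmi⟩ : ∃ i, i ≠ l ∧ m i ≠ 0 := by
      by_contra hcon
      push Not at hcon
      apply hml
      have h1 : m = Finsupp.single l (m l) := by
        ext i
        by_cases hi : i = l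
        · rw [hi, Finsupp.single_eq_same]
        · rw [Finsupp.single_eq_of_ne hi, hcon i hi]
      have h2 := hF (mem_support_iff.1 hm)
      rw [h1, Finsupp.weight_single] at h2
      simp only [Pi.one_apply, smul_eq_mul, mul_one] at h2
      rw [h1, h2]
    rw [Finset.prod_eq_zero (i := i) (Finsupp.mem_support_iff.2 hmi) (by
      rw [hz i hi, zero_pow hmi]), mul_zero]
  · intro h
    rw [notMem_support_iff.1 h, map_zero, zero_mul]

/-- a polynomial relation which is not satisfied by the origin -/
theorem rel_false {b : Fin 4 → M} {R : Fin m → M}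
    (h : AlgebraicIndependent K (Sum.elim b R)) {Q : MvPolynomial (Fin 10) K}
    (hQ : Q.IsHomogeneous 2) (pos : Fin 10 → MvPolynomial (Fin 4) K)
    (hrel : aeval (fun i => aeval b (pos i)) Q = 0) (l : Fin 10)
    (hl1 : aeval (0 : Fin 4 → K) (pos l) = 1)
    (hl2 : ∀ i, i ≠ l → aeval (0 : Fin 4 → K) (pos i) = 0)
    (hco : coeff (Finsupp.single l 2) Q ≠ 0) : False := by
  have hb : AlgebraicIndependent K b := h.comp (Sum.inl : Fin 4 → Fin 4 ⊕ Fin m) Sum.inl_injective
  rw [← comp_aeval_apply] at hrel
  have h1 := (algebraicIndependent_iff.1 hb) _ hrel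
  have h2 : aeval (0 : Fin 4 → K) (aeval pos Q) = 0 := by rw [h1, map_zero]
  rw [comp_aeval_apply, aev1 hQ l _ hl1 hl2] at h2
  exact hco h2

section pt

variable {c : K} (hc0 : c ≠ 0) {Q : MvPolynomial (Fin 10) K} (hQ : Q.IsHomogeneous 2)
  (hco : ∀ l, coeff (Finsupp.single l 2) Q ≠ 0) {g : Fin 10 → M} {R : Fin m → M}
  (hg0 : g ≠ 0) (hpl : ∀ j, aeval g (plP K j) = 0) (hH : g 9 + algebraMap K M c * g 1 = 0)
  (hg : aeval g Q = 0) (hy : AlgebraicIndependent K y)
  (hc : ((4 + m : ℕ) : Cardinal) ≤ Cardinal.mk ι')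
  (halg : ∀ z : M, IsAlgebraic (IntermediateField.adjoin K
      ({z | ∃ i j, z = g i / g j} ∪ Set.range R)) z)

theorem mem_adj {b : Fin 4 → M} {R : Fin m → M} (P : MvPolynomial (Fin 4) K) :
    aeval b P ∈ IntermediateField.adjoin K (Set.range (Sum.elim b R)) := by
  rw [aeval_def, eval₂_eq]
  refine sum_mem fun α _ => mul_mem (IntermediateField.algebraMap_mem _ _)
    (prod_mem fun i _ => pow_mem (IntermediateField.subset_adjoin K
      (Set.range (Sum.elim b R)) ⟨Sum.inl i, rfl⟩) _)

include hQ hco hg hy hc halg in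
theorem case_false {d : M} (hd : d ≠ 0) (b : Fin 4 → M) (pos : Fin 10 → MvPolynomial (Fin 4) K)
    (hpos : ∀ i, aeval b (pos i) = g i / d)
    (h : (∃ j, IsAlgebraic K (b j)) ∨ ∃ l, aeval (0 : Fin 4 → K) (pos l) = 1 ∧
      ∀ i, i ≠ l → aeval (0 : Fin 4 → K) (pos i) = 0) : False := by
  have hi := gen_indep hy hc halg hd b (fun i => by
    rw [← hpos i]
    exact alg_mem (mem_adj _))
  rcases h with ⟨j, hj⟩ | ⟨l, hl1, hl2⟩
  · exact indep_false hi hj
  · refine rel_false hi hQ pos ?_ l hl1 hl2 (hco l)
    rw [funext hpos]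
    have h1 : (fun i => g i / d) = fun i => d⁻¹ * g i := by
      funext i
      rw [div_eq_inv_mul]
    rw [h1, PN.hom_smul hQ, hg, mul_zero]

include hc0 hQ hco hg0 hpl hH hg hy hc halg in
theorem g8_ne : g 8 ≠ 0 := by
  intro h8
  obtain ⟨q1, q2, q3, q4, q5⟩ := (plP_iff _).1 hpl
  set cM : M := algebraMap K M c with hcM
  have hcM0 : cM ≠ 0 := by rwa [hcM, Ne, map_eq_zero]
  have h9 : g 9 = -(cM * g 1) := by linear_combination hH
  rw [h8, h9] at q1 q2
  rw [h9] at q3
  rw [h8] at q4
  by_cases h3 : g 3 = 0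
  swap
  · refine case_false hQ hco hg hy hc halg h3 ![g 1 / g 3, g 6 / g 3, g 0 / g 3, g 2 / g 3]
      ![X 2, X 0, X 3, 1, X 0 * X 1, C c * X 0 * X 2 + X 3 * X 1, X 1, C c * X 0 ^ 2, 0,
        -(C c * X 0)] (fun i => ?_) (Or.inr ⟨3, ?_, fun i hi => ?_⟩)
    · fin_cases i
      · show aeval _ (X 2) = _
        rw [aeval_X]
        rfl
      · show aeval _ (X 0) = _
        rw [aeval_X]
        rfl
      · show aeval _ (X 3) = _
        rw [aeval_X]
        rfl
      · show aeval _ (1 : MvPolynomial (Fin 4) K) = g 3 / g 3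
        rw [map_one, div_self h3]
      · show aeval _ (X 0 * X 1 : MvPolynomial (Fin 4) K) = g 4 / g 3
        rw [map_mul, aeval_X, aeval_X]
        show g 1 / g 3 * (g 6 / g 3) = g 4 / g 3
        field_simp
        linear_combination -q4
      · show aeval _ (C c * X 0 * X 2 + X 3 * X 1 : MvPolynomial (Fin 4) K) = g 5 / g 3
        rw [map_add, map_mul, map_mul, map_mul, aeval_C, aeval_X, aeval_X, aeval_X, aeval_X]
        show cM * (g 1 / g 3) * (g 0 / g 3) + g 2 / g 3 * (g 6 / g 3) = g 5 / g 3
        field_simp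
        linear_combination -q3
      · show aeval _ (X 1) = _
        rw [aeval_X]
        rfl
      · show aeval _ (C c * X 0 ^ 2 : MvPolynomial (Fin 4) K) = g 7 / g 3
        rw [map_mul, map_pow, aeval_C, aeval_X]
        show cM * (g 1 / g 3) ^ 2 = g 7 / g 3
        field_simp
        linear_combination -q2
      · show aeval _ (0 : MvPolynomial (Fin 4) K) = g 8 / g 3
        rw [map_zero, h8, zero_div]
      · show aeval _ (-(C c * X 0) : MvPolynomial (Fin 4) K) = g 9 / g 3
        rw [map_neg, map_mul, aeval_C, aeval_X, h9]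
        show -(cM * (g 1 / g 3)) = -(cM * g 1) / g 3
        ring
    · show aeval _ (1 : MvPolynomial (Fin 4) K) = 1
      rw [map_one]
    · fin_cases i
      · show aeval _ (X 2 : MvPolynomial (Fin 4) K) = 0
        simp
      · show aeval _ (X 0 : MvPolynomial (Fin 4) K) = 0
        simp
      · show aeval _ (X 3 : MvPolynomial (Fin 4) K) = 0
        simp
      · exact absurd rfl hi
      · show aeval _ (X 0 * X 1 : MvPolynomial (Fin 4) K) = 0
        simp
      · show aeval _ (C c * X 0 * X 2 + X 3 * X 1 : MvPolynomial (Fin 4) K) = 0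
        simp
      · show aeval _ (X 1 : MvPolynomial (Fin 4) K) = 0
        simp
      · show aeval _ (C c * X 0 ^ 2 : MvPolynomial (Fin 4) K) = 0
        simp
      · show aeval _ (0 : MvPolynomial (Fin 4) K) = 0
        simp
      · show aeval _ (-(C c * X 0) : MvPolynomial (Fin 4) K) = 0
        simp
  have h1 : g 1 = 0 := by
    have e1 : cM * g 1 ^ 2 = 0 := by
      rw [h3] at q2
      linear_combination -q2
    exact pow_eq_zero_iff (two_ne_zero) |>.1 ((mul_eq_zero.1 e1).resolve_left hcM0)
  rw [h1, mul_zero, neg_zero] at h9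
  have one_alg : IsAlgebraic K (1 : M) := isAlgebraic_one
  by_cases h6 : g 6 = 0
  swap
  · have h7 : g 7 = 0 := by
      rw [h1] at q1
      have e1 : g 6 * g 7 = 0 := by linear_combination q1
      exact (mul_eq_zero.1 e1).resolve_left h6
    have h2 : g 2 = 0 := by
      rw [h1, h3] at q3
      have e1 : g 6 * g 2 = 0 := by linear_combination -q3
      exact (mul_eq_zero.1 e1).resolve_left h6
    refine case_false hQ hco hg hy hc halg h6 ![g 0 / g 6, g 4 / g 6, g 5 / g 6, 1]
      ![X 0, 0, 0, 0, X 1, X 2, 1, 0, 0, 0] (fun i => ?_) (Or.inl ⟨3, one_alg⟩)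
    fin_cases i
    · show aeval _ (X 0) = _
      rw [aeval_X]
      rfl
    · show aeval _ (0 : MvPolynomial (Fin 4) K) = g 1 / g 6
      rw [map_zero, h1, zero_div]
    · show aeval _ (0 : MvPolynomial (Fin 4) K) = g 2 / g 6
      rw [map_zero, h2, zero_div]
    · show aeval _ (0 : MvPolynomial (Fin 4) K) = g 3 / g 6
      rw [map_zero, h3, zero_div]
    · show aeval _ (X 1) = _
      rw [aeval_X]
      rfl
    · show aeval _ (X 2) = _
      rw [aeval_X]
      rfl
    · show aeval _ (1 : MvPolynomial (Fin 4) K) = g 6 / g 6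
      rw [map_one, div_self h6]
    · show aeval _ (0 : MvPolynomial (Fin 4) K) = g 7 / g 6
      rw [map_zero, h7, zero_div]
    · show aeval _ (0 : MvPolynomial (Fin 4) K) = g 8 / g 6
      rw [map_zero, h8, zero_div]
    · show aeval _ (0 : MvPolynomial (Fin 4) K) = g 9 / g 6
      rw [map_zero, h9, zero_div]
  rw [h1] at q5
  by_cases h7 : g 7 = 0
  swap
  · refine case_false hQ hco hg hy hc halg h7 ![g 2 / g 7, g 4 / g 7, g 5 / g 7, 1]
      ![-(X 0 * X 1), 0, X 0, 0, X 1, X 2, 0, 1, 0, 0] (fun i => ?_) (Or.inl ⟨3, one_alg⟩)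
    fin_cases i
    · show aeval _ (-(X 0 * X 1) : MvPolynomial (Fin 4) K) = g 0 / g 7
      rw [map_neg, map_mul, aeval_X, aeval_X]
      show -(g 2 / g 7 * (g 4 / g 7)) = g 0 / g 7
      field_simp
      linear_combination -q5
    · show aeval _ (0 : MvPolynomial (Fin 4) K) = g 1 / g 7
      rw [map_zero, h1, zero_div]
    · show aeval _ (X 0) = _
      rw [aeval_X]
      rfl
    · show aeval _ (0 : MvPolynomial (Fin 4) K) = g 3 / g 7
      rw [map_zero, h3, zero_div]
    · show aeval _ (X 1) = _
      rw [aeval_X]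
      rfl
    · show aeval _ (X 2) = _
      rw [aeval_X]
      rfl
    · show aeval _ (0 : MvPolynomial (Fin 4) K) = g 6 / g 7
      rw [map_zero, h6, zero_div]
    · show aeval _ (1 : MvPolynomial (Fin 4) K) = g 7 / g 7
      rw [map_one, div_self h7]
    · show aeval _ (0 : MvPolynomial (Fin 4) K) = g 8 / g 7
      rw [map_zero, h8, zero_div]
    · show aeval _ (0 : MvPolynomial (Fin 4) K) = g 9 / g 7
      rw [map_zero, h9, zero_div]
  by_cases h2 : g 2 = 0
  swap
  · have h4 : g 4 = 0 := by
      rw [h7] at q5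
      have e1 : g 2 * g 4 = 0 := by linear_combination q5
      exact (mul_eq_zero.1 e1).resolve_left h2
    refine case_false hQ hco hg hy hc halg h2 ![g 0 / g 2, g 5 / g 2, 1, 1]
      ![X 0, 0, 1, 0, 0, X 1, 0, 0, 0, 0] (fun i => ?_) (Or.inl ⟨3, one_alg⟩)
    fin_cases i
    · show aeval _ (X 0) = _
      rw [aeval_X]
      rfl
    · show aeval _ (0 : MvPolynomial (Fin 4) K) = g 1 / g 2
      rw [map_zero, h1, zero_div]
    · show aeval _ (1 : MvPolynomial (Fin 4) K) = g 2 / g 2
      rw [map_one, div_self h2]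
    · show aeval _ (0 : MvPolynomial (Fin 4) K) = g 3 / g 2
      rw [map_zero, h3, zero_div]
    · show aeval _ (0 : MvPolynomial (Fin 4) K) = g 4 / g 2
      rw [map_zero, h4, zero_div]
    · show aeval _ (X 1) = _
      rw [aeval_X]
      rfl
    · show aeval _ (0 : MvPolynomial (Fin 4) K) = g 6 / g 2
      rw [map_zero, h6, zero_div]
    · show aeval _ (0 : MvPolynomial (Fin 4) K) = g 7 / g 2
      rw [map_zero, h7, zero_div]
    · show aeval _ (0 : MvPolynomial (Fin 4) K) = g 8 / g 2
      rw [map_zero, h8, zero_div]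
    · show aeval _ (0 : MvPolynomial (Fin 4) K) = g 9 / g 2
      rw [map_zero, h9, zero_div]
  have key : ∀ d : M, d ≠ 0 → False := by
    intro d hd
    refine case_false hQ hco hg hy hc halg hd ![g 0 / d, g 4 / d, g 5 / d, 1]
      ![X 0, 0, 0, 0, X 1, X 2, 0, 0, 0, 0] (fun i => ?_) (Or.inl ⟨3, one_alg⟩)
    fin_cases i
    · show aeval _ (X 0) = _
      rw [aeval_X]
      rfl
    · show aeval _ (0 : MvPolynomial (Fin 4) K) = g 1 / d
      rw [map_zero, h1, zero_div]
    · show aeval _ (0 : MvPolynomial (Fin 4) K) = g 2 / d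
      rw [map_zero, h2, zero_div]
    · show aeval _ (0 : MvPolynomial (Fin 4) K) = g 3 / d
      rw [map_zero, h3, zero_div]
    · show aeval _ (X 1) = _
      rw [aeval_X]
      rfl
    · show aeval _ (X 2) = _
      rw [aeval_X]
      rfl
    · show aeval _ (0 : MvPolynomial (Fin 4) K) = g 6 / d
      rw [map_zero, h6, zero_div]
    · show aeval _ (0 : MvPolynomial (Fin 4) K) = g 7 / d
      rw [map_zero, h7, zero_div]
    · show aeval _ (0 : MvPolynomial (Fin 4) K) = g 8 / d
      rw [map_zero, h8, zero_div]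
    · show aeval _ (0 : MvPolynomial (Fin 4) K) = g 9 / d
      rw [map_zero, h9, zero_div]
  exact key 1 one_ne_zero

include hc0 hQ hco hg0 hpl hH hg hy hc halg in
/-- the coordinates of a generic point -/
theorem gen_pt (hodd : Odd (finrank (IntermediateField.adjoin K
      ({z | ∃ i j, z = g i / g j} ∪ Set.range R)) M)) :
    g 8 ≠ 0 ∧ AlgebraicIndependent K (Sum.elim (xv g) R) ∧
      ¬ 4 ∣ finrank (IntermediateField.adjoin K (Set.range (Sum.elim (xv g) R))) M := by
  have h8 := g8_ne hc0 hQ hco hg0 hpl hH hg hy hc halg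
  obtain ⟨q1, q2, q3, q4, q5⟩ := (plP_iff _).1 hpl
  set cM : M := algebraMap K M c with hcM
  have h9 : g 9 = -(cM * g 1) := by linear_combination hH
  set e : Fin 10 → M := fun i => g i / g 8 with he
  have e8 : e 8 = 1 := div_self h8
  have e9 : e 9 = -(cM * e 1) := by
    simp only [he]
    rw [h9]
    ring
  have e5 : e 5 = -(cM * e 1 * e 4) + e 6 * e 7 := by
    simp only [he]
    field_simp
    linear_combination g 4 * hH - q1
  have e2 : e 2 = -(cM * e 1 ^ 2) + e 3 * e 7 := by
    simp only [he]
    field_simp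
    linear_combination g 1 * hH - q2
  have e0 : e 0 = e 1 * e 6 - e 3 * e 4 := by
    simp only [he]
    field_simp
    linear_combination q4
  have heQ : aeval e Q = 0 := by
    have h1 : e = fun i => (g 8)⁻¹ * g i := by
      funext i
      exact div_eq_inv_mul _ _
    rw [h1, PN.hom_smul hQ, hg, mul_zero]
  -- all coordinates from `e 1, e 3, e 4, e 6, e 7`
  have hall : ∀ F : IntermediateField K M, IsAlgebraic F (e 1) → IsAlgebraic F (e 3) →
      IsAlgebraic F (e 4) → IsAlgebraic F (e 6) → IsAlgebraic F (e 7) →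
      ∀ i, IsAlgebraic F (g i / g 8) := by
    intro F a1 a3 a4 a6 a7 i
    have ac : IsAlgebraic F cM := alg_mem (F.algebraMap_mem c)
    have aone : IsAlgebraic F (1 : M) := isAlgebraic_one
    show IsAlgebraic F (e i)
    fin_cases i
    · show IsAlgebraic F (e 0)
      rw [e0]
      exact (a1.mul a6).sub (a3.mul a4)
    · exact a1
    · show IsAlgebraic F (e 2)
      rw [e2]
      exact (ac.mul (a1.pow 2)).neg.add (a3.mul a7)
    · exact a3
    · exact a4
    · show IsAlgebraic F (e 5)
      rw [e5]
      exact ((ac.mul a1).mul a4).neg.add (a6.mul a7)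
    · exact a6
    · exact a7
    · show IsAlgebraic F (e 8)
      rw [e8]
      exact aone
    · show IsAlgebraic F (e 9)
      rw [e9]
      exact (ac.mul a1).neg
  have hin : ∀ {b : Fin 4 → M} (j : Fin 4),
      b j ∈ IntermediateField.adjoin K (Set.range (Sum.elim b R)) := fun {b} j =>
    IntermediateField.subset_adjoin K (Set.range (Sum.elim b R)) ⟨Sum.inl j, rfl⟩
  -- the leading coefficient
  set u : Fin 10 → M := ![e 1 * e 6, e 1, -(cM * e 1 ^ 2) + e 3 * e 7, e 3, 0, e 6 * e 7, e 6,
    e 7, 1, -(cM * e 1)] with hu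
  set v : Fin 10 → M := ![-e 3, 0, 0, 0, 1, -(cM * e 1), 0, 0, 0, 0] with hv
  have huv : ∀ i, e i = u i + e 4 * v i := by
    intro i
    fin_cases i
    · show e 0 = e 1 * e 6 + e 4 * (-e 3)
      rw [e0]
      ring
    · show e 1 = e 1 + e 4 * 0
      ring
    · show e 2 = -(cM * e 1 ^ 2) + e 3 * e 7 + e 4 * 0
      rw [e2]
      ring
    · show e 3 = e 3 + e 4 * 0
      ring
    · show e 4 = 0 + e 4 * 1
      ring
    · show e 5 = e 6 * e 7 + e 4 * (-(cM * e 1))
      rw [e5]
      ring
    · show e 6 = e 6 + e 4 * 0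
      ring
    · show e 7 = e 7 + e 4 * 0
      ring
    · show e 8 = 1 + e 4 * 0
      rw [e8]
      ring
    · show e 9 = -(cM * e 1) + e 4 * 0
      rw [e9]
      ring
  have hA : aeval v Q ≠ 0 := by
    intro hvQ
    have dep : ∀ b : Fin 4 → M, b 0 = e 3 → b 1 = e 1 →
        AlgebraicIndependent K (Sum.elim b R) → False := by
      intro b b0 b1 hb
      refine rel_false hb hQ ![-X 0, 0, 0, 0, 1, -(C c * X 1), 0, 0, 0, 0] ?_ 4 ?_
        (fun i hi => ?_) (hco 4)
      · have h1 : (fun i => aeval b ((![-X 0, 0, 0, 0, 1, -(C c * X 1), 0, 0, 0, 0] :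
            Fin 10 → MvPolynomial (Fin 4) K) i)) = v := by
          funext i
          fin_cases i
          · show aeval b (-X 0 : MvPolynomial (Fin 4) K) = -e 3
            rw [map_neg, aeval_X, b0]
          · exact map_zero _
          · exact map_zero _
          · exact map_zero _
          · exact map_one _
          · show aeval b (-(C c * X 1) : MvPolynomial (Fin 4) K) = -(cM * e 1)
            rw [map_neg, map_mul, aeval_C, aeval_X, b1]
          · exact map_zero _
          · exact map_zero _
          · exact map_zero _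
          · exact map_zero _
        rw [h1]
        exact hvQ
      · exact map_one _
      · fin_cases i
        · show aeval _ (-X 0 : MvPolynomial (Fin 4) K) = 0
          simp
        · exact map_zero _
        · exact map_zero _
        · exact map_zero _
        · exact absurd rfl hi
        · show aeval _ (-(C c * X 1) : MvPolynomial (Fin 4) K) = 0
          simp
        · exact map_zero _
        · exact map_zero _
        · exact map_zero _
        · exact map_zero _
    have T7 : ¬ IsAlgebraic (IntermediateField.adjoin K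
        (Set.range (Sum.elim ![e 3, e 1, e 6, e 4] R))) (e 7) := by
      intro h
      refine dep ![e 3, e 1, e 6, e 4] rfl rfl (gen_indep hy hc halg h8 _ ?_)
      exact hall _ (alg_mem (hin 1)) (alg_mem (hin 0)) (alg_mem (hin 3)) (alg_mem (hin 2)) h
    have T6 : ¬ IsAlgebraic (IntermediateField.adjoin K
        (Set.range (Sum.elim ![e 3, e 1, e 7, e 4] R))) (e 6) := by
      intro h
      refine dep ![e 3, e 1, e 7, e 4] rfl rfl (gen_indep hy hc halg h8 _ ?_)
      exact hall _ (alg_mem (hin 1)) (alg_mem (hin 0)) (alg_mem (hin 3)) h (alg_mem (hin 2))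
    set F7 := IntermediateField.adjoin K (Set.range (Sum.elim ![e 3, e 1, e 6, e 4] R)) with hF7
    set F6 := IntermediateField.adjoin K (Set.range (Sum.elim ![e 3, e 1, e 7, e 4] R)) with hF6
    have c7 : cM ∈ F7 := F7.algebraMap_mem c
    have a1 : e 1 ∈ F7 := hin (b := ![e 3, e 1, e 6, e 4]) 1
    have a3 : e 3 ∈ F7 := hin (b := ![e 3, e 1, e 6, e 4]) 0
    have a4 : e 4 ∈ F7 := hin (b := ![e 3, e 1, e 6, e 4]) 3
    have a6 : e 6 ∈ F7 := hin (b := ![e 3, e 1, e 6, e 4]) 2
    have b3 : e 3 ∈ F6 := hin (b := ![e 3, e 1, e 7, e 4]) 0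
    have r1 : aeval (![0, 0, e 3, 0, 0, e 6, 0, 1, 0, 0] : Fin 10 → M) Q = 0 := by
      refine tr_quad F7 hQ (u := ![e 1 * e 6 - e 3 * e 4, e 1, -(cM * e 1 ^ 2), e 3, e 4,
        -(cM * e 1 * e 4), e 6, 0, 1, -(cM * e 1)]) (fun i => ?_) (fun i => ?_) T7 ?_
      · fin_cases i
        · exact sub_mem (mul_mem a1 a6) (mul_mem a3 a4)
        · exact a1
        · exact neg_mem (mul_mem c7 (pow_mem a1 2))
        · exact a3
        · exact a4
        · exact neg_mem (mul_mem (mul_mem c7 a1) a4)
        · exact a6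
        · exact zero_mem _
        · exact one_mem _
        · exact neg_mem (mul_mem c7 a1)
      · fin_cases i
        · exact zero_mem _
        · exact zero_mem _
        · exact a3
        · exact zero_mem _
        · exact zero_mem _
        · exact a6
        · exact zero_mem _
        · exact one_mem _
        · exact zero_mem _
        · exact zero_mem _
      · refine Eq.trans (congrArg (fun y : Fin 10 → M => aeval y Q) (funext fun i => ?_)) heQ
        fin_cases i
        · show e 1 * e 6 - e 3 * e 4 + e 7 * 0 = e 0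
          rw [e0]
          ring
        · show e 1 + e 7 * 0 = e 1
          ring
        · show -(cM * e 1 ^ 2) + e 7 * e 3 = e 2
          rw [e2]
          ring
        · show e 3 + e 7 * 0 = e 3
          ring
        · show e 4 + e 7 * 0 = e 4
          ring
        · show -(cM * e 1 * e 4) + e 7 * e 6 = e 5
          rw [e5]
          ring
        · show e 6 + e 7 * 0 = e 6
          ring
        · show 0 + e 7 * 1 = e 7
          ring
        · show 1 + e 7 * 0 = e 8
          rw [e8]
          ring
        · show -(cM * e 1) + e 7 * 0 = e 9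
          rw [e9]
          ring
    have r2 : aeval (![0, 0, 0, 0, 0, 1, 0, 0, 0, 0] : Fin 10 → M) Q = 0 := by
      refine tr_quad F6 hQ (u := ![0, 0, e 3, 0, 0, 0, 0, 1, 0, 0]) (fun i => ?_)
        (fun i => ?_) T6 ?_
      · fin_cases i
        · exact zero_mem _
        · exact zero_mem _
        · exact b3
        · exact zero_mem _
        · exact zero_mem _
        · exact zero_mem _
        · exact zero_mem _
        · exact one_mem _
        · exact zero_mem _
        · exact zero_mem _
      · fin_cases i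
        · exact zero_mem _
        · exact zero_mem _
        · exact zero_mem _
        · exact zero_mem _
        · exact zero_mem _
        · exact one_mem _
        · exact zero_mem _
        · exact zero_mem _
        · exact zero_mem _
        · exact zero_mem _
      · refine Eq.trans (congrArg (fun y : Fin 10 → M => aeval y Q) (funext fun i => ?_)) r1
        fin_cases i
        · show 0 + e 6 * 0 = (0 : M)
          ring
        · show 0 + e 6 * 0 = (0 : M)
          ring
        · show e 3 + e 6 * 0 = e 3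
          ring
        · show 0 + e 6 * 0 = (0 : M)
          ring
        · show 0 + e 6 * 0 = (0 : M)
          ring
        · show 0 + e 6 * 1 = e 6
          ring
        · show 0 + e 6 * 0 = (0 : M)
          ring
        · show 1 + e 6 * 0 = (1 : M)
          ring
        · show 0 + e 6 * 0 = (0 : M)
          ring
        · show 0 + e 6 * 0 = (0 : M)
          ring
    rw [aev1 hQ 5 _ rfl (fun i hi => by
      fin_cases i
      · rfl
      · rfl
      · rfl
      · rfl
      · rfl
      · exact absurd rfl hi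
      · rfl
      · rfl
      · rfl
      · rfl), map_eq_zero] at r2
    exact hco 5 r2
  -- the last coordinate is a root of a quadratic polynomial
  set F := IntermediateField.adjoin K (Set.range (Sum.elim (xv g) R)) with hF
  have f3 : e 3 ∈ F := hin (b := xv g) 0
  have f6 : e 6 ∈ F := hin (b := xv g) 1
  have f1 : e 1 ∈ F := hin (b := xv g) 2
  have f7 : e 7 ∈ F := hin (b := xv g) 3
  have fc : cM ∈ F := F.algebraMap_mem c
  have fu : ∀ i, u i ∈ F := by
    intro i
    fin_cases i
    · exact mul_mem f1 f6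
    · exact f1
    · exact add_mem (neg_mem (mul_mem fc (pow_mem f1 2))) (mul_mem f3 f7)
    · exact f3
    · exact zero_mem _
    · exact mul_mem f6 f7
    · exact f6
    · exact f7
    · exact one_mem _
    · exact neg_mem (mul_mem fc f1)
  have fv' : ∀ i, v i ∈ F := by
    intro i
    fin_cases i
    · exact neg_mem f3
    · exact zero_mem _
    · exact zero_mem _
    · exact zero_mem _
    · exact one_mem _
    · exact neg_mem (mul_mem fc f1)
    · exact zero_mem _
    · exact zero_mem _
    · exact zero_mem _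
    · exact zero_mem _
  have hm : ∀ y : Fin 10 → M, (∀ i, y i ∈ F) → aeval y Q ∈ F := by
    intro y hy
    rw [aeval_def, eval₂_eq]
    exact sum_mem fun α _ => mul_mem (F.algebraMap_mem _) (prod_mem fun i _ => pow_mem (hy i) _)
  set a0 : F := ⟨aeval u Q, hm u fu⟩ with ha0
  set a1 : F := ⟨aeval (fun i => u i + v i) Q - aeval u Q - aeval v Q,
    sub_mem (sub_mem (hm _ fun i => add_mem (fu i) (fv' i)) (hm u fu)) (hm v fv')⟩ with ha1
  set a2 : F := ⟨aeval v Q, hm v fv'⟩ with ha2
  have ha20 : a2 ≠ 0 := fun h => hA (congrArg Subtype.val h)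
  set P : Polynomial F := Polynomial.C a2 * Polynomial.X ^ 2 + Polynomial.C a1 * Polynomial.X +
    Polynomial.C a0 with hP
  have hPdeg : P.natDegree = 2 := Polynomial.natDegree_quadratic ha20
  have hP0 : P ≠ 0 := by
    intro h
    rw [h, Polynomial.natDegree_zero] at hPdeg
    omega
  have hPe : Polynomial.aeval (e 4) P = 0 := by
    have h1 := expand hQ u v (e 4)
    rw [← funext huv, heQ] at h1
    simp only [hP, map_add, map_mul, map_pow, Polynomial.aeval_X, Polynomial.aeval_C]
    show aeval v Q * e 4 ^ 2 + (aeval (fun i => u i + v i) Q - aeval u Q - aeval v Q) * e 4 +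
      aeval u Q = 0
    linear_combination -h1
  have h4a : IsAlgebraic F (e 4) := ⟨P, hP0, hPe⟩
  refine ⟨h8, gen_indep hy hc halg h8 _ (hall _ (alg_mem f1) (alg_mem f3) h4a (alg_mem f6)
    (alg_mem f7)), ?_⟩
  -- the degree
  set F2 : IntermediateField F M := IntermediateField.adjoin F {e 4} with hF2
  have hres : F2.restrictScalars K = IntermediateField.adjoin K
      ({z | ∃ i j, z = g i / g j} ∪ Set.range R) := by
    rw [hF2, hF, IntermediateField.adjoin_adjoin_left]
    apply le_antisymm
    · rw [IntermediateField.adjoin_le_iff]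
      have hr : ∀ i j, g i / g j ∈ IntermediateField.adjoin K
          ({z | ∃ i j, z = g i / g j} ∪ Set.range R) := fun i j =>
        IntermediateField.subset_adjoin _ _ (Or.inl ⟨i, j, rfl⟩)
      rintro w (⟨w, rfl⟩ | hw)
      · rcases w with j | l
        · fin_cases j
          · exact hr 3 8
          · exact hr 6 8
          · exact hr 1 8
          · exact hr 7 8
        · exact IntermediateField.subset_adjoin _ _ (Or.inr ⟨l, rfl⟩)
      · rw [Set.mem_singleton_iff] at hw
        rw [hw]
        exact hr 4 8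
    · rw [IntermediateField.adjoin_le_iff]
      set F3 := IntermediateField.adjoin K (Set.range (Sum.elim (xv g) R) ∪ {e 4}) with hF3
      have k3 : e 3 ∈ F3 := IntermediateField.subset_adjoin _ _ (Or.inl ⟨Sum.inl 0, rfl⟩)
      have k6 : e 6 ∈ F3 := IntermediateField.subset_adjoin _ _ (Or.inl ⟨Sum.inl 1, rfl⟩)
      have k1 : e 1 ∈ F3 := IntermediateField.subset_adjoin _ _ (Or.inl ⟨Sum.inl 2, rfl⟩)
      have k7 : e 7 ∈ F3 := IntermediateField.subset_adjoin _ _ (Or.inl ⟨Sum.inl 3, rfl⟩)
      have k4 : e 4 ∈ F3 := IntermediateField.subset_adjoin _ _ (Or.inr rfl)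
      have kc : cM ∈ F3 := F3.algebraMap_mem c
      have hk : ∀ i, g i / g 8 ∈ F3 := by
        intro i
        show e i ∈ F3
        fin_cases i
        · show e 0 ∈ F3
          rw [e0]
          exact sub_mem (mul_mem k1 k6) (mul_mem k3 k4)
        · exact k1
        · show e 2 ∈ F3
          rw [e2]
          exact add_mem (neg_mem (mul_mem kc (pow_mem k1 2))) (mul_mem k3 k7)
        · exact k3
        · exact k4
        · show e 5 ∈ F3
          rw [e5]
          exact add_mem (neg_mem (mul_mem (mul_mem kc k1) k4)) (mul_mem k6 k7)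
        · exact k6
        · exact k7
        · show e 8 ∈ F3
          rw [e8]
          exact one_mem _
        · show e 9 ∈ F3
          rw [e9]
          exact neg_mem (mul_mem kc k1)
      rintro w (⟨i, j, rfl⟩ | ⟨l, rfl⟩)
      · rw [← div_div_div_cancel_right₀ h8]
        exact div_mem (hk i) (hk j)
      · exact IntermediateField.subset_adjoin _ _ (Or.inl ⟨Sum.inr l, rfl⟩)
  have hF2o : Odd (finrank F2 M) := by
    have h1 : finrank F2 M = finrank (F2.restrictScalars K) M := rfl
    rw [h1, hres]
    exact hodd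
  have hzz : IsIntegral F (e 4) := h4a.isIntegral
  have hd2 : finrank F F2 ≤ 2 := by
    rw [hF2, IntermediateField.adjoin.finrank hzz]
    have h5 := Polynomial.natDegree_le_of_dvd (minpoly.dvd F (e 4) hPe) hP0
    rwa [hPdeg] at h5
  have hd1 : 0 < finrank F F2 := by
    rw [hF2, IntermediateField.adjoin.finrank hzz]
    exact minpoly.natDegree_pos hzz
  have h5 := finrank_mul_finrank F F2 M
  rw [← h5]
  obtain ⟨k, hk⟩ := hF2o
  intro h6
  have h7 : finrank F F2 = 1 ∨ finrank F F2 = 2 := by omega
  rcases h7 with h7 | h7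
  · rw [h7, hk] at h6
    omega
  · rw [h7, hk] at h6
    omega

end pt

end gen

end

end Pool.Agent.H900.GM
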