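import Pool.Agent.H900.PN.Lc

/-! # The special Gushel-Mukai fourfold over a discrete valuation -/

set_option autoImplicit false
set_option linter.unusedSectionVars false
set_option linter.unusedVariables false

namespace Pool.Agent.H900.GM

open Pool.Agent.H900.PN

noncomputable section

/-- subforms of the Pfister form -/
theorem sub3 {ι A : Type} [Fintype ι] [CommRing A] (t : ι → A) {i1 i2 : ι} (h12 : i1 ≠ i2)
    (x y z : A) : ∃ u, x ^ 2 + t i1 * y ^ 2 + t i2 * z ^ 2 = pf t u ∧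
      (u = 0 → x = 0 ∧ y = 0 ∧ z = 0) := by
  classical
  have n1 : ({i1} : Finset ι) ≠ ∅ := Finset.singleton_ne_empty i1
  have n2 : ({i2} : Finset ι) ≠ ∅ := Finset.singleton_ne_empty i2
  have n3 : ({i2} : Finset ι) ≠ {i1} := by
    intro h
    exact h12 (Finset.singleton_injective h).symm
  refine ⟨fun S => if S = ∅ then x else if S = {i1} then y else if S = {i2} then z else 0,
    ?_, fun h => ⟨?_, ?_, ?_⟩⟩
  · unfold pf
    have h1 : ∀ S : Finset ι, (∏ i ∈ S, t i) * (if S = ∅ then x else if S = {i1} then y else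
        if S = {i2} then z else 0) ^ 2 = (if S = ∅ then x ^ 2 else 0) +
        (if S = {i1} then t i1 * y ^ 2 else 0) + (if S = {i2} then t i2 * z ^ 2 else 0) := by
      intro S
      by_cases h1 : S = ∅
      · subst h1
        rw [if_pos rfl, if_pos rfl, if_neg n1.symm, if_neg n2.symm, Finset.prod_empty]
        ring
      by_cases h2 : S = {i1}
      · subst h2
        rw [if_neg n1, if_neg n1, if_pos rfl, if_pos rfl, if_neg n3.symm,
          Finset.prod_singleton]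
        ring
      by_cases h3 : S = {i2}
      · subst h3
        rw [if_neg n2, if_neg n2, if_neg n3, if_neg n3, if_pos rfl, if_pos rfl,
          Finset.prod_singleton]
        ring
      · rw [if_neg h1, if_neg h1, if_neg h2, if_neg h2, if_neg h3, if_neg h3]
        ring
    rw [Finset.sum_congr rfl fun S _ => h1 S, Finset.sum_add_distrib, Finset.sum_add_distrib]
    simp
  · have h1 := congrFun h ∅
    beta_reduce at h1
    rwa [if_pos rfl] at h1
  · have h1 := congrFun h {i1}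
    beta_reduce at h1
    rwa [if_neg n1, if_pos rfl] at h1
  · have h1 := congrFun h {i2}
    beta_reduce at h1
    rwa [if_neg n2, if_neg n3, if_pos rfl] at h1

section loc

variable {R k : Type} [CommRing R] [IsDomain R] [WfDvdMonoid R] [Field k] {red : R →+* k} {π : R}
variable {ι : Type} [Fintype ι] {t : ι → R} {i1 i2 : ι}

/-- the value of a ternary form -/
theorem val3 (h12 : i1 ≠ i2) (hπ0 : π ≠ 0) (hker : ∀ y, red y = 0 ↔ π ∣ y)
    (hA : Ani fun i => red (t i)) {x y z : R} (h : x ≠ 0 ∨ y ≠ 0 ∨ z ≠ 0) :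
    ∃ (c : ℕ) (x' y' z' : R), x = π ^ c * x' ∧ y = π ^ c * y' ∧ z = π ^ c * z' ∧
      red (x' ^ 2 + t i1 * y' ^ 2 + t i2 * z' ^ 2) ≠ 0 ∧
      Vl (fun i => red (t i)) (red (x' ^ 2 + t i1 * y' ^ 2 + t i2 * z' ^ 2)) := by
  obtain ⟨c, Z, hZ, hZ0⟩ := vdiv hπ0 hker ![x, y, z] (by
    intro h0
    rcases h with h | h | h
    · exact h (congrFun h0 0)
    · exact h (congrFun h0 1)
    · exact h (congrFun h0 2))
  refine ⟨c, Z 0, Z 1, Z 2, hZ 0, hZ 1, hZ 2, ?_⟩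
  obtain ⟨u, hu1, hu2⟩ := sub3 (fun i => red (t i)) h12 (red (Z 0)) (red (Z 1)) (red (Z 2))
  have e1 : red (Z 0 ^ 2 + t i1 * Z 1 ^ 2 + t i2 * Z 2 ^ 2) = pf (fun i => red (t i)) u := by
    rw [← hu1]
    simp only [map_add, map_mul, map_pow]
  rw [e1]
  refine ⟨fun h => ?_, u, rfl⟩
  obtain ⟨h1, h2, h3⟩ := hu2 (hA u h)
  apply hZ0
  funext i
  fin_cases i
  · exact h1
  · exact h2
  · exact h3

theorem gl0 (h12 : i1 ≠ i2) (hπ0 : π ≠ 0) (hker : ∀ y, red y = 0 ↔ π ∣ y)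
    (hA : Ani fun i => red (t i)) {e : k} (he : e ^ 2 = -1) {y3 y4 : R} {a b : ℕ}
    (hy3 : red y3 ≠ 0) (hy4 : red y4 ≠ 0) {x0 x1 x2 n0 n1 w : R}
    (hx : red x0 ≠ 0 ∨ red x1 ≠ 0) (hx2 : red x2 = 0)
    (h : n0 ^ 2 + t i1 * n1 ^ 2 + t i2 * w ^ 2 +
      (π ^ a * y3) * (π ^ b * y4) * (x0 ^ 2 + t i1 * x1 ^ 2 + x2 ^ 2) = 0) :
    Even (a + b) ∧ Vl (fun i => red (t i)) (red y3 * red y4) := by
  have hne : ∀ z : R, red z ≠ 0 → z ≠ 0 := by
    rintro z hz rfl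
    exact hz (map_zero _)
  set D : R := x0 ^ 2 + t i1 * x1 ^ 2 + x2 ^ 2 with hD
  obtain ⟨u, hu1, hu2⟩ := sub3 (fun i => red (t i)) h12 (red x0) (red x1) 0
  have hDr : red D = pf (fun i => red (t i)) u := by
    rw [← hu1, hD]
    simp only [map_add, map_mul, map_pow, hx2]
    ring
  have hD0 : red D ≠ 0 := by
    rw [hDr]
    intro h1
    obtain ⟨h2, h3, -⟩ := hu2 (hA u h1)
    rcases hx with h4 | h4
    · exact h4 h2
    · exact h4 h3
  have hv : n0 ≠ 0 ∨ n1 ≠ 0 ∨ w ≠ 0 := by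
    by_contra hcon
    push Not at hcon
    obtain ⟨h1, h2, h3⟩ := hcon
    rw [h1, h2, h3] at h
    have h4 : (π ^ a * y3) * (π ^ b * y4) * D = 0 := by linear_combination h
    exact (mul_ne_zero (mul_ne_zero (mul_ne_zero (pow_ne_zero _ hπ0) (hne _ hy3))
      (mul_ne_zero (pow_ne_zero _ hπ0) (hne _ hy4))) (hne _ hD0)) h4
  obtain ⟨c, x', y', z', e1, e2, e3, hB0, hBv⟩ := val3 h12 hπ0 hker hA hv
  set B : R := x' ^ 2 + t i1 * y' ^ 2 + t i2 * z' ^ 2 with hB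
  have e4 : π ^ (a + b) * (y3 * y4 * D) = π ^ (2 * c) * (-B) := by
    rw [e1, e2, e3] at h
    rw [hB]
    linear_combination h
  obtain ⟨e5, e6⟩ := exp_uniq hπ0 hker e4 (by
    rw [map_mul, map_mul]
    exact mul_ne_zero (mul_ne_zero hy3 hy4) hD0) (by
    rw [map_neg]
    exact neg_ne_zero.2 hB0)
  refine ⟨⟨c, by omega⟩, ?_⟩
  refine vl_of_mul (w := red D) ⟨u, hDr⟩ hD0 ?_
  have e7 : red y3 * red y4 * red D = -red B := by
    rw [← map_mul, ← map_mul, e6, map_neg]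
  rw [e7]
  exact vl_neg he hBv

/-- **Parity.** -/
theorem gl (h12 : i1 ≠ i2) (hπ0 : π ≠ 0) (hker : ∀ y, red y = 0 ↔ π ∣ y)
    (hA : Ani fun i => red (t i)) {e : k} (he : e ^ 2 = -1) {y3 y4 : R} {a b : ℕ}
    (hy3 : red y3 ≠ 0) (hy4 : red y4 ≠ 0) {x0 x1 x2 n0 n1 : R}
    (hx : red x0 ≠ 0 ∨ red x1 ≠ 0 ∨ red x2 ≠ 0)
    (h : n0 ^ 2 + t i1 * n1 ^ 2 + t i2 * (x2 * (π ^ a * y3 + π ^ b * y4)) ^ 2 +
      (π ^ a * y3) * (π ^ b * y4) * (x0 ^ 2 + t i1 * x1 ^ 2 + x2 ^ 2) = 0) (hab : a ≠ b) :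
    Even (a + b) ∧ Vl (fun i => red (t i)) (red y3 * red y4) := by
  have hπr : red π = 0 := (hker π).2 dvd_rfl
  by_cases hx2 : red x2 = 0
  · exact gl0 h12 hπ0 hker hA he hy3 hy4 (by
      rcases hx with h1 | h1 | h1
      · exact Or.inl h1
      · exact Or.inr h1
      · exact absurd hx2 h1) hx2 h
  exfalso
  obtain ⟨m, s, hs, hsr, hm⟩ : ∃ (m : ℕ) (s : R), π ^ a * y3 + π ^ b * y4 = π ^ m * s ∧
      red s ≠ 0 ∧ 2 * m < a + b := by
    rcases lt_or_gt_of_ne hab with h1 | h1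
    · obtain ⟨d, rfl⟩ := Nat.exists_eq_add_of_lt h1
      refine ⟨a, y3 + π * (π ^ d * y4), by ring, ?_, by omega⟩
      rw [map_add, map_mul, hπr, zero_mul, add_zero]
      exact hy3
    · obtain ⟨d, rfl⟩ := Nat.exists_eq_add_of_lt h1
      refine ⟨b, y4 + π * (π ^ d * y3), by ring, ?_, by omega⟩
      rw [map_add, map_mul, hπr, zero_mul, add_zero]
      exact hy4
  have hw : red (x2 * s) ≠ 0 := by
    rw [map_mul]
    exact mul_ne_zero hx2 hsr
  have hw0 : x2 * (π ^ m * s) ≠ 0 := by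
    intro h1
    have h2 : π ^ m * (x2 * s) = 0 := by linear_combination h1
    have h3 := (mul_eq_zero.1 h2).resolve_left (pow_ne_zero _ hπ0)
    rw [h3, map_zero] at hw
    exact hw rfl
  rw [hs] at h
  obtain ⟨c, x', y', z', e1, e2, e3, hB0, hBv⟩ := val3 h12 hπ0 hker hA
    (x := n0) (y := n1) (z := x2 * (π ^ m * s)) (Or.inr (Or.inr hw0))
  have hcm : c ≤ m := by
    refine exp_le hπ0 hker (x := x2 * s) (y := z') ?_ hw
    rw [← e3]
    ring
  rw [e1, e2, e3] at h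
  have e4 : π ^ (2 * c) * (x' ^ 2 + t i1 * y' ^ 2 + t i2 * z' ^ 2) =
      π ^ (a + b) * (-(y3 * y4 * (x0 ^ 2 + t i1 * x1 ^ 2 + x2 ^ 2))) := by
    linear_combination h
  have := exp_le hπ0 hker e4 hB0
  omega

/-- the end of a curve at a point with `y3 = y4 = 0` -/
theorem gl2 (h12 : i1 ≠ i2) (hπ0 : π ≠ 0) (hker : ∀ y, red y = 0 ↔ π ∣ y)
    (hA : Ani fun i => red (t i)) {e : k} (he : e ^ 2 = -1) {y3 y4 : R} {d : ℕ} (hd : 0 < d)
    (hy3 : red y3 ≠ 0) (hy4 : red y4 ≠ 0) {x0 x1 x2 n0 n1 n2 : R}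
    (hx : red x0 ≠ 0 ∨ red x1 ≠ 0 ∨ red x2 ≠ 0)
    (hn : red n0 ≠ 0 ∨ red n1 ≠ 0 ∨ red n2 ≠ 0) (hrel : x0 * n0 - x1 * n1 + x2 * n2 = 0)
    (h : n0 ^ 2 + t i1 * n1 ^ 2 + t i2 * (x2 * (π ^ d * y3 + π ^ d * y4)) ^ 2 +
      (π ^ d * y3) * (π ^ d * y4) * (x0 ^ 2 + t i1 * x1 ^ 2 + x2 ^ 2) = 0) :
    Vl (fun i => red (t i)) (red y3 * red y4) := by
  have hπr : red π = 0 := (hker π).2 dvd_rfl
  have hπd : red π ^ d = 0 := by rw [hπr, zero_pow hd.ne']
  obtain ⟨u, hu1, hu2⟩ := sub3 (fun i => red (t i)) h12 (red n0) (red n1) 0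
  have h1 : pf (fun i => red (t i)) u = 0 := by
    rw [← hu1]
    have h2 := congrArg red h
    simp only [map_add, map_mul, map_pow, hπd, map_zero] at h2
    linear_combination h2
  obtain ⟨h3, h4, -⟩ := hu2 (hA u h1)
  have h5 : red n2 ≠ 0 := by
    rcases hn with h6 | h6 | h6
    · exact absurd h3 h6
    · exact absurd h4 h6
    · exact h6
  have hx2 : red x2 = 0 := by
    have h6 := congrArg red hrel
    simp only [map_add, map_sub, map_mul, h3, h4, map_zero, mul_zero, sub_zero, zero_add] at h6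
    exact (mul_eq_zero.1 h6).resolve_right h5
  exact (gl0 h12 hπ0 hker hA he hy3 hy4 (by
      rcases hx with h1 | h1 | h1
      · exact Or.inl h1
      · exact Or.inr h1
      · exact absurd hx2 h1) hx2 h).2

end loc

end

end Pool.Agent.H900.GM
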