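import Pool.Agent.H900.GM.Gn

/-! # The main theorem -/

set_option autoImplicit false
set_option linter.unusedSectionVars false
set_option linter.unusedVariables false

namespace Pool.Agent.H900.GM

open MvPolynomial FF Module Pool.Agent.H900.PN Pool.Agent.H900.LF Pool.Agent.Helper93K9.PAR

noncomputable section

section fam

variable {s : ℕ}

/-- the generic member of the family -/
def gfam (T : Finset (Finset (Fin s))) (F : Finset (Fin s) → MvPolynomial (Fin 10) ℂ) :
    MvPolynomial (Fin 10) (Kt s) :=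
  ∑ τ ∈ T, C (∏ i ∈ τ, Pool.Agent.X328.FD.tf s i) * map (algebraMap ℂ (Kt s)) (F τ)

theorem aeval_gfam (T : Finset (Finset (Fin s)))
    (F : Finset (Fin s) → MvPolynomial (Fin 10) ℂ) {A : Type} [CommRing A]
    [Algebra (Kt s) A] [Algebra ℂ A] [IsScalarTower ℂ (Kt s) A] (y : Fin 10 → A) :
    aeval y (gfam T F) =
      fv T (fun i => algebraMap (Kt s) A (Pool.Agent.X328.FD.tf s i)) F y := by
  unfold gfam fv
  rw [map_sum]
  refine Finset.sum_congr rfl fun τ _ => ?_
  rw [map_mul, aeval_C, map_prod, aeval_map_algebraMap]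

theorem gfam_hom {T : Finset (Finset (Fin s))}
    {F : Finset (Fin s) → MvPolynomial (Fin 10) ℂ} (hF : ∀ τ ∈ T, (F τ).IsHomogeneous 2) :
    (gfam T F).IsHomogeneous 2 := by
  unfold gfam
  refine IsHomogeneous.sum _ _ _ fun τ hτ => ?_
  have h := (isHomogeneous_C (Fin 10) (∏ i ∈ τ, Pool.Agent.X328.FD.tf s i)).mul
    ((hF τ hτ).map (algebraMap ℂ (Kt s)))
  rwa [zero_add] at h

theorem gfam_coeff {T : Finset (Finset (Fin s))} (hT0 : ∅ ∈ T)
    {F : Finset (Fin s) → MvPolynomial (Fin 10) ℂ} (β : Fin 10 →₀ ℕ)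
    (h : coeff β (F ∅) ≠ 0) : coeff β (gfam T F) ≠ 0 := by
  classical
  let p : MvPolynomial (Fin s) ℂ := ∑ τ ∈ T, (∏ i ∈ τ, X i) * C (coeff β (F τ))
  have h1 : coeff β (gfam T F) = algebraMap (MvPolynomial (Fin s) ℂ) (Kt s) p := by
    unfold gfam
    rw [coeff_sum, map_sum]
    refine Finset.sum_congr rfl fun τ _ => ?_
    rw [coeff_C_mul, coeff_map, map_mul, map_prod]
    rfl
  rw [h1, Ne, IsFractionRing.to_map_eq_zero_iff]
  intro hp
  have h2 : eval (0 : Fin s → ℂ) p = 0 := by rw [hp, map_zero]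
  have h3 : eval (0 : Fin s → ℂ) p = coeff β (F ∅) := by
    simp only [p, map_sum, map_mul, map_prod, eval_X, eval_C, Pi.zero_apply]
    rw [Finset.sum_eq_single ∅]
    · rw [Finset.prod_empty, one_mul]
    · intro τ _ hτ
      obtain ⟨i, hi⟩ := Finset.nonempty_iff_ne_empty.2 hτ
      rw [Finset.prod_eq_zero hi rfl, zero_mul]
    · intro h
      exact absurd hT0 h
  exact h (h3.symm.trans h2)

end fam

/-- the equations of a Gushel-Mukai fourfold -/
def SatK {k A : Type} [CommRing k] [CommRing A] [Algebra k A] (Q : MvPolynomial (Fin 10) k)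
    (c : k) (y : Fin 10 → A) : Prop :=
  (∀ j, aeval y (plP k j) = 0) ∧ y 9 + algebraMap k A c * y 1 = 0 ∧ aeval y Q = 0

section main

variable {s m : ℕ} {i1 i2 : Fin s} (h12 : i1 ≠ i2) {T : Finset (Finset (Fin s))}
    (hT0 : ∅ ∈ T) (hT1 : {i1} ∈ T) (hT2 : {i2} ∈ T)
    {F : Finset (Fin s) → MvPolynomial (Fin 10) ℂ}

include h12 hT0 hT1 hT2

theorem main_4 {c : ℂ} (hB : HB i1 i2 T F c) {M : Type} [Field M] [Algebra (Kt s) M]
    (g : Fin 10 → M) (R : Fin m → M)
    (hg : SatK (gfam T F) (algebraMap ℂ (Kt s) c) g) (hg8 : g 8 ≠ 0)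
    (hi : AlgebraicIndependent (Kt s) (Sum.elim (xv g) R))
    (h4 : ¬ 4 ∣ finrank (IntermediateField.adjoin (Kt s) (Set.range (Sum.elim (xv g) R))) M)
    (l : Fin 10 → M) (hl : ∀ i, IsAlgebraic (Kt s) (l i)) :
    ¬ Relation.ReflTransGen (fun a b : Fin 10 → M => a ≠ 0 ∧ b ≠ 0 ∧
      Lks (SatK (gfam T F) (algebraMap ℂ (Kt s) c)) a b) g l := by
  classical
  intro hch
  let _ : Algebra ℂ M := ((algebraMap (Kt s) M).comp (algebraMap ℂ (Kt s))).toAlgebra
  have _ : IsScalarTower ℂ (Kt s) M := IsScalarTower.of_algebraMap_eq fun _ => rfl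
  set t : Fin s → M := fun i => algebraMap (Kt s) M (Pool.Agent.X328.FD.tf s i) with ht
  set S : Set M := Set.range (Sum.elim (xv g) R) with hS
  have htop : (IsScalarTower.toAlgHom ℂ (Kt s) M).fieldRange =
      IntermediateField.adjoin ℂ (Set.range t) := by
    have h1 : IntermediateField.adjoin ℂ (Set.range (Pool.Agent.X328.FD.tf s)) = ⊤ :=
      Pool.Agent.X328.FD.tf_top
    rw [AlgHom.fieldRange_eq_map, ← h1, IntermediateField.adjoin_map, ← Set.range_comp]
    rfl
  have hranU : Set.range (UU t g R) = Set.range t ∪ S := by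
    unfold UU
    rw [(eqv s 4 m).surjective.range_comp]
    exact Set.Sum.elim_range _ _
  have hres : (IntermediateField.adjoin (Kt s) S).restrictScalars ℂ = Kc ℂ (UU t g R) := by
    rw [Pool.Agent.X328.FD.res_type, htop, sup_comm, ← IntermediateField.adjoin_union,
      Set.union_comm, ← hranU]
  have h4' : ¬ 4 ∣ finrank (Kc ℂ (UU t g R)) M := by
    rw [← hres]
    exact h4
  have hiU : AlgebraicIndependent ℂ (UU t g R) := by
    unfold UU
    rw [algebraicIndependent_equiv]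
    have h1 := AlgebraicIndependent.sumElim_comp (Pool.Agent.X328.FD.tf_indep (m := s)) hi
    have h2 : uu t (xv g) R =
        (Sum.elim (Sum.elim (xv g) R)
          (algebraMap (Kt s) M ∘ Pool.Agent.X328.FD.tf s)) ∘ Equiv.sumComm _ _ := by
      funext v
      rcases v with v | v
      · rfl
      · rfl
    rw [h2, algebraicIndependent_equiv]
    exact h1
  have halg' : ∀ z : M, IsAlgebraic (Kt s) z → IsAlgebraic
      (IntermediateField.adjoin ℂ (Set.range t)) z := by
    intro z hz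
    rw [← htop]
    let f : Kt s →+* (IsScalarTower.toAlgHom ℂ (Kt s) M).fieldRange :=
      (algebraMap (Kt s) M).codRestrict (IsScalarTower.toAlgHom ℂ (Kt s) M).fieldRange
        fun a => ⟨a, rfl⟩
    obtain ⟨P, hP, hPz⟩ := hz
    refine ⟨P.map f, ?_, ?_⟩
    · rwa [Ne, Polynomial.map_eq_zero]
    · rw [Polynomial.aeval_def, Polynomial.eval₂_map]
      exact hPz
  refine over_B h12 hT0 hT1 hT2 hB t g R ?_ hg8 hiU h4' l
    (fun i j => dep_of_alg (halg' _ ?_)) ?_
  · obtain ⟨g1, g2, g3⟩ := hg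
    refine ⟨(plP_iff _).2 ((plP_iff _).1 g1), g2, ?_⟩
    rw [← g3, aeval_gfam]
  · rw [div_eq_mul_inv]
    exact (hl i).mul (hl j).inv
  · refine Relation.ReflTransGen.mono (fun a b' h => ?_) _ _ hch
    obtain ⟨ha, hb', d, Cc, hd, ⟨g1, g2, g3⟩, e1, e2⟩ := h
    have _ : IsScalarTower ℂ (Kt s) (Polynomial M) := IsScalarTower.of_algebraMap_eq fun _ => rfl
    refine ⟨ha, hb', d, Cc, hd, ⟨(plP_iff _).2 ((plP_iff _).1 g1), g2, ?_⟩, e1, e2⟩
    rw [← g3, aeval_gfam]
    rfl

theorem main_sc {c : ℂ} (hc0 : c ≠ 0) (hB : HB i1 i2 T F c)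
    (hF : ∀ τ ∈ T, (F τ).IsHomogeneous 2) (hco : ∀ l, coeff (Finsupp.single l 2) (F ∅) ≠ 0)
    {M : Type} [Field M] [Algebra (Kt s) M]
    (g : Fin 10 → M) (R : Fin m → M) (hg0 : g ≠ 0)
    (hg : SatK (gfam T F) (algebraMap ℂ (Kt s) c) g) {ι' : Type} {y : ι' → M}
    (hy : AlgebraicIndependent (Kt s) y) (hc : ((4 + m : ℕ) : Cardinal) ≤ Cardinal.mk ι')
    (hodd : Odd (finrank (IntermediateField.adjoin (Kt s)
      ({z | ∃ i j, z = g i / g j} ∪ Set.range R)) M))
    (l : Fin 10 → M) (hl : ∀ i, IsAlgebraic (Kt s) (l i)) :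
    ¬ Relation.ReflTransGen (fun a b : Fin 10 → M => a ≠ 0 ∧ b ≠ 0 ∧
      Lks (SatK (gfam T F) (algebraMap ℂ (Kt s) c)) a b) g l := by
  have hfd : FiniteDimensional (IntermediateField.adjoin (Kt s)
      ({z | ∃ i j, z = g i / g j} ∪ Set.range R)) M := FiniteDimensional.of_finrank_pos hodd.pos
  obtain ⟨g1, g2, g3⟩ := hg
  obtain ⟨h8, hi, h4⟩ := gen_pt (c := algebraMap ℂ (Kt s) c) (by rwa [Ne, map_eq_zero])
    (gfam_hom hF) (fun l => gfam_coeff hT0 _ (hco l)) hg0 g1 g2 g3 hy hc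
    (fun z => Algebra.IsAlgebraic.isAlgebraic z) hodd
  exact main_4 h12 hT0 hT1 hT2 hB g R ⟨g1, g2, g3⟩ h8 hi h4 l hl

/-- **The main theorem for independent coefficients.** -/
theorem main_aux (hF : ∀ τ ∈ T, (F τ).IsHomogeneous 2)
    (hind : AlgebraicIndependent ℚ
      (fun p : T × {β : Fin 10 →₀ ℕ // β.degree = 2} => coeff p.2.1 (F p.1)))
    {M : Type} [Field M] [Algebra (Kt s) M] (g : Fin 10 → M) (R : Fin m → M)
    (hg0 : g ≠ 0) (hg : SatK (gfam T F) 1 g) {ι' : Type} {y : ι' → M}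
    (hy : AlgebraicIndependent (Kt s) y) (hc : ((4 + m : ℕ) : Cardinal) ≤ Cardinal.mk ι')
    (hodd : Odd (finrank (IntermediateField.adjoin (Kt s)
      ({z | ∃ i j, z = g i / g j} ∪ Set.range R)) M))
    (l : Fin 10 → M) (hl : ∀ i, IsAlgebraic (Kt s) (l i)) :
    ¬ Relation.ReflTransGen (fun a b : Fin 10 → M => a ≠ 0 ∧ b ≠ 0 ∧
      Lks (SatK (gfam T F) 1) a b) g l := by
  classical
  intro hch
  obtain ⟨c, hc0, hB⟩ := exists_HB (i1 := i1) (i2 := i2) hT0 hF hind
  have hF' : ∀ τ ∈ T, (Fsc c F τ).IsHomogeneous 2 := by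
    intro τ hτ β hβ
    rw [coeff_Fsc] at hβ
    exact hF τ hτ (right_ne_zero_of_mul hβ)
  have hco : ∀ l, coeff (Finsupp.single l 2) (Fsc c F ∅) ≠ 0 := by
    intro l
    rw [coeff_Fsc]
    exact mul_ne_zero (pow_ne_zero _ hc0) (hind.ne_zero (⟨∅, hT0⟩, ⟨Finsupp.single l 2,
      Finsupp.degree_single _ _⟩))
  let a : Fin 10 → ℂ := fun i => (sc c i)⁻¹
  have hsc0 : ∀ i, sc c i ≠ 0 := by
    intro i
    unfold sc
    split_ifs
    · exact hc0
    · exact one_ne_zero
  let u : Fin 10 → Kt s := fun i => algebraMap ℂ (Kt s) (a i)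
  have hu0 : ∀ i, u i ≠ 0 := fun i => by
    show algebraMap ℂ (Kt s) (a i) ≠ 0
    rw [Ne, map_eq_zero]
    exact inv_ne_zero (hsc0 i)
  have hua : ∀ i, u i = if i.val < 4 then algebraMap ℂ (Kt s) c⁻¹ else 1 := by
    intro i
    show algebraMap ℂ (Kt s) (sc c i)⁻¹ = _
    unfold sc
    split_ifs
    · rfl
    · rw [inv_one, map_one]
  -- the equations in the new coordinates
  have hSat : ∀ {A : Type} [CommRing A] [Algebra (Kt s) A] (y : Fin 10 → A),
      SatK (gfam T F) 1 y → SatK (gfam T (Fsc c F)) (algebraMap ℂ (Kt s) c)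
        (fun i => algebraMap (Kt s) A (u i) * y i) := by
    intro A _ _ y hy
    let _ : Algebra ℂ A := ((algebraMap (Kt s) A).comp (algebraMap ℂ (Kt s))).toAlgebra
    have _ : IsScalarTower ℂ (Kt s) A := IsScalarTower.of_algebraMap_eq fun _ => rfl
    obtain ⟨g1, g2, g3⟩ := hy
    obtain ⟨q1, q2, q3, q4, q5⟩ := (plP_iff _).1 g1
    set v : A := algebraMap (Kt s) A (algebraMap ℂ (Kt s) c⁻¹) with hv
    have hvc : algebraMap (Kt s) A (algebraMap ℂ (Kt s) c) * v = 1 := by
      rw [hv, ← map_mul, ← map_mul, mul_inv_cancel₀ hc0, map_one, map_one]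
    have k0 : algebraMap (Kt s) A (u 0) = v := by rw [hua]; rfl
    have k1 : algebraMap (Kt s) A (u 1) = v := by rw [hua]; rfl
    have k2 : algebraMap (Kt s) A (u 2) = v := by rw [hua]; rfl
    have k3 : algebraMap (Kt s) A (u 3) = v := by rw [hua]; rfl
    have k4 : algebraMap (Kt s) A (u 4) = 1 := by rw [hua, if_neg (by decide), map_one]
    have k5 : algebraMap (Kt s) A (u 5) = 1 := by rw [hua, if_neg (by decide), map_one]
    have k6 : algebraMap (Kt s) A (u 6) = 1 := by rw [hua, if_neg (by decide), map_one]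
    have k7 : algebraMap (Kt s) A (u 7) = 1 := by rw [hua, if_neg (by decide), map_one]
    have k8 : algebraMap (Kt s) A (u 8) = 1 := by rw [hua, if_neg (by decide), map_one]
    have k9 : algebraMap (Kt s) A (u 9) = 1 := by rw [hua, if_neg (by decide), map_one]
    refine ⟨(plP_iff _).2 ⟨?_, ?_, ?_, ?_, ?_⟩, ?_, ?_⟩
    · rw [k4, k5, k6, k7, k8, k9]
      linear_combination q1
    · rw [k1, k2, k3, k7, k8, k9]
      linear_combination v * q2
    · rw [k0, k2, k3, k5, k6, k9]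
      linear_combination v * q3
    · rw [k0, k1, k3, k4, k6, k8]
      linear_combination v * q4
    · rw [k0, k1, k2, k4, k5, k7]
      linear_combination v * q5
    · beta_reduce
      rw [k9, k1]
      rw [map_one] at g2
      linear_combination g2 + y 1 * hvc
    · rw [aeval_gfam] at g3 ⊢
      rw [← g3]
      unfold fv
      refine Finset.sum_congr rfl fun τ _ => ?_
      congr 1
      unfold Fsc
      rw [comp_aeval_apply]
      congr 2
      funext i
      rw [map_mul, aeval_C, aeval_X]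
      show algebraMap ℂ A (sc c i) * (algebraMap ℂ A (sc c i)⁻¹ * y i) = y i
      rw [← mul_assoc, ← map_mul, mul_inv_cancel₀ (hsc0 i), map_one, one_mul]
  have hv0 : ∀ i, algebraMap (Kt s) M (u i) ≠ 0 := fun i => by
    rw [Ne, map_eq_zero]
    exact hu0 i
  let σ : (Fin 10 → M) → Fin 10 → M := fun a i => algebraMap (Kt s) M (u i) * a i
  have hσ0 : ∀ a, a ≠ 0 → σ a ≠ 0 := by
    intro a ha h
    apply ha
    funext i
    have h1 : algebraMap (Kt s) M (u i) * a i = 0 := congrFun h i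
    exact (mul_eq_zero.1 h1).resolve_left (hv0 i)
  have hadj : IntermediateField.adjoin (Kt s) ({z | ∃ i j, z = σ g i / σ g j} ∪ Set.range R) =
      IntermediateField.adjoin (Kt s) ({z | ∃ i j, z = g i / g j} ∪ Set.range R) := by
    apply le_antisymm
    · rw [IntermediateField.adjoin_le_iff]
      rintro _ (⟨i, j, rfl⟩ | ⟨l, rfl⟩)
      · have h1 : σ g i / σ g j = algebraMap (Kt s) M (u i / u j) * (g i / g j) := by
          rw [map_div₀]
          exact mul_div_mul_comm _ _ _ _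
        rw [h1]
        exact mul_mem (IntermediateField.algebraMap_mem _ _)
          (IntermediateField.subset_adjoin _ _ (Or.inl ⟨i, j, rfl⟩))
      · exact IntermediateField.subset_adjoin _ _ (Or.inr ⟨_, rfl⟩)
    · rw [IntermediateField.adjoin_le_iff]
      rintro _ (⟨i, j, rfl⟩ | ⟨l, rfl⟩)
      · have h1 : g i / g j = algebraMap (Kt s) M (u j / u i) * (σ g i / σ g j) := by
          have h2 : σ g i / σ g j = algebraMap (Kt s) M (u i / u j) * (g i / g j) := by
            rw [map_div₀]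
            exact mul_div_mul_comm _ _ _ _
          rw [h2, ← mul_assoc, ← map_mul, div_mul_div_comm, mul_comm (u j), div_self
            (mul_ne_zero (hu0 i) (hu0 j)), map_one, one_mul]
        rw [h1]
        exact mul_mem (IntermediateField.algebraMap_mem _ _)
          (IntermediateField.subset_adjoin _ _ (Or.inl ⟨i, j, rfl⟩))
      · exact IntermediateField.subset_adjoin _ _ (Or.inr ⟨_, rfl⟩)
  refine main_sc h12 hT0 hT1 hT2 hc0 hB hF' hco (σ g) R (hσ0 g hg0) (hSat g hg) hy hc ?_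
    (σ l) ?_ ?_
  · rw [hadj]
    exact hodd
  · intro i
    exact (isAlgebraic_algebraMap _).mul (hl i)
  · refine Relation.ReflTransGen.lift σ (fun a b h => ?_) _ _ hch
    obtain ⟨ha, hb, d, Cc, hd, hC, ⟨e1, he1, h1⟩, e2, he2, h2⟩ := h
    refine ⟨hσ0 a ha, hσ0 b hb, d,
      fun i => algebraMap (Kt s) (Polynomial M) (u i) * Cc i,
      fun i => ?_, hSat Cc hC, ⟨e1, he1, fun i => ?_⟩, e2, he2, fun i => ?_⟩
    · exact (Polynomial.natDegree_C_mul_le _ _).trans (hd i)
    · show (Polynomial.C (algebraMap (Kt s) M (u i)) * Cc i).coeff 0 = _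
      rw [Polynomial.coeff_C_mul, h1]
      show _ = e1 * (algebraMap (Kt s) M (u i) * a i)
      ring
    · show (Polynomial.C (algebraMap (Kt s) M (u i)) * Cc i).coeff d = _
      rw [Polynomial.coeff_C_mul, h2]
      show _ = e2 * (algebraMap (Kt s) M (u i) * b i)
      ring

end main

end

end Pool.Agent.H900.GM
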