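import Pool.Agent.H900.PN.Nw

/-! # The class of a point along a curve over a discretely valued field: systems of equations -/

set_option autoImplicit false
set_option linter.unusedSectionVars false
set_option linter.unusedVariables false

namespace Pool.Agent.H900.GM

open Polynomial FF Pool.Agent.H900.PN

noncomputable section

section nw

variable {Ω E : Type} [Field Ω] [Field E] [Algebra Ω E] (w : Place Ω E) {r : ℕ} {ϖ : E}

/-- the property `Q` holds for the reduction of a point -/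
def Trd (Q : (Fin r → w.RF) → Prop) (ϖ : E) (p : Fin r → E) (m : ℤ) : Prop :=
  Q fun i => w.red (p i * ϖ ^ (-m))

variable {Q : (Fin r → w.RF) → Prop} (hQ : ∀ v a, a ≠ 0 → (Q (fun i => a * v i) ↔ Q v))
  {S : (Fin r → E[X]) → Prop} (hS1 : ∀ y a, S y → S fun i => a * y i)
  {S0 : (Fin r → w.RF[X]) → Prop}
  (hS2 : ∀ q e : ℤ, 0 < e → ∀ y z, (∀ i, Rd w ϖ q e (y i) (z i)) → S y → S0 z)
  (hcv : ∀ Cc, S0 Cc → ∀ a b : ℕ, (∀ i l, l < a → (Cc i).coeff l = 0) →
    (fun i => (Cc i).coeff a) ≠ 0 → (∀ i l, b < l → (Cc i).coeff l = 0) →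
    (fun i => (Cc i).coeff b) ≠ 0 →
    (Q (fun i => (Cc i).coeff a) ↔ Q (fun i => (Cc i).coeff b)))

include hQ in
theorem trd_smul (h0 : ϖ ≠ 0) (h1 : w.ord ϖ = 1) {p : Fin r → E} {m : ℤ} (h : Nrm w p m)
    {a : E} (ha : a ≠ 0) : Trd w Q ϖ (fun i => a * p i) (m + w.ord a) ↔ Trd w Q ϖ p m := by
  have hu : a * ϖ ^ (-w.ord a) ≠ 0 := mul_ne_zero ha (zpow_ne_zero _ h0)
  have hu1 : w.ord (a * ϖ ^ (-w.ord a)) = 0 := by
    rw [w.ord_mul ha (zpow_ne_zero _ h0), w.ord_zpow, h1]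
    ring
  have hur : w.Reg (a * ϖ ^ (-w.ord a)) := Or.inr hu1.ge
  have hε : w.red (a * ϖ ^ (-w.ord a)) ≠ 0 := w.red_ne_zero hu hu1
  have key : ∀ i, w.red (a * p i * ϖ ^ (-(m + w.ord a))) =
      w.red (a * ϖ ^ (-w.ord a)) * w.red (p i * ϖ ^ (-m)) := by
    intro i
    rw [← w.red_mul hur (reg_lv w h0 h1 (h.1 i))]
    congr 1
    rw [neg_add, zpow_add₀ h0]
    ring
  unfold Trd
  rw [funext key]
  exact hQ _ _ hε

include hS1 hS2 hcv in
/-- one side of the Newton polygon -/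
theorem seg (h0 : ϖ ≠ 0) (h1 : w.ord ϖ = 1) {Cc : Fin r → E[X]} (hC : S Cc)
    {m : ℕ → ℤ} (hm : ∀ l, (fun i => (Cc i).coeff l) ≠ 0 → Nrm w (fun i => (Cc i).coeff l) (m l))
    {l l2 : ℕ} (hlt : l < l2) (hl : (fun i => (Cc i).coeff l) ≠ 0)
    (hl2 : (fun i => (Cc i).coeff l2) ≠ 0)
    (H : ∀ l' : ℕ, (fun i => (Cc i).coeff l') ≠ 0 →
      (m l2 - m l) * ((l' : ℤ) - l) ≤ ((l2 : ℤ) - l) * (m l' - m l) ∧
      (l' < l ∨ l2 < l' → (m l2 - m l) * ((l' : ℤ) - l) < ((l2 : ℤ) - l) * (m l' - m l))) :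
    Trd w Q ϖ (fun i => (Cc i).coeff l) (m l) ↔ Trd w Q ϖ (fun i => (Cc i).coeff l2) (m l2) := by
  obtain ⟨d, hd⟩ : ∃ d, l2 = l + (d + 1) := ⟨l2 - l - 1, by omega⟩
  subst hd
  set q : ℤ := m (l + (d + 1)) - m l with hq
  set e : ℤ := (d : ℤ) + 1 with he
  have he0 : 0 < e := by omega
  have hee : ((l + (d + 1) : ℕ) : ℤ) - l = e := by
    push_cast
    omega
  rw [hee] at H
  set j : ℕ := l * d with hj
  set a : ℤ := q * l - m l with ha
  set C' : Fin r → E[X] := fun i => C (ϖ ^ a) * X ^ j * Cc i with hC'def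
  have hco : ∀ i l', (C' i).coeff (l' + j) = ϖ ^ a * (Cc i).coeff l' := by
    intro i l'
    rw [hC'def]
    simp only
    rw [mul_assoc, coeff_C_mul, coeff_X_pow_mul]
  have hco0 : ∀ i L, L < j → (C' i).coeff L = 0 := by
    intro i L hL
    rw [hC'def]
    simp only
    rw [mul_assoc, coeff_C_mul, coeff_X_pow_mul', if_neg (by omega), mul_zero]
  have hcase : ∀ i L, (C' i).coeff L = 0 ∨ ∃ l', L = l' + j ∧ (Cc i).coeff l' ≠ 0 ∧
      (fun i => (Cc i).coeff l') ≠ 0 ∧ q * L + e * (m l' - m l) - q * ((l' : ℤ) - l) ≤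
        e * w.ord ((C' i).coeff L) := by
    intro i L
    by_cases hL : L < j
    · exact Or.inl (hco0 i L hL)
    obtain ⟨l', hl'⟩ : ∃ l', L = l' + j := ⟨L - j, by omega⟩
    by_cases hz : (Cc i).coeff l' = 0
    · left
      rw [hl', hco, hz, mul_zero]
    right
    have hv : (fun i => (Cc i).coeff l') ≠ 0 := fun h => hz (congrFun h i)
    refine ⟨l', hl', hz, hv, ?_⟩
    rw [hl', hco, w.ord_mul (zpow_ne_zero _ h0) hz, w.ord_zpow, h1]
    have h2 := ((hm l' hv).1 i).resolve_left hz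
    have h3 : e * m l' ≤ e * w.ord ((Cc i).coeff l') := mul_le_mul_of_nonneg_left h2 he0.le
    have h4 : ((l' + j : ℕ) : ℤ) = l' + l * e - l := by
      rw [hj, he]
      push_cast
      ring
    rw [h4, ha]
    linarith
  have hLv : ∀ i, Lv w q e (C' i) := by
    intro i L
    rcases hcase i L with h | ⟨l', -, -, hv, h⟩
    · exact Or.inl h
    · right
      have := (H l' hv).1
      omega
  have hred0 : ∀ i L, (∀ l', L = l' + j → l' < l ∨ l + (d + 1) < l') →
      (ini w ϖ q e (C' i)).coeff L = 0 := by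
    intro i L hL
    rw [coeff_ini]
    split_ifs with hdv
    · apply lv_red w h0 h1 he0 _ hdv
      rcases hcase i L with h | ⟨l', hl', -, hv, h⟩
      · exact Or.inl h
      · right
        have := (H l' hv).2 (hL l' hl')
        omega
    · rfl
  have hA1 : ∀ i, (ini w ϖ q e (C' i)).coeff (l + j) = w.red ((Cc i).coeff l * ϖ ^ (-m l)) := by
    intro i
    have h2 : q * ((l + j : ℕ) : ℤ) = e * (q * l) := by
      rw [hj, he]
      push_cast
      ring
    rw [coeff_ini, h2, if_pos (dvd_mul_right _ _), Int.mul_ediv_cancel_left _ he0.ne', hco, ha]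
    congr 1
    rw [mul_right_comm, ← zpow_add₀ h0, mul_comm]
    congr 2
    ring
  have hB1 : ∀ i, (ini w ϖ q e (C' i)).coeff (l + (d + 1) + j) =
      w.red ((Cc i).coeff (l + (d + 1)) * ϖ ^ (-m (l + (d + 1)))) := by
    intro i
    have h2 : q * ((l + (d + 1) + j : ℕ) : ℤ) = e * (q * (l + 1)) := by
      rw [hj, he]
      push_cast
      ring
    rw [coeff_ini, h2, if_pos (dvd_mul_right _ _), Int.mul_ediv_cancel_left _ he0.ne', hco, ha]
    congr 1
    rw [mul_right_comm, ← zpow_add₀ h0, mul_comm]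
    congr 2
    rw [hq]
    ring
  -- the equation
  have hC2 : S C' := hS1 _ _ hC
  have hRd : ∀ i, Rd w ϖ q e (C' i) (ini w ϖ q e (C' i)) := fun i => ⟨hLv i, rfl⟩
  have hz : S0 fun i => ini w ϖ q e (C' i) := hS2 q e he0 _ _ hRd hC2
  have hnz : ∀ {l' : ℕ}, (fun i => (Cc i).coeff l') ≠ 0 →
      (fun i => w.red ((Cc i).coeff l' * ϖ ^ (-m l'))) ≠ 0 := by
    intro l' hv h
    obtain ⟨-, i, h2, h3⟩ := hm l' hv
    refine w.red_ne_zero (mul_ne_zero h2 (zpow_ne_zero (-m l') h0)) ?_ (congrFun h i)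
    rw [w.ord_mul h2 (zpow_ne_zero _ h0), w.ord_zpow, h1, h3]
    ring
  have key := hcv (fun i => ini w ϖ q e (C' i)) hz (l + j) (l + (d + 1) + j) ?_ ?_ ?_ ?_
  · simp only [hA1, hB1] at key
    exact key
  · intro i L hL
    exact hred0 i L fun l' hl' => Or.inl (by omega)
  · simp only [hA1]
    exact hnz hl
  · intro i L hL
    exact hred0 i L fun l' hl' => Or.inr (by omega)
  · simp only [hB1]
    exact hnz hl2

include hS1 hS2 hcv in
/-- **The class of the reduction of a point is constant along rational curves.** -/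
theorem newton (h0 : ϖ ≠ 0) (h1 : w.ord ϖ = 1) {Cc : Fin r → E[X]} (hC : S Cc)
    {d : ℕ} (hd : ∀ i, (Cc i).natDegree ≤ d) (hl0 : (fun i => (Cc i).coeff 0) ≠ 0)
    (hld : (fun i => (Cc i).coeff d) ≠ 0) {m0 md : ℤ}
    (hm0 : Nrm w (fun i => (Cc i).coeff 0) m0) (hmd : Nrm w (fun i => (Cc i).coeff d) md) :
    Trd w Q ϖ (fun i => (Cc i).coeff 0) m0 ↔ Trd w Q ϖ (fun i => (Cc i).coeff d) md := by
  classical
  have hex : ∀ l : ℕ, ∃ μ : ℤ, (fun i => (Cc i).coeff l) ≠ 0 →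
      Nrm w (fun i => (Cc i).coeff l) μ := by
    intro l
    by_cases h : (fun i => (Cc i).coeff l) = 0
    · exact ⟨0, fun h' => absurd h h'⟩
    · obtain ⟨μ, hμ⟩ := exists_nrm w h
      exact ⟨μ, fun _ => hμ⟩
  choose m hm using hex
  rw [nrm_unique w hm0 (hm 0 hl0), nrm_unique w hmd (hm d hld)]
  have hbig : ∀ l, (fun i => (Cc i).coeff l) ≠ 0 → l ≤ d := by
    intro l hl
    by_contra h
    apply hl
    funext i
    exact coeff_eq_zero_of_natDegree_lt (lt_of_le_of_lt (hd i) (not_le.1 h))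
  -- the supporting line
  let SL : ℕ → ℤ → ℤ → Prop := fun l q e => 0 < e ∧ ∀ l' : ℕ, (fun i => (Cc i).coeff l') ≠ 0 →
    q * ((l' : ℤ) - l) ≤ e * (m l' - m l) ∧ (l < l' → q * ((l' : ℤ) - l) < e * (m l' - m l))
  have hstart : ∃ q e, SL 0 q e := by
    refine ⟨-(1 + ∑ l' ∈ Finset.range (d + 1), |m l' - m 0|), 1, one_pos, fun l' hl' => ?_⟩
    have h2 : |m l' - m 0| ≤ ∑ l' ∈ Finset.range (d + 1), |m l' - m 0| :=
      Finset.single_le_sum (f := fun l' => |m l' - m 0|) (fun _ _ => abs_nonneg _)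
        (Finset.mem_range.2 (Nat.lt_succ_of_le (hbig l' hl')))
    have h3 := neg_abs_le (m l' - m 0)
    rcases Nat.eq_zero_or_pos l' with rfl | hpos
    · simp
    · have h4 : (1 : ℤ) ≤ l' := by exact_mod_cast hpos
      have h5 : 0 ≤ ∑ l' ∈ Finset.range (d + 1), |m l' - m 0| :=
        Finset.sum_nonneg fun _ _ => abs_nonneg _
      have h6 : -(1 + ∑ l' ∈ Finset.range (d + 1), |m l' - m 0|) * ((l' : ℤ) - (0 : ℕ)) <
          1 * (m l' - m 0) := by
        push_cast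
        nlinarith
      exact ⟨h6.le, fun _ => h6⟩
  have main : ∀ k : ℕ, ∀ l, d - l = k → l ≤ d → (fun i => (Cc i).coeff l) ≠ 0 →
      (∃ q e, SL l q e) → (Trd w Q ϖ (fun i => (Cc i).coeff l) (m l) ↔
        Trd w Q ϖ (fun i => (Cc i).coeff d) (m d)) := by
    intro k
    induction k using Nat.strong_induction_on with
    | _ k ih =>
    rintro l hk hl hlv ⟨q, e, he, hSL⟩
    by_cases hld' : l = d
    · rw [hld']
    have hlt : l < d := lt_of_le_of_ne hl hld'
    -- the next vertex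
    let S : Finset ℕ := (Finset.range (d + 1)).filter fun l' => l < l' ∧
      (fun i => (Cc i).coeff l') ≠ 0
    have hSne : S.Nonempty := ⟨d, by simp [S, hlt, hld]⟩
    let f : ℕ → ℚ := fun l' => ((m l' - m l : ℤ) : ℚ) / (((l' : ℤ) - l : ℤ) : ℚ)
    obtain ⟨l1, hl1, hmin1⟩ := Finset.exists_min_image S f hSne
    obtain ⟨l2, hl2, hmax2⟩ := Finset.exists_max_image (S.filter fun l' => f l' = f l1)
      (fun l' => l') ⟨l1, by simp [hl1]⟩
    rw [Finset.mem_filter] at hl2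
    obtain ⟨hl2S, hf2⟩ := hl2
    have hl2' := (Finset.mem_filter.1 hl2S).2
    obtain ⟨hll2, hl2v⟩ := hl2'
    have hcross : ∀ l', l < l' → (fun i => (Cc i).coeff l') ≠ 0 →
        (m l2 - m l) * ((l' : ℤ) - l) ≤ ((l2 : ℤ) - l) * (m l' - m l) ∧
        (l2 < l' → (m l2 - m l) * ((l' : ℤ) - l) < ((l2 : ℤ) - l) * (m l' - m l)) := by
      intro l' hll' hv'
      have hl'S : l' ∈ S := by
        simp only [S, Finset.mem_filter, Finset.mem_range]
        exact ⟨Nat.lt_succ_of_le (hbig l' hv'), hll', hv'⟩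
      have p1 : (0 : ℚ) < (((l' : ℤ) - l : ℤ) : ℚ) := by
        have : (0 : ℤ) < (l' : ℤ) - l := by omega
        exact_mod_cast this
      have p2 : (0 : ℚ) < (((l2 : ℤ) - l : ℤ) : ℚ) := by
        have : (0 : ℤ) < (l2 : ℤ) - l := by omega
        exact_mod_cast this
      have hle : f l2 ≤ f l' := by
        rw [hf2]
        exact hmin1 l' hl'S
      constructor
      · have h2 : ((m l2 - m l : ℤ) : ℚ) * (((l' : ℤ) - l : ℤ) : ℚ) ≤
            ((m l' - m l : ℤ) : ℚ) * (((l2 : ℤ) - l : ℤ) : ℚ) := (div_le_div_iff₀ p2 p1).1 hle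
        have h3 : (m l2 - m l) * ((l' : ℤ) - l) ≤ (m l' - m l) * ((l2 : ℤ) - l) := by
          exact_mod_cast h2
        linarith
      · intro hl2l
        have hlt' : f l2 < f l' := by
          refine lt_of_le_of_ne hle fun heq => ?_
          have h2 : l' ∈ S.filter fun l' => f l' = f l1 := by
            rw [Finset.mem_filter]
            exact ⟨hl'S, heq.symm.trans hf2⟩
          have h3 := hmax2 l' h2
          omega
        have h2 : ((m l2 - m l : ℤ) : ℚ) * (((l' : ℤ) - l : ℤ) : ℚ) <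
            ((m l' - m l : ℤ) : ℚ) * (((l2 : ℤ) - l : ℤ) : ℚ) := (div_lt_div_iff₀ p2 p1).1 hlt'
        have h3 : (m l2 - m l) * ((l' : ℤ) - l) < (m l' - m l) * ((l2 : ℤ) - l) := by
          exact_mod_cast h2
        linarith
    have hneg : ∀ l' : ℕ, l' < l → (fun i => (Cc i).coeff l') ≠ 0 →
        (m l2 - m l) * ((l' : ℤ) - l) < ((l2 : ℤ) - l) * (m l' - m l) := by
      intro l' hl' hv'
      have h2 := (hSL l' hv').1
      have h3 := (hSL l2 hl2v).2 hll2
      have h4 : (0 : ℤ) < (l : ℤ) - l' := by omega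
      have h5 : (0 : ℤ) < (l2 : ℤ) - l := by omega
      have h6 : q * ((l2 : ℤ) - l) * ((l : ℤ) - l') < e * (m l2 - m l) * ((l : ℤ) - l') :=
        mul_lt_mul_of_pos_right h3 h4
      have h7 : q * ((l' : ℤ) - l) * ((l2 : ℤ) - l) ≤ e * (m l' - m l) * ((l2 : ℤ) - l) :=
        mul_le_mul_of_nonneg_right h2 h5.le
      have h8 : e * ((m l2 - m l) * ((l' : ℤ) - l)) < e * (((l2 : ℤ) - l) * (m l' - m l)) := by
        nlinarith
      exact lt_of_mul_lt_mul_left h8 he.le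
    have hH : ∀ l' : ℕ, (fun i => (Cc i).coeff l') ≠ 0 →
        (m l2 - m l) * ((l' : ℤ) - l) ≤ ((l2 : ℤ) - l) * (m l' - m l) ∧
        (l' < l ∨ l2 < l' →
          (m l2 - m l) * ((l' : ℤ) - l) < ((l2 : ℤ) - l) * (m l' - m l)) := by
      intro l' hv'
      rcases lt_trichotomy l' l with h | h | h
      · exact ⟨(hneg l' h hv').le, fun _ => hneg l' h hv'⟩
      · rw [h]
        refine ⟨by simp, fun h' => ?_⟩
        omega
      · refine ⟨(hcross l' h hv').1, fun h' => (hcross l' h hv').2 ?_⟩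
        omega
    rw [seg w hS1 hS2 hcv h0 h1 hC hm hll2 hlv hl2v hH]
    have hl2d : l2 ≤ d := hbig l2 hl2v
    refine ih (d - l2) (by omega) l2 rfl hl2d hl2v ⟨m l2 - m l, (l2 : ℤ) - l, by omega,
      fun l' hv' => ?_⟩
    have h2 := hH l' hv'
    constructor
    · nlinarith [h2.1]
    · intro hl'
      have h3 := h2.2 (Or.inr hl')
      nlinarith
  exact main (d - 0) 0 rfl (Nat.zero_le _) hl0 hstart

end nw

end

end Pool.Agent.H900.GM
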