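import Pool.Agent.H900.GM.Mn

/-! # Parametrizations join the generic point to a rational point: systems of equations -/

set_option autoImplicit false
set_option linter.unusedSectionVars false
set_option linter.unusedVariables false

namespace Pool.Agent.H900.GM

open MvPolynomial Module Pool.Agent.H900.PN Pool.Agent.H900.LF

noncomputable section

theorem param_joined_sys {k : Type} [Field k] [Infinite k] {r N : ℕ} {J : Type} {d : J → ℕ}
    {f : J → MvPolynomial (Fin r) k}
    (hf : ∀ j, (f j).IsHomogeneous (d j)) {U : Type} [Field U]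
    [Algebra (MvPolynomial (Fin N) k) U]
    [Algebra k U] [IsScalarTower k (MvPolynomial (Fin N) k) U]
    [IsFractionRing (MvPolynomial (Fin N) k) U] (g : Fin r → U) (hg0 : g ≠ 0)
    (hg : ∀ j, aeval g (f j) = 0) : ∃ p : Fin r → k, p ≠ 0 ∧
      (g ≠ 0 ∧ (fun i => algebraMap k U (p i)) ≠ 0 ∧
        Lks (fun y => ∀ j, aeval y (f j) = 0) g (fun i => algebraMap k U (p i))) := by
  classical
  obtain ⟨b, hb⟩ := IsLocalization.exist_integer_multiples_of_finite
    (nonZeroDivisors (MvPolynomial (Fin N) k)) g
  choose G hG using hb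
  have hb0 : (b : MvPolynomial (Fin N) k) ≠ 0 := nonZeroDivisors.coe_ne_zero b
  set β : U := algebraMap (MvPolynomial (Fin N) k) U b with hβ
  have hβ0 : β ≠ 0 := by
    rw [hβ, Ne, IsFractionRing.to_map_eq_zero_iff]
    exact hb0
  have hG' : ∀ i, algebraMap (MvPolynomial (Fin N) k) U (G i) = β * g i := by
    intro i
    rw [hG, Algebra.smul_def]
  obtain ⟨i1, hi1⟩ := Function.ne_iff.1 hg0
  rw [Pi.zero_apply] at hi1
  have hGi : G i1 ≠ 0 := by
    intro h
    have h1 := hG' i1
    rw [h, map_zero] at h1
    exact mul_ne_zero hβ0 hi1 h1.symm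
  obtain ⟨w0, hw0⟩ : ∃ w0 : Fin N → k, eval w0 (G i1) ≠ 0 := by
    by_contra hcon
    push Not at hcon
    exact hGi (MvPolynomial.funext fun w => by rw [hcon, map_zero])
  have hGf : ∀ j, aeval G (f j) = 0 := by
    intro j
    apply IsFractionRing.injective (MvPolynomial (Fin N) k) U
    have h1 := comp_aeval_apply G (IsScalarTower.toAlgHom k (MvPolynomial (Fin N) k) U) (f j)
    have h2 : (fun i => (IsScalarTower.toAlgHom k (MvPolynomial (Fin N) k) U) (G i)) =
        fun i => β * g i := funext hG'
    rw [h2, LF.hom_smul (hf j), hg, mul_zero] at h1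
    rw [map_zero]
    exact h1
  have hUinf : Infinite U := Infinite.of_injective _ (algebraMap k U).injective
  set Gm : Fin r → MvPolynomial (Fin N) U := fun i => map (algebraMap k U) (G i) with hGm
  set D : ℕ := Finset.univ.sup fun i => (Gm i).totalDegree with hD
  have hDi : ∀ i, (Gm i).totalDegree ≤ D := fun i =>
    Finset.le_sup (f := fun i => (Gm i).totalDegree) (Finset.mem_univ i)
  set v : Fin N → U := fun l => algebraMap (MvPolynomial (Fin N) k) U (X l) with hv
  set t : Fin N → U := fun l => algebraMap k U (w0 l) with ht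
  have hform : ∀ j, aeval Gm (map (algebraMap k U) (f j)) = 0 := by
    intro j
    have h1 : aeval Gm (map (algebraMap k U) (f j)) = map (algebraMap k U) (aeval G (f j)) := by
      rw [aeval_map_algebraMap]
      have h2 := comp_aeval_apply G (mapAlgHom (Algebra.ofId k U) :
        MvPolynomial (Fin N) k →ₐ[k] MvPolynomial (Fin N) U) (f j)
      exact h2.symm
    rw [h1, hGf, map_zero]
  have hevv : ∀ i, eval v (Gm i) = β * g i := by
    intro i
    rw [← hG', hGm, eval_map, ← aeval_def]
    have h1 := comp_aeval_apply (X : Fin N → MvPolynomial (Fin N) k)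
      (IsScalarTower.toAlgHom k (MvPolynomial (Fin N) k) U) (G i)
    rw [aeval_X_left_apply] at h1
    exact h1.symm
  have hevt : ∀ i, eval t (Gm i) = algebraMap k U (eval w0 (G i)) := by
    intro i
    rw [hGm, eval_map]
    have h1 := eval₂_comp_left (algebraMap k U) (RingHom.id k) w0 (G i)
    rw [RingHom.comp_id] at h1
    exact h1.symm
  refine ⟨fun i => eval w0 (G i), fun h => hw0 (congrFun h i1), hg0, fun h => ?_, D,
    fun i => Pool.Agent.X328.FD.curve D v t (Gm i),
    fun i => (Pool.Agent.X328.FD.curve_top v t (hDi i)).1, fun j => ?_, ⟨β, hβ0, fun i => ?_⟩,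
    1, one_ne_zero, fun i => ?_⟩
  · have h1 := congrFun h i1
    rw [Pi.zero_apply, map_eq_zero] at h1
    exact hw0 h1
  · have h1 := Pool.Agent.X328.FD.curve_form v t hDi ((hf j).map (algebraMap k U)) (hform j)
    rw [aeval_map_algebraMap] at h1
    exact h1
  · rw [Pool.Agent.X328.FD.curve_zero, hevv]
  · rw [(Pool.Agent.X328.FD.curve_top v t (hDi i)).2, hevt, one_mul]

/-- the equations of a Gushel-Mukai fourfold as a family of polynomials -/
def gmE {k : Type} [CommRing k] (Q : MvPolynomial (Fin 10) k) :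
    Option (Option (Fin 5)) → MvPolynomial (Fin 10) k
  | none => Q
  | some none => X 9 + X 1
  | some (some j) => plP k j

/-- their degrees -/
def gmD : Option (Option (Fin 5)) → ℕ
  | none => 2
  | some none => 1
  | some (some _) => 2

theorem gmE_hom {k : Type} [CommRing k] {Q : MvPolynomial (Fin 10) k} (hQ : Q.IsHomogeneous 2)
    (j : Option (Option (Fin 5))) : (gmE Q j).IsHomogeneous (gmD j) := by
  rcases j with _ | _ | j
  · exact hQ
  · exact (isHomogeneous_X k 9).add (isHomogeneous_X k 1)
  · exact plP_hom j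

theorem gmE_iff {k A : Type} [CommRing k] [CommRing A] [Algebra k A]
    {Q : MvPolynomial (Fin 10) k} {y : Fin 10 → A} :
    (∀ j, aeval y (gmE Q j) = 0) ↔ SatK Q 1 y := by
  constructor
  · intro h
    refine ⟨fun j => h (some (some j)), ?_, h none⟩
    have h1 := h (some none)
    have h2 : gmE Q (some none) = X 9 + X 1 := rfl
    rw [h2, map_add, aeval_X, aeval_X] at h1
    rw [map_one, one_mul]
    exact h1
  · rintro ⟨h1, h2, h3⟩ j
    rcases j with _ | _ | j
    · exact h3
    · show aeval y (X 9 + X 1 : MvPolynomial (Fin 10) k) = 0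
      rw [map_add, aeval_X, aeval_X]
      rw [map_one, one_mul] at h2
      exact h2
    · exact h1 j

/-- a parametrization joins the generic point to a point over the base -/
theorem param_joined_gm {k : Type} [Field k] [Infinite k] {N : ℕ}
    {Q : MvPolynomial (Fin 10) k} (hQ : Q.IsHomogeneous 2) {U : Type} [Field U]
    [Algebra (MvPolynomial (Fin N) k) U]
    [Algebra k U] [IsScalarTower k (MvPolynomial (Fin N) k) U]
    [IsFractionRing (MvPolynomial (Fin N) k) U] (g : Fin 10 → U) (hg0 : g ≠ 0)
    (hg : SatK Q 1 g) : ∃ p : Fin 10 → k, p ≠ 0 ∧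
      (g ≠ 0 ∧ (fun i => algebraMap k U (p i)) ≠ 0 ∧
        Lks (SatK Q 1) g (fun i => algebraMap k U (p i))) := by
  obtain ⟨p, hp, h1, h2, D, C, h3, h4, h5⟩ :=
    param_joined_sys (N := N) (gmE_hom hQ) g hg0 (gmE_iff.2 hg)
  exact ⟨p, hp, h1, h2, D, C, h3, gmE_iff.1 h4, h5⟩

end

end Pool.Agent.H900.GM
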