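import Pool.Agent.H900.GM.Ap
import Pool.Agent.H900.PN.Rf

/-! # The Pfister form of the residue field is anisotropic -/

set_option autoImplicit false
set_option linter.unusedSectionVars false
set_option linter.unusedVariables false

namespace Pool.Agent.H900.GM

open MvPolynomial Pool.Agent.H900.LF Pool.Agent.H900.PN Module

noncomputable section

section rf

variable {Ω κ μ : Type} [Field Ω] [CharZero Ω] [Field κ] [Algebra Ω κ] [Finite μ] {s : ℕ}
  {i1 i2 : Fin s} {t : Fin s → κ} {x : Fin 4 → κ} {R : μ → κ} {z : κ}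

/-- the relation between the parameters -/
def Rel (i1 i2 : Fin s) (t : Fin s → κ) (x : Fin 4 → κ) (z : κ) : Prop :=
  z ^ 2 + t i1 * x 2 ^ 2 + t i2 * (x 3 + 1) ^ 2 + x 3 * (x 0 ^ 2 + t i1 * x 1 ^ 2 + 1) = 0

/-- the new parameters -/
def vv (i2 : Fin s) (t : Fin s → κ) (x : Fin 4 → κ) (R : μ → κ) (z : κ) : Sg s 4 μ → κ :=
  Sum.elim (fun i => if i = i2 then z else t i) (Sum.elim x R)

theorem aeval_NP (h12 : i1 ≠ i2) (h : Rel i1 i2 t x z) :
    aeval (vv i2 t x R z) (NP i1 i2 : MvPolynomial (Sg s 4 μ) Ω) = -(t i2 * (x 3 + 1) ^ 2) := by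
  have h1 : vv i2 t x R z (Sum.inl i2) = z := if_pos rfl
  have h2 : vv i2 t x R z (Sum.inl i1) = t i1 := if_neg h12
  unfold NP
  simp only [map_add, map_mul, map_pow, aeval_X, map_one, h1, h2]
  unfold Rel at h
  have h3 : ∀ j, vv i2 t x R z (Sum.inr (Sum.inl j)) = x j := fun _ => rfl
  rw [h3, h3, h3, h3]
  linear_combination h

theorem aeval_MP (h : Rel i1 i2 t x z) :
    aeval (uu t x R) (MP i1 i2 : MvPolynomial (Sg s 4 μ) Ω) = -z ^ 2 := by
  have h1 : ∀ i, uu t x R (Sum.inl i) = t i := fun _ => rfl
  unfold MP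
  simp only [map_add, map_mul, map_pow, aeval_X, map_one, h1]
  unfold Rel at h
  have h3 : ∀ j, uu t x R (Sum.inr (Sum.inl j)) = x j := fun _ => rfl
  rw [h3, h3, h3, h3]
  linear_combination h

theorem z_notMem (hi : AlgebraicIndependent Ω (uu t x R)) (h : Rel i1 i2 t x z) :
    z ∉ IntermediateField.adjoin Ω (Set.range (uu t x R)) := by
  intro hz
  obtain ⟨p, q, hpq⟩ := (IntermediateField.mem_adjoin_range_iff Ω (uu t x R) z).1 hz
  have hM := aeval_MP (Ω := Ω) (R := R) h
  by_cases hq : aeval (uu t x R) q = 0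
  · rw [hq, div_zero] at hpq
    rw [hpq] at hM
    have h1 : aeval (uu t x R) (MP i1 i2 : MvPolynomial (Sg s 4 μ) Ω) = 0 := by
      rw [hM]
      ring
    have h2 := (algebraicIndependent_iff.1 hi) _ h1
    have h3 := an_MP (μ := μ) (k := Ω) i1 i2 (p := 0) (q := 1) (by rw [h2]; ring)
    exact one_ne_zero h3.2
  · have h1 : aeval (uu t x R) (p ^ 2 + MP i1 i2 * q ^ 2) = 0 := by
      rw [map_add, map_mul, map_pow, map_pow, hM, hpq]
      field_simp
      ring
    have h2 := (algebraicIndependent_iff.1 hi) _ h1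
    have h3 := an_MP i1 i2 h2
    rw [h3.2, map_zero] at hq
    exact hq rfl

/-- **The Pfister form with the additional slot `x 3` is anisotropic.** -/
theorem an_res (h12 : i1 ≠ i2) {e : Ω} (he : e ^ 2 = -1)
    (hi : AlgebraicIndependent Ω (uu t x R)) (h : Rel i1 i2 t x z)
    (hf4 : ¬ 4 ∣ finrank (IntermediateField.adjoin Ω (Set.range (uu t x R))) κ)
    (u v : Finset (Fin s) → κ) (huv : pf t u + x 3 * pf t v = 0) : u = 0 ∧ v = 0 := by
  classical
  have hfin : Fintype (Sg s 4 μ) := Fintype.ofFinite _
  have ha0 : x 3 + 1 ≠ 0 := by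
    intro h0
    have h1 : x 3 = algebraMap Ω κ (-1) := by
      rw [map_neg, map_one]
      linear_combination h0
    have h2 := hi.transcendental (Sum.inr (Sum.inl 3))
    apply h2
    show IsAlgebraic Ω (x 3)
    rw [h1]
    exact isAlgebraic_algebraMap _
  set a := x 3 + 1 with ha
  have hzU := z_notMem hi h
  set V := vv i2 t x R z with hV
  set FV := IntermediateField.adjoin Ω (Set.range V) with hFV
  set FU := IntermediateField.adjoin Ω (Set.range (uu t x R)) with hFU
  have hpos : 0 < finrank FU κ := by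
    apply Nat.pos_of_ne_zero
    intro h0
    rw [h0] at hf4
    exact hf4 (dvd_zero 4)
  have hVm : ∀ w, V w ∈ FV := fun w => IntermediateField.subset_adjoin _ _ ⟨w, rfl⟩
  have hpm : ∀ P : MvPolynomial (Sg s 4 μ) Ω, aeval V P ∈ FV := by
    intro P
    rw [aeval_def, eval₂_eq]
    exact sum_mem fun α _ => mul_mem (FV.algebraMap_mem _) (prod_mem fun i _ => pow_mem (hVm i) _)
  have hNP := aeval_NP (Ω := Ω) (R := R) h12 h
  rw [← ha] at hNP
  have hti' : t i2 ∈ FV := by
    have h1 : t i2 = -aeval V (NP i1 i2 : MvPolynomial (Sg s 4 μ) Ω) / a ^ 2 := by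
      rw [hNP]
      field_simp
    rw [h1]
    refine div_mem (neg_mem (hpm _)) (pow_mem ?_ 2)
    exact add_mem (hVm (Sum.inr (Sum.inl 3))) (one_mem _)
  have hle : FU ≤ FV := by
    rw [hFU, IntermediateField.adjoin_le_iff]
    rintro _ ⟨w, rfl⟩
    rcases w with i | w
    · by_cases hii : i = i2
      · show t i ∈ FV
        rw [hii]
        exact hti'
      · have h1 : t i = V (Sum.inl i) := (if_neg hii).symm
        show t i ∈ FV
        rw [h1]
        exact hVm _
    · exact hVm (Sum.inr w)
  have hzV : z ∈ FV := by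
    have h1 : z = V (Sum.inl i2) := (if_pos rfl).symm
    rw [h1]
    exact hVm _
  have hfd : FiniteDimensional FU κ := FiniteDimensional.of_finrank_pos hpos
  have hVi : AlgebraicIndependent Ω V := by
    refine Pool.Agent.X328.FD.indep_count (y := uu t x R) (fun z => ?_) hi le_rfl
    exact Pool.Agent.X328.FD.alg_mono hle (Algebra.IsAlgebraic.isAlgebraic z)
  have hoddV : Odd (finrank FV κ) := by
    set F2 : IntermediateField FU κ := IntermediateField.adjoin FU {z} with hF2
    have hres : F2.restrictScalars Ω = FV := by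
      rw [hF2, hFU, IntermediateField.adjoin_adjoin_left]
      apply le_antisymm
      · rw [IntermediateField.adjoin_le_iff]
        rintro w (hw | hw)
        · exact hle (IntermediateField.subset_adjoin _ _ hw)
        · rw [Set.mem_singleton_iff] at hw
          rw [hw]
          exact hzV
      · rw [hFV, IntermediateField.adjoin_le_iff]
        rintro _ ⟨w, rfl⟩
        rcases w with i | w
        · by_cases hii : i = i2
          · have h1 : V (Sum.inl i) = z := if_pos hii
            rw [h1]
            exact IntermediateField.subset_adjoin _ _ (Or.inr rfl)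
          · have h1 : V (Sum.inl i) = t i := if_neg hii
            rw [h1]
            exact IntermediateField.subset_adjoin _ _ (Or.inl ⟨Sum.inl i, rfl⟩)
        · exact IntermediateField.subset_adjoin _ _ (Or.inl ⟨Sum.inr w, rfl⟩)
    have hF2V : finrank F2 κ = finrank FV κ := by
      rw [← hres]
      rfl
    have hzz : IsIntegral FU z := IsIntegral.of_finite FU z
    have h2 : finrank FU F2 = 2 := by
      rw [hF2, IntermediateField.adjoin.finrank hzz]
      have hz2 : z ^ 2 ∈ FU := by
        have h3 := aeval_MP (Ω := Ω) (R := R) h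
        have h4 : z ^ 2 = -aeval (uu t x R) (MP i1 i2 : MvPolynomial (Sg s 4 μ) Ω) := by
          rw [h3]
          ring
        rw [h4]
        exact neg_mem ((IntermediateField.mem_adjoin_range_iff Ω _ _).2
          ⟨MP i1 i2, 1, by rw [map_one, div_one]⟩)
      have hdvd : minpoly FU z ∣ Polynomial.X ^ 2 - Polynomial.C (⟨z ^ 2, hz2⟩ : FU) := by
        apply minpoly.dvd
        rw [map_sub, map_pow, Polynomial.aeval_X, Polynomial.aeval_C]
        exact _root_.sub_self _
      have hle2 : (minpoly FU z).natDegree ≤ 2 := by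
        have h5 := Polynomial.natDegree_le_of_dvd hdvd
          (Polynomial.X_pow_sub_C_ne_zero (by norm_num) _)
        rwa [Polynomial.natDegree_X_pow_sub_C] at h5
      have hpos2 := minpoly.natDegree_pos hzz
      have hne1 : (minpoly FU z).natDegree ≠ 1 := by
        intro h1
        rw [minpoly.natDegree_eq_one_iff] at h1
        obtain ⟨w, hw⟩ := h1
        apply hzU
        rw [← hw]
        exact w.2
      omega
    have h5 := finrank_mul_finrank FU F2 κ
    rw [h2, hF2V] at h5
    rw [← Nat.not_even_iff_odd]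
    rintro ⟨d, hd⟩
    apply hf4
    rw [← h5, hd]
    exact ⟨d, by ring⟩
  set ψ : MvPolynomial (Sg s 4 μ) Ω →ₐ[Ω] κ := aeval V with hψ
  have hadj : IntermediateField.adjoin Ω (Set.range ψ) = FV := by
    apply le_antisymm
    · rw [IntermediateField.adjoin_le_iff]
      rintro _ ⟨P, rfl⟩
      exact hpm P
    · rw [hFV, IntermediateField.adjoin_le_iff]
      rintro _ ⟨i, rfl⟩
      have h1 : V i = ψ (X i) := (aeval_X _ _).symm
      rw [h1]
      exact IntermediateField.subset_adjoin _ _ ⟨X i, rfl⟩
  have hψa : ∀ i, ψ (aP i1 i2 i) = t i * (if i = i2 then a ^ 2 else 1) := by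
    intro i
    unfold aP
    by_cases hii : i = i2
    · rw [if_pos hii, if_pos hii, map_neg, hψ, hNP, hii]
      ring
    · rw [if_neg hii, if_neg hii, hψ, aeval_X, mul_one]
      exact if_neg hii
  have hψp : ∀ S : Finset (Fin s), ψ (∏ i ∈ S, aP i1 i2 i) =
      (∏ i ∈ S, t i) * (if i2 ∈ S then a ^ 2 else 1) := by
    intro S
    rw [map_prod, Finset.prod_congr rfl fun i _ => hψa i, Finset.prod_mul_distrib]
    congr 1
    rw [Finset.prod_ite_eq']
  let cP : Bool × Finset (Fin s) → MvPolynomial (Sg s 4 μ) Ω := fun p =>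
    (if p.1 = true then Xv 3 else 1) * ∏ i ∈ p.2, aP i1 i2 i
  let zz : Bool × Finset (Fin s) → κ := fun p =>
    (if p.1 = true then v p.2 else u p.2) / (if i2 ∈ p.2 then a else 1)
  have hterm : ∀ p, ψ (cP p) * zz p ^ 2 = (if p.1 = true then x 3 else 1) *
      ((∏ i ∈ p.2, t i) * (if p.1 = true then v p.2 else u p.2) ^ 2) := by
    rintro ⟨b, S⟩
    have h1 : ψ (cP (b, S)) = (if b = true then x 3 else 1) *
        ((∏ i ∈ S, t i) * (if i2 ∈ S then a ^ 2 else 1)) := by
      show ψ ((if b = true then Xv 3 else 1) * ∏ i ∈ S, aP i1 i2 i) = _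
      rw [map_mul, hψp]
      congr 1
      split_ifs
      · rw [hψ, aeval_X]
        rfl
      · rw [map_one]
    rw [h1]
    show _ * ((if b = true then v S else u S) / (if i2 ∈ S then a else 1)) ^ 2 =
      (if b = true then x 3 else 1) * ((∏ i ∈ S, t i) * (if b = true then v S else u S) ^ 2)
    by_cases hS : i2 ∈ S
    · rw [if_pos hS, if_pos hS]
      field_simp
    · rw [if_neg hS, if_neg hS]
      ring
  by_contra hcon
  have hz : zz ≠ 0 := by
    intro hz
    apply hcon
    constructor
    · funext S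
      have h1 := congrFun hz (false, S)
      have h2 : (u S) / (if i2 ∈ S then a else 1) = 0 := h1
      rcases div_eq_zero_iff.1 h2 with h3 | h3
      · exact h3
      · split_ifs at h3
        · exact absurd h3 ha0
        · exact absurd h3 one_ne_zero
    · funext S
      have h1 := congrFun hz (true, S)
      have h2 : (v S) / (if i2 ∈ S then a else 1) = 0 := h1
      rcases div_eq_zero_iff.1 h2 with h3 | h3
      · exact h3
      · split_ifs at h3
        · exact absurd h3 ha0
        · exact absurd h3 one_ne_zero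
  obtain ⟨r, ⟨p0, hp0⟩, hr2⟩ := odd_diag ψ (by rw [hadj]; exact hoddV) cP zz hz (by
    rw [Finset.sum_congr rfl fun p _ => hterm p, Fintype.sum_prod_type, Fintype.sum_bool]
    simp only [if_true, Bool.false_eq_true, if_false, one_mul]
    rw [← Finset.mul_sum]
    unfold pf at huv
    linear_combination huv)
  have h4 := (algebraicIndependent_iff.1 hVi) _ hr2
  have h5 := pp_all (μ := μ) i1 i2 h12 he ∅ r (fun p hp => ?_) ?_
  · rw [h5, Pi.zero_apply, map_zero] at hp0
    exact hp0 rfl
  · exfalso
    apply hp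
    show p.2 \ Finset.univ = ∅
    rw [Finset.sdiff_eq_empty_iff_subset]
    exact Finset.subset_univ _
  · simp only [Finset.inter_univ]
    exact h4

end rf

end

end Pool.Agent.H900.GM
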