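import Pool.Agent.H900.GM.Cu
import Pool.Agent.H900.GM.Nt
import Pool.Agent.H900.GM.Rf
import Pool.Agent.H900.PN.Co

/-! # The system of equations of a family of Gushel-Mukai fourfolds -/

set_option autoImplicit false
set_option linter.unusedSectionVars false
set_option linter.unusedVariables false

namespace Pool.Agent.H900.GM

open FF Pool.Agent.H900.PN Pool.Agent.Helper93K9.PAR

noncomputable section

section def1

open MvPolynomial

/-- the Plücker relations -/
def plP (k : Type) [CommRing k] : Fin 5 → MvPolynomial (Fin 10) k :=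
  ![X 4 * X 9 - X 5 * X 8 + X 6 * X 7, X 1 * X 9 - X 2 * X 8 + X 3 * X 7,
    X 0 * X 9 - X 2 * X 6 + X 3 * X 5, X 0 * X 8 - X 1 * X 6 + X 3 * X 4,
    X 0 * X 7 - X 1 * X 5 + X 2 * X 4]

theorem plP_hom {k : Type} [CommRing k] (j : Fin 5) : (plP k j).IsHomogeneous 2 := by
  have hX : ∀ a b : Fin 10, (X a * X b : MvPolynomial _ k).IsHomogeneous 2 :=
    fun a b => (isHomogeneous_X k a).mul (isHomogeneous_X k b)
  fin_cases j
  · exact ((hX _ _).sub (hX _ _)).add (hX _ _)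
  · exact ((hX _ _).sub (hX _ _)).add (hX _ _)
  · exact ((hX _ _).sub (hX _ _)).add (hX _ _)
  · exact ((hX _ _).sub (hX _ _)).add (hX _ _)
  · exact ((hX _ _).sub (hX _ _)).add (hX _ _)

theorem plP_map {k k' : Type} [CommRing k] [CommRing k'] (f : k →+* k') (j : Fin 5) :
    map f (plP k j) = plP k' j := by
  fin_cases j <;> simp [plP]

/-- the Plücker relations hold -/
theorem plP_iff {k A : Type} [CommRing k] [CommRing A] [Algebra k A] (y : Fin 10 → A) :
    (∀ j, aeval y (plP k j) = 0) ↔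
      y 4 * y 9 - y 5 * y 8 + y 6 * y 7 = 0 ∧ y 1 * y 9 - y 2 * y 8 + y 3 * y 7 = 0 ∧
      y 0 * y 9 - y 2 * y 6 + y 3 * y 5 = 0 ∧ y 0 * y 8 - y 1 * y 6 + y 3 * y 4 = 0 ∧
      y 0 * y 7 - y 1 * y 5 + y 2 * y 4 = 0 := by
  constructor
  · intro h
    have h0 := h 0
    have h1 := h 1
    have h2 := h 2
    have h3 := h 3
    have h4 := h 4
    simp only [plP, Matrix.cons_val, map_add, map_sub, map_mul, aeval_X] at h0 h1 h2 h3 h4
    exact ⟨h0, h1, h2, h3, h4⟩
  · rintro ⟨h0, h1, h2, h3, h4⟩ j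
    fin_cases j
    · show aeval y (X 4 * X 9 - X 5 * X 8 + X 6 * X 7 : MvPolynomial (Fin 10) k) = 0
      simpa only [map_add, map_sub, map_mul, aeval_X] using h0
    · show aeval y (X 1 * X 9 - X 2 * X 8 + X 3 * X 7 : MvPolynomial (Fin 10) k) = 0
      simpa only [map_add, map_sub, map_mul, aeval_X] using h1
    · show aeval y (X 0 * X 9 - X 2 * X 6 + X 3 * X 5 : MvPolynomial (Fin 10) k) = 0
      simpa only [map_add, map_sub, map_mul, aeval_X] using h2
    · show aeval y (X 0 * X 8 - X 1 * X 6 + X 3 * X 4 : MvPolynomial (Fin 10) k) = 0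
      simpa only [map_add, map_sub, map_mul, aeval_X] using h3
    · show aeval y (X 0 * X 7 - X 1 * X 5 + X 2 * X 4 : MvPolynomial (Fin 10) k) = 0
      simpa only [map_add, map_sub, map_mul, aeval_X] using h4

/-- the family of the special fourfold -/
def Phi {ι : Type} (k : Type) [CommRing k] (i1 i2 : ι) (τ : Finset ι) : MvPolynomial (Fin 10) k :=
  open Classical in
  (if τ = ∅ then X 4 ^ 2 + X 2 * X 3 + X 7 * X 8 else 0) +
    (if τ = {i1} then X 1 ^ 2 + X 5 * X 6 else 0) +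
    (if τ = {i2} then (X 7 + X 8) ^ 2 else 0)

theorem Phi_hom {ι k : Type} [CommRing k] (i1 i2 : ι) (τ : Finset ι) :
    (Phi k i1 i2 τ).IsHomogeneous 2 := by
  classical
  have hX : ∀ a : Fin 10, (X a : MvPolynomial _ k).IsHomogeneous 1 := fun a => isHomogeneous_X k a
  unfold Phi
  refine (IsHomogeneous.add ?_ ?_).add ?_
  · split_ifs
    · exact (((hX _).pow 2).add ((hX _).mul (hX _))).add ((hX _).mul (hX _))
    · exact isHomogeneous_zero _ _ _
  · split_ifs
    · exact ((hX _).pow 2).add ((hX _).mul (hX _))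
    · exact isHomogeneous_zero _ _ _
  · split_ifs
    · exact ((hX _).add (hX _)).pow 2
    · exact isHomogeneous_zero _ _ _

theorem Phi_map {ι k k' : Type} [CommRing k] [CommRing k'] (f : k →+* k') (i1 i2 : ι)
    (τ : Finset ι) : map f (Phi k i1 i2 τ) = Phi k' i1 i2 τ := by
  classical
  unfold Phi
  rw [map_add, map_add]
  congr 1
  · congr 1
    · split_ifs <;> simp
    · split_ifs <;> simp
  · split_ifs <;> simp

theorem fv_Phi {ι k A : Type} [CommRing k] [CommRing A] [Algebra k A] {i1 i2 : ι}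
    {T : Finset (Finset ι)} (hT0 : ∅ ∈ T) (hT1 : {i1} ∈ T) (hT2 : {i2} ∈ T) (t : ι → A)
    (y : Fin 10 → A) : fv T t (Phi k i1 i2) y =
      y 4 ^ 2 + y 2 * y 3 + y 7 * y 8 + t i1 * (y 1 ^ 2 + y 5 * y 6) +
        t i2 * (y 7 + y 8) ^ 2 := by
  classical
  have h1 : ∀ τ : Finset ι, (∏ i ∈ τ, t i) * aeval y (Phi k i1 i2 τ) =
      (if τ = ∅ then y 4 ^ 2 + y 2 * y 3 + y 7 * y 8 else 0) +
      (if τ = {i1} then t i1 * (y 1 ^ 2 + y 5 * y 6) else 0) +
      (if τ = {i2} then t i2 * (y 7 + y 8) ^ 2 else 0) := by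
    intro τ
    unfold Phi
    rw [map_add, map_add, mul_add, mul_add]
    congr 1
    · congr 1
      · by_cases h : τ = ∅
        · rw [if_pos h, if_pos h, h, Finset.prod_empty]
          simp only [map_add, map_mul, map_pow, aeval_X, one_mul]
        · rw [if_neg h, if_neg h, map_zero, mul_zero]
      · by_cases h : τ = {i1}
        · rw [if_pos h, if_pos h, h, Finset.prod_singleton]
          simp only [map_add, map_mul, map_pow, aeval_X]
        · rw [if_neg h, if_neg h, map_zero, mul_zero]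
    · by_cases h : τ = {i2}
      · rw [if_pos h, if_pos h, h, Finset.prod_singleton]
        simp only [map_add, map_mul, map_pow, aeval_X]
      · rw [if_neg h, if_neg h, map_zero, mul_zero]
  unfold fv
  rw [Finset.sum_congr rfl fun τ _ => h1 τ, Finset.sum_add_distrib, Finset.sum_add_distrib,
    Finset.sum_ite_eq', Finset.sum_ite_eq', Finset.sum_ite_eq', if_pos hT0, if_pos hT1,
    if_pos hT2]

theorem fv_smul2 {ι k A : Type} [CommRing k] [CommRing A] [Algebra k A] {r d : ℕ}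
    {T : Finset (Finset ι)} (t : ι → A) {F : Finset ι → MvPolynomial (Fin r) k}
    (hF : ∀ τ ∈ T, (F τ).IsHomogeneous d) (c : A) (y : Fin r → A) :
    fv T t F (fun i => c * y i) = c ^ d * fv T t F y := by
  unfold fv
  rw [Finset.mul_sum]
  refine Finset.sum_congr rfl fun τ hτ => ?_
  rw [PN.hom_smul (hF τ hτ)]
  ring

/-- the system of equations -/
def Sat {ι k A : Type} [CommRing k] [CommRing A] [Algebra k A] (T : Finset (Finset ι))
    (t : ι → A) (F G : Finset ι → MvPolynomial (Fin 10) k) (c : A) (y : Fin 10 → A) : Prop :=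
  (∀ j, aeval y (plP k j) = 0) ∧ y 9 + c * y 1 = 0 ∧ eqn T t F G c y = 0

theorem Sat.smul {ι k A : Type} [CommRing k] [CommRing A] [Algebra k A] {T : Finset (Finset ι)}
    {t : ι → A} {F G : Finset ι → MvPolynomial (Fin 10) k} (hF : ∀ τ ∈ T, (F τ).IsHomogeneous 2)
    (hG : ∀ τ ∈ T, (G τ).IsHomogeneous 2) {c : A} {y : Fin 10 → A} (h : Sat T t F G c y) (a : A) :
    Sat T t F G c (fun i => a * y i) := by
  obtain ⟨h1, h2, h3⟩ := h
  refine ⟨fun j => ?_, ?_, ?_⟩
  · rw [PN.hom_smul (plP_hom j), h1, mul_zero]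
  · linear_combination a * h2
  · unfold eqn at h3 ⊢
    rw [fv_smul2 t hF, fv_smul2 t hG]
    linear_combination a ^ 2 * h3

end def1

section red

variable {Ω E : Type} [Field Ω] [Field E] [Algebra Ω E] (w : Place Ω E) {ι : Type} {i1 i2 : ι}
  {T : Finset (Finset ι)} (hT0 : ∅ ∈ T) (hT1 : {i1} ∈ T) (hT2 : {i2} ∈ T) {t : ι → E}
  (ht : ∀ i, w.Reg (t i)) {G : Finset ι → MvPolynomial (Fin 10) Ω} {c : E}
  (hcr : w.Reg c) (hc0 : w.red c = 0)

include hT0 hT1 hT2 ht hcr hc0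

theorem Sat.red {p : Fin 10 → E} (h : Sat T t (Phi Ω i1 i2) G c p) (hp : ∀ i, w.Reg (p i)) :
    Sp (w.red (t i1)) (w.red (t i2)) (fun i => w.red (p i)) := by
  obtain ⟨h1, h2, h3⟩ := h
  have e1 : ∀ j, MvPolynomial.aeval (fun i => w.red (p i)) (plP Ω j) = 0 := by
    intro j
    obtain ⟨-, h4⟩ := LwL.red_aeval w p (plP Ω j) hp
    rw [← h4, h1, w.red_zero]
  obtain ⟨s1, s2, s3, s4, s5⟩ := (plP_iff _).1 e1
  refine ⟨s1, s2, s3, s4, s5, ?_, ?_⟩
  · have h4 := w.red_add (hp 9) (w.reg_mul hcr (hp 1))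
    rw [h2, w.red_zero, w.red_mul hcr (hp 1), hc0, zero_mul, add_zero] at h4
    exact h4.symm
  · unfold eqn at h3
    obtain ⟨e2, e3⟩ := red_fv w T ht (Phi Ω i1 i2) hp
    obtain ⟨e4, e5⟩ := red_fv w T ht G hp
    have e6 := w.red_add e2 (w.reg_mul hcr e4)
    rw [h3, w.red_zero, w.red_mul hcr e4, hc0, zero_mul, add_zero, e3,
      fv_Phi hT0 hT1 hT2] at e6
    exact e6.symm

theorem Sat.rd {ϖ : E} (h0 : ϖ ≠ 0) (h1 : w.ord ϖ = 1) {q e : ℤ} (he : 0 < e)
    {y : Fin 10 → Polynomial E} {z : Fin 10 → Polynomial w.RF}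
    (h : ∀ i, Rd w ϖ q e (y i) (z i))
    (hS : Sat T (fun i => Polynomial.C (t i)) (Phi Ω i1 i2) G (Polynomial.C c) y) :
    Sp (Polynomial.C (w.red (t i1))) (Polynomial.C (w.red (t i2))) z := by
  obtain ⟨s1, s2, s3⟩ := hS
  have hz := (rd_zero w h0 h1 (q := q) he).2
  have e1 : ∀ j, MvPolynomial.aeval z (plP Ω j) = 0 := by
    intro j
    have h2 := rd_aeval w h0 h1 he (plP Ω j) h
    rw [s1] at h2
    rw [← h2.2, hz]
  obtain ⟨r1, r2, r3, r4, r5⟩ := (plP_iff _).1 e1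
  refine ⟨r1, r2, r3, r4, r5, ?_, ?_⟩
  · have h2 := rd_add w h0 h1 he (h 9)
      (rd_mul w h0 h1 he (rd_C w h0 h1 (q := q) he hcr) (h 1))
    rw [s2, hc0, Polynomial.C_0, zero_mul, add_zero] at h2
    rw [← h2.2, hz]
  · unfold eqn at s3
    have hR := rd_add w h0 h1 he (rd_fv w h0 h1 he T ht (Phi Ω i1 i2) h)
      (rd_mul w h0 h1 he (rd_C w h0 h1 (q := q) he hcr) (rd_fv w h0 h1 he T ht G h))
    rw [s3, hc0, Polynomial.C_0, zero_mul, add_zero, fv_Phi hT0 hT1 hT2] at hR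
    rw [← hR.2, hz]

end red

end

end Pool.Agent.H900.GM
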