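import Pool.Agent.H900.GM.Bs
import Pool.Agent.H900.LF.Tf

/-! # Transfer to the complex numbers -/

set_option autoImplicit false
set_option linter.unusedSectionVars false
set_option linter.unusedVariables false

namespace Pool.Agent.H900.GM

open MvPolynomial FF Module Pool.Agent.Helper93K9.PAR Pool.Agent.H900.PN

noncomputable section

theorem chain_lift3 {M : Type} [Field M] {r : ℕ} {S : (Fin r → Polynomial M) → Prop}
    {l a : Fin r → M}
    (h : Relation.ReflTransGen (fun a b : Fin r → M => a ≠ 0 ∧ b ≠ 0 ∧ Lks S a b) a l) :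
    ∃ T : Finset M, ∀ (E : Type) [Field E]
      (S' : (Fin r → Polynomial E) → Prop) (ε : E →+* M),
      (∀ z ∈ T, ∃ z', ε z' = z) →
      (∀ y : Fin r → Polynomial E, S (fun i => (y i).map ε) → S' y) →
      ∀ a' l' : Fin r → E, (∀ i, ε (a' i) = a i) → (∀ i, ε (l' i) = l i) →
      Relation.ReflTransGen (fun a b : Fin r → E => a ≠ 0 ∧ b ≠ 0 ∧ Lks S' a b) a' l' := by
  classical
  induction h using Relation.ReflTransGen.head_induction_on with
  | refl =>
    refine ⟨∅, fun E _ S' ε _ _ a' l' ha hl => ?_⟩
    have h1 : a' = l' := by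
      funext i
      apply ε.injective
      rw [ha, hl]
    rw [h1]
  | head h1 hbl ih =>
    rename_i a b
    obtain ⟨T, hT⟩ := ih
    obtain ⟨ha0, hb0, D, C, hD, hC, ⟨s1, hs1, e1⟩, s2, hs2, e2⟩ := h1
    refine ⟨T ∪ (Finset.univ.image b ∪ ({s1, s2} ∪ Finset.univ.biUnion fun i =>
      (C i).support.image fun j => (C i).coeff j)),
      fun E _ S' ε hT' hF a' l' ha hl => ?_⟩
    have hTT : ∀ z ∈ T, ∃ z', ε z' = z := fun z hz =>
      hT' z (Finset.mem_union_left _ hz)
    have hbb : ∀ i, ∃ z', ε z' = b i := fun i =>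
      hT' _ (Finset.mem_union_right _ (Finset.mem_union_left _
        (Finset.mem_image_of_mem _ (Finset.mem_univ i))))
    choose b' hb' using hbb
    obtain ⟨s1', hs1'⟩ := hT' s1 (Finset.mem_union_right _ (Finset.mem_union_right _
      (Finset.mem_union_left _ (by simp))))
    obtain ⟨s2', hs2'⟩ := hT' s2 (Finset.mem_union_right _ (Finset.mem_union_right _
      (Finset.mem_union_left _ (by simp))))
    have hCC : ∀ i j, ∃ z', ε z' = (C i).coeff j := by
      intro i j
      by_cases h : (C i).coeff j = 0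
      · exact ⟨0, by rw [map_zero, h]⟩
      · exact hT' _ (Finset.mem_union_right _ (Finset.mem_union_right _
          (Finset.mem_union_right _ (Finset.mem_biUnion.2 ⟨i, Finset.mem_univ _,
            Finset.mem_image.2 ⟨j, Polynomial.mem_support_iff.2 h, rfl⟩⟩))))
    choose C' hC' using fun i => LF.lift_poly ε (C i) (hCC i)
    have hcoeff : ∀ i j, ε ((C' i).coeff j) = (C i).coeff j := by
      intro i j
      rw [← hC', Polynomial.coeff_map]
    refine Relation.ReflTransGen.head ?_ (hT E S' ε hTT hF b' l' hb' hl)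
    refine ⟨?_, ?_, D, C', ?_, ?_, ⟨s1', ?_, ?_⟩, s2', ?_, ?_⟩
    · rintro rfl
      apply ha0
      funext i
      rw [← ha, Pi.zero_apply, map_zero, Pi.zero_apply]
    · rintro rfl
      apply hb0
      funext i
      rw [← hb', Pi.zero_apply, map_zero, Pi.zero_apply]
    · intro i
      have h2 := hD i
      rw [← hC', Polynomial.natDegree_map] at h2
      exact h2
    · apply hF
      rw [funext hC']
      exact hC
    · rintro rfl
      exact hs1 (by rw [← hs1', map_zero])
    · intro i
      apply ε.injective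
      rw [hcoeff, e1, map_mul, hs1', ha]
    · rintro rfl
      exact hs2 (by rw [← hs2', map_zero])
    · intro i
      apply ε.injective
      rw [hcoeff, e2, map_mul, hs2', hb']

/-- the system of equations over the complex numbers -/
def SatC {ι A : Type} [CommRing A] [Algebra ℂ A] (T : Finset (Finset ι))
    (t : ι → A) (F : Finset ι → MvPolynomial (Fin 10) ℂ) (c : ℂ) (y : Fin 10 → A) : Prop :=
  (∀ j, aeval y (plP ℂ j) = 0) ∧ y 9 + algebraMap ℂ A c * y 1 = 0 ∧ fv T t F y = 0

theorem pl_of_inj {k k' A B : Type} [CommRing k] [CommRing k'] [CommRing A] [CommRing B]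
    [Algebra k A] [Algebra k' B] (ε : A →+* B) (hε : Function.Injective ε) {y : Fin 10 → A}
    (h : ∀ j, aeval (fun i => ε (y i)) (plP k' j) = 0) : ∀ j, aeval y (plP k j) = 0 := by
  obtain ⟨h1, h2, h3, h4, h5⟩ := (plP_iff _).1 h
  refine (plP_iff _).2 ⟨hε ?_, hε ?_, hε ?_, hε ?_, hε ?_⟩
  · simpa only [map_add, map_sub, map_mul, map_zero] using h1
  · simpa only [map_add, map_sub, map_mul, map_zero] using h2
  · simpa only [map_add, map_sub, map_mul, map_zero] using h3
  · simpa only [map_add, map_sub, map_mul, map_zero] using h4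
  · simpa only [map_add, map_sub, map_mul, map_zero] using h5

/-- **The theorem over the complex numbers**, for independent parameters. -/
theorem over_B {s m : ℕ} {i1 i2 : Fin s} (h12 : i1 ≠ i2) {T : Finset (Finset (Fin s))}
    (hT0 : ∅ ∈ T) (hT1 : {i1} ∈ T) (hT2 : {i2} ∈ T)
    {F : Finset (Fin s) → MvPolynomial (Fin 10) ℂ} {c : ℂ} (hB : HB i1 i2 T F c)
    {M : Type} [Field M] [Algebra ℂ M] (t : Fin s → M) (g : Fin 10 → M) (R : Fin m → M)
    (hg : SatC T t F c g) (hg8 : g 8 ≠ 0) (hi : AlgebraicIndependent ℂ (UU t g R))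
    (h4 : ¬ 4 ∣ finrank (Kc ℂ (UU t g R)) M) (l : Fin 10 → M)
    (hl1 : ∀ i j, ¬ AlgebraicIndependent ℂ (Fin.cons (l i / l j) t : Fin (s + 1) → M)) :
    ¬ Relation.ReflTransGen (fun a b : Fin 10 → M => a ≠ 0 ∧ b ≠ 0 ∧
      Lks (SatC T (fun i => Polynomial.C (t i)) F c) a b) g l := by
  classical
  intro hch
  obtain ⟨Tt, hTt⟩ := chain_lift3 hch
  obtain ⟨Ω, G, hΩ, hc, halg, hG, hFG⟩ := hB
  have hchar : CharZero Ω := inferInstance
  have hFΩ : ∀ {A : Type} [CommRing A] [Algebra ℂ A] (tt : Fin s → A) (y : Fin 10 → A),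
      fv T tt F y = eqn T tt (Phi Ω i1 i2) G (algebraMap ℂ A c) y := by
    intro A _ _ tt y
    unfold eqn fv
    rw [Finset.mul_sum, ← Finset.sum_add_distrib]
    refine Finset.sum_congr rfl fun τ hτ => ?_
    rw [hFG τ hτ, map_add, map_mul, aeval_C]
    have h1 : map (algebraMap ℚ ℂ) (Phi ℚ i1 i2 τ) = map (algebraMap Ω ℂ) (Phi Ω i1 i2 τ) := by
      rw [Phi_map, Phi_map]
    rw [h1, aeval_map_algebraMap, aeval_map_algebraMap]
    ring
  have hfin : FiniteDimensional (Kc ℂ (UU t g R)) M := by
    apply FiniteDimensional.of_finrank_pos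
    apply Nat.pos_of_ne_zero
    intro h
    rw [h] at h4
    exact h4 (dvd_zero 4)
  obtain ⟨K, E, _, _, _, _, _, _, ι, ε, c', u', hFF, hc', hιε, hu', hTm, hTc, hdu⟩ :=
    LF.desc2 Ω ℂ M c hc halg _ (UU t g R)
      (Finset.univ.image l ∪ (Tt ∪ (Finset.univ.image g ∪ (Finset.univ.image t ∪
        Finset.univ.image R)))) ∅ hfin
  have hEinj : Function.Injective ε := (ε : E →+* M).injective
  have hιinj : Function.Injective ι := (ι : K →+* ℂ).injective
  choose l' hεl using fun i => hTm (l i) (Finset.mem_union_left _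
    (Finset.mem_image_of_mem _ (Finset.mem_univ i)))
  choose g' hεg using fun i => hTm (g i) (Finset.mem_union_right _ (Finset.mem_union_right _
    (Finset.mem_union_left _ (Finset.mem_image_of_mem _ (Finset.mem_univ i)))))
  choose t' hεt using fun i => hTm (t i) (Finset.mem_union_right _ (Finset.mem_union_right _
    (Finset.mem_union_right _ (Finset.mem_union_left _
      (Finset.mem_image_of_mem _ (Finset.mem_univ i))))))
  choose R' hεR using fun i => hTm (R i) (Finset.mem_union_right _ (Finset.mem_union_right _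
    (Finset.mem_union_right _ (Finset.mem_union_right _
      (Finset.mem_image_of_mem _ (Finset.mem_univ i))))))
  have hUU : ∀ i, ε (UU t' g' R' i) = UU t g R i := by
    intro i
    unfold UU
    rw [Function.comp_apply, Function.comp_apply]
    rcases eqv s 4 m i with a | a | a
    · exact hεt a
    · have h1 : ∀ i j, ε (g' i / g' j) = g i / g j := by
        intro i j
        rw [map_div₀, hεg, hεg]
      show ε (xv g' a) = xv g a
      fin_cases a
      · exact h1 3 8
      · exact h1 6 8
      · exact h1 1 8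
      · exact h1 7 8
    · exact hεR a
  have huy : u' = UU t' g' R' := by
    funext i
    apply hEinj
    rw [hu', hUU]
  have hευ : ∀ y : Fin 10 → E, ε (eqn T t' (Phi Ω i1 i2) G (algebraMap K E c') y) =
      fv T t F (fun i => ε (y i)) := by
    intro y
    rw [hFΩ]
    unfold eqn
    rw [map_add, map_mul, hιε, hc', fv_map, fv_map, funext hεt]
  have hctr : Transcendental Ω c' := by
    intro h
    apply hc
    rw [← hc']
    exact h.algHom ι
  have hεc : ε (algebraMap K E c') = algebraMap ℂ M c := by
    rw [hιε, hc']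
  refine core h12 hT0 hT1 hT2 hG hctr t' g' R' ?_ ?_ ?_ ?_ l' (fun i j hij => ?_) ?_
  · obtain ⟨g1, g2, g3⟩ := hg
    refine ⟨pl_of_inj (k' := ℂ) (ε : E →+* M) hEinj ?_, ?_, ?_⟩
    · have h1 : (fun i => (ε : E →+* M) (g' i)) = g := funext hεg
      rw [h1]
      exact g1
    · apply hEinj
      rw [map_add, map_mul, hεc, hεg, hεg, g2, map_zero]
    · apply hEinj
      rw [hευ, funext hεg, g3, map_zero]
  · intro h0
    apply hg8
    rw [← hεg, h0, map_zero]
  · apply ind_down hιε
    rw [funext hUU]
    exact hi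
  · rw [← huy, hdu]
    exact h4
  · apply hl1 i j
    have h1 := ind_up hιε (alg_of hc' halg) hij
    have h2 : (fun a => ε ((Fin.cons (l' i / l' j) t' : Fin (s + 1) → E) a)) =
        Fin.cons (l i / l j) t := by
      funext a
      refine Fin.cases ?_ (fun a => ?_) a
      · show ε (l' i / l' j) = l i / l j
        rw [map_div₀, hεl, hεl]
      · exact hεt _
    rw [h2] at h1
    exact h1
  · refine hTt E _ (ε : E →+* M)
      (fun z hz => hTm z (Finset.mem_union_right _ (Finset.mem_union_left _ hz)))
      (fun y hy => ?_) _ _ hεg hεl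
    obtain ⟨g1, g2, g3⟩ := hy
    have hinj : Function.Injective (Polynomial.mapRingHom (ε : E →+* M)) :=
      Polynomial.map_injective (ε : E →+* M) (ε : E →+* M).injective
    refine ⟨pl_of_inj (k' := ℂ) (Polynomial.mapRingHom (ε : E →+* M)) hinj g1, ?_, ?_⟩
    · apply hinj
      rw [map_zero]
      refine Eq.trans ?_ g2
      show Polynomial.map (ε : E →+* M) (y 9 + Polynomial.C (algebraMap K E c') * y 1) = _
      rw [Polynomial.map_add, Polynomial.map_mul, Polynomial.map_C]
      have h3 : (ε : E →+* M) (algebraMap K E c') = algebraMap ℂ M c := hεc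
      rw [h3]
      rfl
    · apply hinj
      rw [map_zero]
      refine Eq.trans ?_ g3
      rw [hFΩ]
      have e1 : ∀ H : Finset (Fin s) → MvPolynomial (Fin 10) Ω,
          Polynomial.map (ε : E →+* M) (fv T (fun i => Polynomial.C (t' i)) H y) =
            fv T (fun i => Polynomial.C (t i)) H fun i => (y i).map (ε : E →+* M) := by
        intro H
        have h2 := fv_map (Polynomial.mapAlgHom ε) T (fun i => Polynomial.C (t' i)) H y
        have h3 : (fun i => (Polynomial.mapAlgHom ε) (Polynomial.C (t' i))) =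
            fun i => Polynomial.C (t i) := by
          funext i
          rw [← hεt]
          exact Polynomial.map_C _
        rw [h3] at h2
        exact h2
      show Polynomial.map (ε : E →+* M) (eqn T (fun i => Polynomial.C (t' i)) (Phi Ω i1 i2) G
        (Polynomial.C (algebraMap K E c')) y) = _
      unfold eqn
      rw [Polynomial.map_add, Polynomial.map_mul, e1, e1, Polynomial.map_C]
      congr 2
      have h3 : (ε : E →+* M) (algebraMap K E c') = algebraMap ℂ M c := hεc
      rw [h3, IsScalarTower.algebraMap_apply ℂ M (Polynomial M), Polynomial.algebraMap_apply]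
      rfl

end

end Pool.Agent.H900.GM
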